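import Pool.Agent.R243.HD.Defs

/-!
# Project HD (helper243), piece BU: boundary bumping (helper657)
-/

open Set Filter Topology Complex Metric

namespace HD243

/-- the closed annulus is preconnected -/
theorem annulus_preconnected : IsPreconnected {z : ℂ | 1 ≤ ‖z‖ ∧ ‖z‖ ≤ 2} := by
  have h : {z : ℂ | 1 ≤ ‖z‖ ∧ ‖z‖ ≤ 2} =
      (fun p : ℝ × ℝ => (p.1 : ℂ) * Complex.exp (p.2 * I)) '' (Icc (1 : ℝ) 2 ×ˢ univ) := by
    ext z
    constructor
    · rintro ⟨h1, h2⟩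
      refine ⟨(‖z‖, Complex.arg z), ⟨⟨h1, h2⟩, mem_univ _⟩, ?_⟩
      exact Complex.norm_mul_exp_arg_mul_I z
    · rintro ⟨⟨r, t⟩, ⟨⟨h1, h2⟩, -⟩, rfl⟩
      have : ‖(r : ℂ) * Complex.exp (t * I)‖ = r := by
        rw [norm_mul, Complex.norm_exp_ofReal_mul_I, mul_one, Complex.norm_real, Real.norm_eq_abs,
          abs_of_nonneg (by simp at h1; linarith)]
      simp only [mem_ofPred_eq]
      rw [this]
      exact ⟨h1, h2⟩
  rw [h]
  apply IsPreconnected.image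
  · exact (isPreconnected_Icc).prod isPreconnected_univ
  · fun_prop

theorem t_BU : S_BU := by
  intro E δ hδ0 hδ1 hEc hE hE1 ⟨e, heE, hed⟩
  by_contra hcon
  push Not at hcon
  set X : Set ℂ := E ∩ {z | 1 - δ ≤ ‖z‖} with hX
  set K : Set ℂ := X ∩ closedBall 0 2 with hK
  have hXc : IsClosed X := hEc.inter (isClosed_le continuous_const continuous_norm)
  have hKc : IsCompact K := (isCompact_closedBall (0 : ℂ) 2).inter_left hXc
  have : CompactSpace K := isCompact_iff_compactSpace.mp hKc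
  have h1K : (1 : ℂ) ∈ K := by
    refine ⟨⟨hE1 (by simp), ?_⟩, by simp⟩
    simp only [mem_ofPred_eq, norm_one]
    linarith
  have hAnn : {z : ℂ | 1 ≤ ‖z‖ ∧ ‖z‖ ≤ 2} ⊆ K := by
    rintro z ⟨h1, h2⟩
    refine ⟨⟨hE1 h1, ?_⟩, by simpa using h2⟩
    simp only [mem_ofPred_eq]
    linarith
  -- the component of `1` in `K`
  have hcomp : ((↑) : K → ℂ) '' connectedComponent (⟨1, h1K⟩ : K) ⊆ connectedComponentIn X 1 := by
    apply IsPreconnected.subset_connectedComponentIn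
    · exact isPreconnected_connectedComponent.image _ continuous_subtype_val.continuousOn
    · exact ⟨⟨1, h1K⟩, mem_connectedComponent, rfl⟩
    · rintro _ ⟨x, -, rfl⟩
      exact x.2.1
  have hUopen : IsOpen {x : K | ‖(x : ℂ)‖ ≠ 1 - δ} :=
    isOpen_ne_fun (continuous_norm.comp continuous_subtype_val) continuous_const
  have : Nonempty { s : Set K // IsClopen s ∧ (⟨1, h1K⟩ : K) ∈ s } :=
    ⟨⟨univ, isClopen_univ, mem_univ _⟩⟩
  obtain ⟨A, hA1, hAU⟩ : ∃ A : { s : Set K // IsClopen s ∧ (⟨1, h1K⟩ : K) ∈ s },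
      (A : Set K) ⊆ {x : K | ‖(x : ℂ)‖ ≠ 1 - δ} ∧ True := by
    have := exists_subset_nhds_of_compactSpace
      (V := fun s : { s : Set K // IsClopen s ∧ (⟨1, h1K⟩ : K) ∈ s } => (s : Set K))
      (U := {x : K | ‖(x : ℂ)‖ ≠ 1 - δ}) ?_ ?_ ?_
    · obtain ⟨A, hA⟩ := this
      exact ⟨A, hA, trivial⟩
    · rintro ⟨s, hs, hs1⟩ ⟨t, ht, ht1⟩
      exact ⟨⟨s ∩ t, hs.inter ht, hs1, ht1⟩, inter_subset_left, inter_subset_right⟩
    · rintro ⟨s, hs, hs1⟩
      exact hs.1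
    · intro x hx
      apply hUopen.mem_nhds
      rw [← connectedComponent_eq_iInter_isClopen] at hx
      intro hxn
      exact hcon x hxn (hcomp ⟨x, hx, rfl⟩)
  obtain ⟨A, hAcl, hA1'⟩ := A
  simp only at hA1
  have hAnnA : ∀ z : K, 1 ≤ ‖(z : ℂ)‖ → z ∈ A := by
    have hpre : IsPreconnected {z : K | 1 ≤ ‖(z : ℂ)‖} := by
      have := annulus_preconnected
      rw [← Topology.IsInducing.subtypeVal.isPreconnected_image]
      convert this using 1
      ext z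
      constructor
      · rintro ⟨x, hx, rfl⟩
        exact ⟨hx, by simpa using x.2.2⟩
      · intro hz
        exact ⟨⟨z, hAnn hz⟩, hz.1, rfl⟩
    have := hpre.subset_isClopen hAcl ⟨⟨1, h1K⟩, by simp, hA1'⟩
    intro z hz
    exact this hz
  -- the two closed pieces
  have hA' : IsClosed (((↑) : K → ℂ) '' A) := 
    (hAcl.1.isCompact.image continuous_subtype_val).isClosed
  have hB' : IsClosed (((↑) : K → ℂ) '' Aᶜ) := 
    (hAcl.compl.1.isCompact.image continuous_subtype_val).isClosed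
  have hF1 : IsClosed (((↑) : K → ℂ) '' A ∪ {z | 2 ≤ ‖z‖}) :=
    hA'.union (isClosed_le continuous_const continuous_norm)
  have hF2 : IsClosed (((↑) : K → ℂ) '' Aᶜ ∪ {z | ‖z‖ ≤ 1 - δ}) :=
    hB'.union (isClosed_le continuous_norm continuous_const)
  have hpc := (isPreconnected_closed_iff.mp hE.isPreconnected) _ _ hF1 hF2 ?_ ?_ ?_
  · obtain ⟨z, hzE, hz1, hz2⟩ := hpc
    rcases hz1 with ⟨x, hxA, rfl⟩ | hz1
    · rcases hz2 with ⟨y, hyA, hyx⟩ | hz2
      · exact hyA (by rw [Subtype.ext hyx]; exact hxA)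
      · exact hA1 hxA (le_antisymm hz2 x.2.1.2)
    · rcases hz2 with ⟨y, hyA, rfl⟩ | hz2
      · apply hyA
        apply hAnnA
        simp only [mem_ofPred_eq] at hz1
        linarith
      · simp only [mem_ofPred_eq] at hz1 hz2
        linarith
  · intro z hz
    by_cases h2 : 2 ≤ ‖z‖
    · exact Or.inl (Or.inr h2)
    by_cases h1 : ‖z‖ ≤ 1 - δ
    · exact Or.inr (Or.inr h1)
    push Not at h1 h2
    have hzK : z ∈ K := ⟨⟨hz, h1.le⟩, by simpa using h2.le⟩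
    by_cases hzA : (⟨z, hzK⟩ : K) ∈ A
    · exact Or.inl (Or.inl ⟨_, hzA, rfl⟩)
    · exact Or.inr (Or.inl ⟨_, hzA, rfl⟩)
  · exact ⟨1, hE1 (by simp), Or.inl ⟨_, hA1', rfl⟩⟩
  · exact ⟨e, heE, Or.inr hed.le⟩

end HD243
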