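import Mathlib

/-!
# Project HD (helper243): the four-domain inequality for hyperbolic densities (MP_14bd02_an)

Statements only; `NOTES.md` in this folder has the complete proofs.
-/

open Set Filter Topology Complex Metric

noncomputable section

namespace HD243

/-- univalent self-map of the unit disc fixing `0` -/
def Un (u : ℂ → ℂ) : Prop :=
  DifferentiableOn ℂ u (ball 0 1) ∧ MapsTo u (ball 0 1) (ball 0 1) ∧ InjOn u (ball 0 1) ∧ u 0 = 0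

/-- holomorphic covering map from the unit disc onto `D` -/
def Cov (D : Set ℂ) (f : ℂ → ℂ) : Prop :=
  DifferentiableOn ℂ f (ball 0 1) ∧ f '' ball 0 1 = D ∧
    ∃ h : MapsTo f (ball 0 1) D, IsCoveringMap (Set.MapsTo.restrict f (ball 0 1) D h)

/-- `l` is the value at `z` of the hyperbolic density of `D`, normalised by `λ(0) = 1` in the disc -/
def IsDensity (D : Set ℂ) (z : ℂ) (l : ℝ) : Prop :=
  ∃ (f : ℂ → ℂ) (w : ℂ), Cov D f ∧ w ∈ ball (0 : ℂ) 1 ∧ f w = z ∧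
    l * ‖deriv f w‖ = 1 / (1 - ‖w‖ ^ 2)

/-- where `k` stays away from the unit circle, `φ` tends to the unit circle -/
def BD (φ k : ℂ → ℂ) : Prop := ∀ r < 1, ∀ ε > 0, ∃ s < 1, ∀ z : ℂ, s < ‖z‖ → ‖z‖ < 1 →
  ‖k z‖ ≤ r → 1 - ε ≤ ‖φ z‖

/-- where `k` stays away from the unit circle, `Re Φ` has upper limit at most `0` -/
def VN (Φ k : ℂ → ℂ) : Prop := ∀ r < 1, ∀ ε > 0, ∃ s < 1, ∀ z : ℂ, s < ‖z‖ → ‖z‖ < 1 →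
  ‖k z‖ ≤ r → (Φ z).re ≤ ε

/-! ## Univalent functions -/

/-- UD: elementary facts -/
def S_UD : Prop := ∀ u, Un u → deriv u 0 ≠ 0 ∧ ‖deriv u 0‖ ≤ 1 ∧
  (∀ z ∈ ball (0 : ℂ) 1, ‖u z‖ ≤ ‖z‖) ∧ (∀ z ∈ ball (0 : ℂ) 1, u z = 0 → z = 0)

/-- GR: the growth theorem of Pick -/
def S_GR : Prop := ∀ u, Un u → ∀ w ∈ ball (0 : ℂ) 1,
  (1 - ‖w‖) ^ 2 * ‖u w‖ ≤ ‖deriv u 0‖ * ‖w‖ * (1 - ‖u w‖) ^ 2

/-- OM: the derivative of a function omitting the value `a` -/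
def S_OM : Prop := ∀ u a, Un u → a ∈ ball (0 : ℂ) 1 → a ∉ u '' ball 0 1 →
  ‖deriv u 0‖ * (1 + ‖a‖) ≤ 2 * √‖a‖

/-- LF: division from the left by a univalent function -/
def S_LF : Prop := ∀ u v : ℂ → ℂ, Un u → DifferentiableOn ℂ v (ball 0 1) →
  MapsTo v (ball 0 1) (u '' ball 0 1) → ∃ k : ℂ → ℂ, DifferentiableOn ℂ k (ball 0 1) ∧
    MapsTo k (ball 0 1) (ball 0 1) ∧ ∀ z ∈ ball (0 : ℂ) 1, u (k z) = v z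

/-! ## Plane topology -/

/-- CN: the complement of the image of a univalent self-map is connected -/
def S_CN : Prop := ∀ u, Un u → IsConnected (u '' ball 0 1)ᶜ

/-- RM: Riemann map of a component of the complement of a connected closed set -/
def S_RM : Prop := ∀ C : Set ℂ, IsClosed C → IsConnected C → {z : ℂ | 1 ≤ ‖z‖} ⊆ C → (0 : ℂ) ∉ C →
  ∃ p, Un p ∧ p '' ball 0 1 = connectedComponentIn Cᶜ 0

/-- BU: boundary bumping -/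
def S_BU : Prop := ∀ (E : Set ℂ) (δ : ℝ), 0 < δ → δ < 1 → IsClosed E → IsConnected E →
  {z : ℂ | 1 ≤ ‖z‖} ⊆ E → (∃ e ∈ E, ‖e‖ < 1 - δ) →
  ∃ a : ℂ, ‖a‖ = 1 - δ ∧ a ∈ connectedComponentIn (E ∩ {z | 1 - δ ≤ ‖z‖}) 1

/-- CH: one step of the chain -/
def S_CH : Prop := ∀ (δ : ℝ) (g : ℂ → ℂ), 0 < δ → δ < 1 → Un g →
  ¬ (ball 0 (1 - δ) ⊆ g '' ball 0 1) →
  ∃ (p : ℂ → ℂ) (a : ℂ), Un p ∧ ball 0 (1 - δ) ⊆ p '' ball 0 1 ∧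
    g '' ball 0 1 ⊆ p '' ball 0 1 ∧ ‖a‖ = 1 - δ ∧ a ∉ p '' ball 0 1

/-- VM: the Riemann map of the component of an intersection -/
def S_VM : Prop := ∀ u p, Un u → Un p → ∃ φ k, Un φ ∧ Un k ∧
  (∀ z ∈ ball (0 : ℂ) 1, u (φ z) = p (k z)) ∧ BD φ k

/-! ## Harmonic functions -/

/-- LG: logarithm of `z / p z` -/
def S_LG : Prop := ∀ p, Un p → ∃ P : ℂ → ℂ, DifferentiableOn ℂ P (ball 0 1) ∧
  (∀ z ∈ ball (0 : ℂ) 1, z = p z * exp (P z)) ∧ (∀ z ∈ ball (0 : ℂ) 1, 0 ≤ (P z).re) ∧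
  (P 0).re = - Real.log ‖deriv p 0‖

/-- CM: comparison of the two Green functions -/
def S_CM : Prop := ∀ (δ : ℝ) (u p φ k P Φ : ℂ → ℂ), 0 < δ → δ ≤ 1 / 4 → Un u → Un p → Un φ → Un k →
  ball 0 (1 - δ) ⊆ p '' ball 0 1 → (∀ z ∈ ball (0 : ℂ) 1, u (φ z) = p (k z)) → BD φ k →
  DifferentiableOn ℂ P (ball 0 1) → (∀ z ∈ ball (0 : ℂ) 1, z = p z * exp (P z)) →
  DifferentiableOn ℂ Φ (ball 0 1) → (∀ z ∈ ball (0 : ℂ) 1, z = φ z * exp (Φ z)) →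
  ∀ z ∈ ball (0 : ℂ) 1, (Φ z).re ≤ √‖deriv u 0‖ * (1 + δ) * (P (k z)).re

/-- HM: the harmonic measure estimate -/
def S_HM : Prop := ∀ (k P Φ : ℂ → ℂ) (κ : ℝ), Un k → DifferentiableOn ℂ P (ball 0 1) →
  (∀ z ∈ ball (0 : ℂ) 1, 0 ≤ (P z).re) → DifferentiableOn ℂ Φ (ball 0 1) → 0 ≤ κ →
  (∀ z ∈ ball (0 : ℂ) 1, (Φ z).re ≤ κ * (P (k z)).re) → VN Φ k →
  (Φ 0).re ≤ κ * √‖deriv k 0‖ * (P 0).re

/-- HS: the same with `P` holomorphic in a larger disc -/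
def S_HS : Prop := ∀ (k P Φ : ℂ → ℂ) (κ R : ℝ), Un k → 1 < R → DifferentiableOn ℂ P (ball 0 R) →
  (∀ z ∈ ball (0 : ℂ) 1, 0 ≤ (P z).re) → DifferentiableOn ℂ Φ (ball 0 1) → 0 ≤ κ →
  (∀ z ∈ ball (0 : ℂ) 1, (Φ z).re ≤ κ * (P (k z)).re) → VN Φ k →
  (Φ 0).re ≤ κ * √‖deriv k 0‖ * (P 0).re

/-- Green function of the disc -/
def gg (ζ ξ : ℂ) : ℝ := Real.log ‖(1 - (starRingEnd ℂ) ξ * ζ) / (ζ - ξ)‖

/-- radial averages of `Re P` -/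
def UU (P : ℂ → ℂ) (L : ℝ) (ζ : ℂ) : ℝ :=
  (1 / (2 * L)) * ∫ t in (2 * max 0 (L + Real.log ‖ζ‖))..(2 * L),
    (P ((Real.exp (-t) : ℂ) * ζ)).re

/-- RP: `UU` is (at least) the Green potential of `Re P` on the circle of radius `exp (-L)` -/
def S_RP : Prop := ∀ (P : ℂ → ℂ) (R L : ℝ) (ζ : ℂ), 1 < R → 0 < L →
  DifferentiableOn ℂ P (ball 0 R) → (∀ z ∈ ball (0 : ℂ) 1, 0 ≤ (P z).re) →
  ζ ∈ ball (0 : ℂ) 1 → ζ ≠ 0 →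
  CircleIntegrable (fun ξ => (P ξ).re * gg ζ ξ) 0 (Real.exp (-L)) ∧
  (1 / L) * Real.circleAverage (fun ξ => (P ξ).re * gg ζ ξ) 0 (Real.exp (-L)) ≤ UU P L ζ

/-- JE: Jensen -/
def S_JE : Prop := ∀ (k : ℂ → ℂ) (ξ : ℂ) (s q : ℝ), Un k → ξ ∈ ball (0 : ℂ) 1 → ξ ≠ 0 →
  0 < s → s < 1 → 0 ≤ q → (∀ w ∈ ball (0 : ℂ) 1, k w = ξ → - Real.log ‖w‖ ≤ q) →
  CircleIntegrable (fun z => gg (k z) ξ) 0 s ∧
  - Real.log ‖ξ‖ - q ≤ Real.circleAverage (fun z => gg (k z) ξ) 0 s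

/-- UB: elementary properties of `UU` -/
def S_UB : Prop := ∀ (P : ℂ → ℂ) (R L B M : ℝ), 1 < R → 0 < L → 0 ≤ M →
  DifferentiableOn ℂ P (ball 0 R) → (∀ z ∈ ball (0 : ℂ) 1, 0 ≤ (P z).re ∧ (P z).re ≤ B) →
  (∀ x ∈ ball (0 : ℂ) 1, ∀ y ∈ ball (0 : ℂ) 1, |(P x).re - (P y).re| ≤ M * ‖x - y‖) →
  ContinuousOn (UU P L) (ball 0 1 \ {0}) ∧
  ∀ ζ ∈ ball (0 : ℂ) 1, ζ ≠ 0 → 0 ≤ UU P L ζ ∧ UU P L ζ ≤ B * (- Real.log ‖ζ‖) / L ∧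
    UU P L ζ ≤ (P ζ).re + 2 * L * M

/-- TO: Tonelli -/
def S_TO : Prop := ∀ (k P : ℂ → ℂ) (R L s : ℝ), Un k → 1 < R → 0 < L → L ≤ 1 → 0 < s → s < 1 →
  DifferentiableOn ℂ P (ball 0 R) → (∀ z ∈ ball (0 : ℂ) 1, 0 ≤ (P z).re) →
  (1 - √‖deriv k 0‖ * (1 + L)) * (P 0).re ≤ Real.circleAverage (fun z => UU P L (k z)) 0 s

/-! ## Assembly -/

/-- ST: small step -/
def S_ST : Prop := ∀ (δ : ℝ) (u p : ℂ → ℂ), 0 < δ → δ ≤ 1 / 4 → Un u → Un p →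
  ball 0 (1 - δ) ⊆ p '' ball 0 1 → ∃ φ k, Un φ ∧ Un k ∧
    (∀ z ∈ ball (0 : ℂ) 1, u (φ z) = p (k z)) ∧
    - Real.log ‖deriv φ 0‖ ≤ ‖deriv u 0‖ * (1 + 4 * δ) * (- Real.log ‖deriv p 0‖)

/-- CO: the inequality for two univalent self-maps of the disc -/
def S_CO : Prop := ∀ (u g : ℂ → ℂ) (ε : ℝ), Un u → Un g → 0 < ε → ∃ h : ℂ → ℂ,
  DifferentiableOn ℂ h (ball 0 1) ∧ MapsTo h (ball 0 1) (u '' ball 0 1 ∩ g '' ball 0 1) ∧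
  h 0 = 0 ∧ deriv h 0 ≠ 0 ∧
  1 / ‖deriv h 0‖ ≤ 1 / ‖deriv u 0‖ + 1 / ‖deriv g 0‖ - 1 + ε

/-! ## Covering maps -/

/-- LI: lifting of holomorphic maps of the disc -/
def S_LI : Prop := ∀ (D : Set ℂ) (f h : ℂ → ℂ), IsOpen D → Cov D f →
  DifferentiableOn ℂ h (ball 0 1) → MapsTo h (ball 0 1) D → h 0 = f 0 →
  ∃ g : ℂ → ℂ, DifferentiableOn ℂ g (ball 0 1) ∧ MapsTo g (ball 0 1) (ball 0 1) ∧ g 0 = 0 ∧
    ∀ w ∈ ball (0 : ℂ) 1, f (g w) = h w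

/-- LD: coverings are locally injective -/
def S_LD : Prop := ∀ (D : Set ℂ) (f : ℂ → ℂ), IsOpen D → Cov D f → deriv f 0 ≠ 0

/-- LS: a covering of a simply connected set is injective -/
def S_LS : Prop := ∀ (D : Set ℂ) (f : ℂ → ℂ), IsOpen D → IsSimplyConnected D → Cov D f →
  InjOn f (ball 0 1)

/-- MB: change of base point in the disc -/
def S_MB : Prop := ∀ (D : Set ℂ) (z : ℂ) (l : ℝ), IsDensity D z l →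
  ∃ f, Cov D f ∧ f 0 = z ∧ l * ‖deriv f 0‖ = 1

/-- the four-domain inequality -/
def S_RES : Prop := ∀ (D₁ D₂ : Set ℂ) (z : ℂ) (l₁ l₂ lI lU : ℝ), IsOpen D₁ → IsOpen D₂ →
  IsSimplyConnected D₁ → IsSimplyConnected D₂ →
  (∃ a b : ℂ, a ≠ b ∧ a ∉ D₁ ∪ D₂ ∧ b ∉ D₁ ∪ D₂) → z ∈ D₁ ∩ D₂ →
  IsDensity D₁ z l₁ → IsDensity D₂ z l₂ →
  IsDensity (connectedComponentIn (D₁ ∩ D₂) z) z lI → IsDensity (D₁ ∪ D₂) z lU →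
  lI + lU ≤ l₁ + l₂

end HD243
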