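import Mathlib
import Pool.Agent.R243.HD.Defs

/-! # Project HD, piece CH: one step of the chain -/

open Set Filter Topology Complex Metric

noncomputable section

namespace HD243

theorem ch_outer : IsPreconnected {z : ℂ | 1 ≤ ‖z‖} := by
  have h1 : {z : ℂ | 1 ≤ ‖z‖} = Complex.exp '' {z : ℂ | 0 ≤ z.re} := by
    ext z
    constructor
    · intro hz
      have hz0 : z ≠ 0 := by
        rintro rfl
        simp at hz
        linarith
      refine ⟨Complex.log z, ?_, Complex.exp_log hz0⟩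
      show 0 ≤ (Complex.log z).re
      rw [Complex.log_re]
      exact Real.log_nonneg hz
    · rintro ⟨w, hw, rfl⟩
      show 1 ≤ ‖Complex.exp w‖
      rw [Complex.norm_exp]
      exact Real.one_le_exp hw
  rw [h1]
  have h2 : Convex ℝ {z : ℂ | 0 ≤ z.re} := convex_halfSpace_re_ge 0
  exact h2.isPreconnected.image _ Complex.continuous_exp.continuousOn

theorem ch_open {g : ℂ → ℂ} (hg : Un g) : IsOpen (g '' ball 0 1) := by
  obtain ⟨hd, hm, hi, h0⟩ := hg
  have ha : AnalyticOnNhd ℂ g (ball 0 1) := hd.analyticOnNhd isOpen_ball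
  rcases ha.is_constant_or_isOpen (convex_ball (0 : ℂ) 1).isPreconnected with ⟨w, hw⟩ | h
  · exfalso
    have h1 : (0 : ℂ) ∈ ball (0 : ℂ) 1 := by simp
    have h2 : (1 / 2 : ℂ) ∈ ball (0 : ℂ) 1 := by
      rw [mem_ball_zero_iff]; norm_num
    have := hi h1 h2 ((hw 0 h1).trans (hw _ h2).symm)
    norm_num at this
  · exact h _ Subset.rfl isOpen_ball

theorem t_CH (hBU : S_BU) (hRM : S_RM) (hCN : S_CN) (_hUD : S_UD) : S_CH := by
  intro δ g hδ hδ1 hg hnot
  have hopen := ch_open hg
  set E : Set ℂ := (g '' ball 0 1)ᶜ with hE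
  have hEc : IsClosed E := hopen.isClosed_compl
  have hEconn : IsConnected E := hCN g hg
  have hE1 : {z : ℂ | 1 ≤ ‖z‖} ⊆ E := by
    rintro z hz ⟨w, hw, rfl⟩
    have := hg.2.1 hw
    rw [mem_ball_zero_iff] at this
    exact absurd hz (not_le.2 this)
  obtain ⟨e, he, he'⟩ := Set.not_subset.1 hnot
  obtain ⟨a, ha, haC⟩ := hBU E δ hδ hδ1 hEc hEconn hE1 ⟨e, he', mem_ball_zero_iff.1 he⟩
  set F : Set ℂ := E ∩ {z | 1 - δ ≤ ‖z‖} with hF
  have hFc : IsClosed F := hEc.inter (isClosed_le continuous_const continuous_norm)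
  have h1F : {z : ℂ | 1 ≤ ‖z‖} ⊆ F := fun z hz => ⟨hE1 hz, by
    have : (1 : ℝ) ≤ ‖z‖ := hz
    show 1 - δ ≤ ‖z‖
    linarith⟩
  have h1 : (1 : ℂ) ∈ {z : ℂ | 1 ≤ ‖z‖} := by simp
  set C : Set ℂ := connectedComponentIn F 1 with hC
  have hCconn : IsConnected C := isConnected_connectedComponentIn_iff.2 (h1F h1)
  have hCc : IsClosed C := by
    have h2 : closure C ⊆ C := by
      refine hCconn.isPreconnected.closure.subset_connectedComponentIn
        (subset_closure (mem_connectedComponentIn (h1F h1))) ?_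
      exact hFc.closure_subset_iff.2 (connectedComponentIn_subset F 1)
    exact isClosed_of_closure_subset h2
  have hCF : C ⊆ F := connectedComponentIn_subset F 1
  have hC1 : {z : ℂ | 1 ≤ ‖z‖} ⊆ C := ch_outer.subset_connectedComponentIn h1 h1F
  have hnorm : ∀ z ∈ C, 1 - δ ≤ ‖z‖ := fun z hz => (hCF hz).2
  have hC0 : (0 : ℂ) ∉ C := by
    intro h
    have := hnorm 0 h
    rw [norm_zero] at this
    linarith
  obtain ⟨p, hp, hpim⟩ := hRM C hCc hCconn hC1 hC0
  refine ⟨p, a, hp, ?_, ?_, ha, ?_⟩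
  · rw [hpim]
    refine (convex_ball (0 : ℂ) (1 - δ)).isPreconnected.subset_connectedComponentIn
      (by rw [mem_ball_zero_iff, norm_zero]; linarith) ?_
    intro z hz hzC
    have := hnorm z hzC
    rw [mem_ball_zero_iff] at hz
    linarith
  · rw [hpim]
    refine ((convex_ball (0 : ℂ) 1).isPreconnected.image g hg.1.continuousOn).subset_connectedComponentIn
      ⟨0, by simp, hg.2.2.2⟩ ?_
    intro z hz hzC
    exact (hCF hzC).1 hz
  · rw [hpim]
    intro h
    exact connectedComponentIn_subset _ _ h haC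

end HD243
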