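import Pool.Agent.R243.HD.Defs

/-!
# Project HD, piece CM: comparison of the two Green functions
-/

set_option autoImplicit false

open Set Filter Topology Complex Metric

noncomputable section

namespace HD243

theorem cm_sinh {δ b : ℝ} (hδ : 0 < δ) (hδ4 : δ ≤ 1 / 4) (hb : 0 ≤ b) (hb2 : b ≤ 2 * δ) :
    Real.sinh b ≤ (1 + δ) * b := by
  have h1 : |b| ≤ 1 := by rw [abs_of_nonneg hb]; linarith
  have h2 := (abs_le.mp (Real.exp_bound h1 (n := 3) (by norm_num))).2
  have h3 := (abs_le.mp (Real.exp_bound (x := -b) (by rwa [abs_neg]) (n := 3) (by norm_num))).1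
  rw [abs_of_nonneg hb] at h2
  rw [abs_neg, abs_of_nonneg hb] at h3
  simp only [Finset.sum_range_succ, Finset.sum_range_zero, Nat.factorial] at h2 h3
  norm_num at h2 h3
  rw [Real.sinh_eq]
  have h4 : b ^ 3 ≤ b * (4 * δ ^ 2) := by
    have : b ^ 2 ≤ (2 * δ) ^ 2 := pow_le_pow_left₀ hb hb2 2
    nlinarith
  have h5 : b * (4 * δ ^ 2) ≤ b * δ := by
    apply mul_le_mul_of_nonneg_left _ hb
    nlinarith
  have h6 : 0 ≤ b ^ 3 := by positivity
  nlinarith

theorem cm_sh {x : ℝ} (hx0 : 0 < x) :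
    2 * Real.sinh (- Real.log x / 2) = (1 - x) / √x := by
  rw [Real.sinh_eq]
  have e1 : Real.exp (-(- Real.log x / 2)) = √x := by
    rw [Real.sqrt_eq_rpow, Real.rpow_def_of_pos hx0]
    congr 1
    ring
  have e2 : Real.exp (- Real.log x / 2) = (√x)⁻¹ := by
    rw [← e1, ← Real.exp_neg, neg_neg]
  rw [e1, e2]
  have h0 : 0 < √x := Real.sqrt_pos.mpr hx0
  have h1 : √x * √x = x := Real.mul_self_sqrt hx0.le
  field_simp
  nlinarith

theorem cm_ineq {ρ δ x y : ℝ} (hρ : 0 ≤ ρ) (hδ : 0 < δ) (hδ4 : δ ≤ 1 / 4) (hx0 : 0 < x)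
    (hx1 : x < 1) (hy : 1 - 2 * δ < y) (hy1 : y < 1)
    (h : (1 - x) ^ 2 * y ≤ ρ * x * (1 - y) ^ 2) :
    - Real.log x ≤ √ρ * (1 + δ) * (- Real.log y) := by
  have hy0 : 0 < y := by linarith
  set a : ℝ := - Real.log x / 2 with ha
  set b : ℝ := - Real.log y / 2 with hb
  have ha0 : 0 ≤ a := by
    have := Real.log_nonpos hx0.le hx1.le
    rw [ha]; linarith
  have hb0 : 0 ≤ b := by
    have := Real.log_nonpos hy0.le hy1.le
    rw [hb]; linarith
  have hb2 : b ≤ 2 * δ := by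
    have h1 : 1 - y⁻¹ ≤ Real.log y := Real.one_sub_inv_le_log_of_pos hy0
    have h2 : y⁻¹ ≤ 1 + 4 * δ := by
      rw [inv_le_comm₀ hy0 (by linarith)]
      have h3 : (1 + 4 * δ)⁻¹ ≤ 1 - 2 * δ := by
        rw [inv_le_comm₀ (by linarith) (by linarith)]
        rw [inv_le_iff_one_le_mul₀ (by linarith)]
        nlinarith
      linarith
    rw [hb]
    linarith
  have hs : (Real.sinh a) ^ 2 ≤ (√ρ * Real.sinh b) ^ 2 := by
    have e1 := cm_sh hx0
    have e2 := cm_sh hy0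
    rw [← ha] at e1
    rw [← hb] at e2
    have e3 : (2 * Real.sinh a) ^ 2 = (1 - x) ^ 2 / x := by
      rw [e1, div_pow, Real.sq_sqrt hx0.le]
    have e4 : (2 * Real.sinh b) ^ 2 = (1 - y) ^ 2 / y := by
      rw [e2, div_pow, Real.sq_sqrt hy0.le]
    have e5 : (1 - x) ^ 2 / x ≤ ρ * ((1 - y) ^ 2 / y) := by
      rw [← mul_div_assoc, div_le_div_iff₀ hx0 hy0]
      linarith
    rw [mul_pow, Real.sq_sqrt hρ]
    nlinarith
  have hs2 : Real.sinh a ≤ √ρ * Real.sinh b := by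
    exact le_trans (le_abs_self _) (abs_le_of_sq_le_sq hs
      (mul_nonneg (Real.sqrt_nonneg _) (Real.sinh_nonneg_iff.mpr hb0)))
  have h1 : a ≤ Real.sinh a := Real.self_le_sinh_iff.mpr ha0
  have h2 := cm_sinh hδ hδ4 hb0 hb2
  have h3 : a ≤ √ρ * ((1 + δ) * b) := by
    refine h1.trans (hs2.trans ?_)
    exact mul_le_mul_of_nonneg_left h2 (Real.sqrt_nonneg _)
  have e1 : - Real.log x = 2 * a := by rw [ha]; ring
  have e2 : - Real.log y = 2 * b := by rw [hb]; ring
  rw [e1, e2]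
  nlinarith

/-- the preimage of a closed disc inside the image of a univalent function stays away from the
circle -/
theorem cm_cover {p : ℂ → ℂ} (hp : Un p) {δ : ℝ} (hδ : 0 < δ)
    (hsub : ball 0 (1 - δ) ⊆ p '' ball 0 1) :
    ∃ r : ℝ, r < 1 ∧ ∀ w ∈ ball (0 : ℂ) 1, r ≤ ‖w‖ → 1 - 2 * δ < ‖p w‖ := by
  obtain ⟨hd, hm, hi, h0⟩ := hp
  have hK : IsCompact (closedBall (0 : ℂ) (1 - 2 * δ)) := isCompact_closedBall _ _
  have hana : AnalyticOnNhd ℂ p (ball 0 1) := hd.analyticOnNhd isOpen_ball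
  have hopen : ∀ s ⊆ ball (0 : ℂ) 1, IsOpen s → IsOpen (p '' s) := by
    rcases hana.is_constant_or_isOpen (convex_ball _ _).isPreconnected with ⟨w, hw⟩ | h
    · exfalso
      have e1 := hw 0 (by simp)
      have e2 := hw (1 / 2) (by rw [mem_ball_zero_iff]; norm_num)
      have := hi (by simp : (0 : ℂ) ∈ ball (0 : ℂ) 1)
        (by rw [mem_ball_zero_iff]; norm_num : (1 / 2 : ℂ) ∈ ball (0 : ℂ) 1) (e1.trans e2.symm)
      norm_num at this
    · exact h
  obtain ⟨i, hi2⟩ := hK.elim_directed_cover (fun i : Set.Iio (1 : ℝ) => p '' ball 0 i.1)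
    (fun i => hopen _ (ball_subset_ball (le_of_lt i.2)) isOpen_ball)
    (by
      intro y hy
      have hy2 : y ∈ ball (0 : ℂ) (1 - δ) := by
        rw [mem_closedBall_zero_iff] at hy
        rw [mem_ball_zero_iff]
        linarith
      obtain ⟨w, hw, rfl⟩ := hsub hy2
      rw [mem_iUnion]
      rw [mem_ball_zero_iff] at hw
      obtain ⟨c, hc1, hc2⟩ := exists_between hw
      exact ⟨⟨c, hc2⟩, w, by rw [mem_ball_zero_iff]; exact hc1, rfl⟩)
    (by
      intro i j
      rcases le_total i.1 j.1 with h | h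
      · exact ⟨j, image_mono (ball_subset_ball h), subset_rfl⟩
      · exact ⟨i, subset_rfl, image_mono (ball_subset_ball h)⟩)
  refine ⟨i.1, i.2, fun w hw hr => ?_⟩
  by_contra hcon
  push Not at hcon
  have h1 : p w ∈ closedBall (0 : ℂ) (1 - 2 * δ) := by
    rw [mem_closedBall_zero_iff]; exact hcon
  obtain ⟨w', hw', he⟩ := hi2 h1
  have h2 : w' = w := hi (ball_subset_ball (le_of_lt i.2) hw') hw he
  subst h2
  rw [mem_ball_zero_iff] at hw'
  linarith

theorem cm_log {z v a : ℂ} (hz : z ≠ 0) (hv : v ≠ 0) (h : z = v * exp a) :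
    a.re = Real.log ‖z‖ - Real.log ‖v‖ := by
  have h1 : ‖z‖ = ‖v‖ * Real.exp a.re := by
    rw [h, norm_mul, Complex.norm_exp]
  rw [h1, Real.log_mul (norm_ne_zero_iff.mpr hv) (Real.exp_ne_zero _), Real.log_exp]
  ring

theorem t_CM (hGR : S_GR) (hUD : S_UD) : S_CM := by
  intro δ u p φ k P Φ hδ hδ4 hu hp hφ hk hsub huk hBD hP hPe hΦ hΦe z hz
  set κ : ℝ := √‖deriv u 0‖ * (1 + δ) with hκ
  have hκ0 : 0 ≤ κ := by positivity
  obtain ⟨r0, hr0, hr0'⟩ := cm_cover hp hδ hsub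
  -- the key claim
  have claim : ∀ ε > 0, ∃ s < 1, ∀ z : ℂ, s < ‖z‖ → ‖z‖ < 1 →
      (Φ z).re ≤ κ * (P (k z)).re + ε := by
    intro ε hε
    set r : ℝ := max r0 (Real.exp (-(ε / (κ + 1)))) with hr
    have hκ1 : 0 < κ + 1 := by linarith
    have hexp : Real.exp (-(ε / (κ + 1))) < 1 := by
      rw [Real.exp_lt_one_iff]
      have : 0 < ε / (κ + 1) := div_pos hε hκ1
      linarith
    have hr1 : r < 1 := max_lt hr0 hexp
    have he1 : Real.exp (-ε) < 1 := by
      rw [Real.exp_lt_one_iff]; linarith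
    obtain ⟨s, hs, hs2⟩ := hBD r hr1 (1 - Real.exp (-ε)) (by linarith)
    refine ⟨max s 0, max_lt hs one_pos, fun z hz1 hz2 => ?_⟩
    have hzs : s < ‖z‖ := lt_of_le_of_lt (le_max_left _ _) hz1
    have hz0' : 0 < ‖z‖ := lt_of_le_of_lt (le_max_right _ _) hz1
    have hz0 : z ≠ 0 := norm_pos_iff.mp hz0'
    have hzb : z ∈ ball (0 : ℂ) 1 := by rw [mem_ball_zero_iff]; exact hz2
    have hφz : φ z ≠ 0 := fun h => hz0 ((hUD φ hφ).2.2.2 z hzb h)
    have hkz : k z ≠ 0 := fun h => hz0 ((hUD k hk).2.2.2 z hzb h)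
    have hkb : k z ∈ ball (0 : ℂ) 1 := hk.2.1 hzb
    have hφb : φ z ∈ ball (0 : ℂ) 1 := hφ.2.1 hzb
    have hpk : p (k z) ≠ 0 := fun h => hkz ((hUD p hp).2.2.2 _ hkb h)
    have hΦr := cm_log hz0 hφz (hΦe z hzb)
    have hPr := cm_log hkz hpk (hPe _ hkb)
    have hkn : 0 < ‖k z‖ := norm_pos_iff.mpr hkz
    have hpn : 0 < ‖p (k z)‖ := norm_pos_iff.mpr hpk
    have hφn : 0 < ‖φ z‖ := norm_pos_iff.mpr hφz
    have hPnn : 0 ≤ (P (k z)).re := by
      rw [hPr]
      have := (hUD p hp).2.2.1 _ hkb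
      have := Real.log_le_log hpn this
      linarith
    have hlz : Real.log ‖z‖ ≤ 0 := Real.log_nonpos (norm_nonneg _) hz2.le
    by_cases hx : Real.exp (-ε) ≤ ‖φ z‖
    · have h1 : -ε ≤ Real.log ‖φ z‖ := by
        rw [Real.le_log_iff_exp_le hφn]; exact hx
      have h2 : 0 ≤ κ * (P (k z)).re := mul_nonneg hκ0 hPnn
      rw [hΦr]
      linarith
    · push Not at hx
      have hkr : r < ‖k z‖ := by
        by_contra hcon
        push Not at hcon
        have := hs2 z hzs hz2 hcon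
        linarith
      have hy := hr0' _ hkb (le_trans (le_max_left _ _) hkr.le)
      have hG := hGR u hu (φ z) hφb
      rw [huk z hzb] at hG
      have hy1 : ‖p (k z)‖ < 1 := by
        have := hp.2.1 hkb
        rwa [mem_ball_zero_iff] at this
      have hx1 : ‖φ z‖ < 1 := by rwa [mem_ball_zero_iff] at hφb
      have hI := cm_ineq (norm_nonneg (deriv u 0)) hδ hδ4 hφn hx1 hy hy1 hG
      rw [← hκ] at hI
      have hlr : -(ε / (κ + 1)) ≤ Real.log ‖k z‖ := by
        rw [Real.le_log_iff_exp_le hkn]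
        exact le_trans (le_max_right _ _) hkr.le
      have hfin : κ * (- Real.log ‖k z‖) ≤ ε := by
        have h1 : κ * (- Real.log ‖k z‖) ≤ κ * (ε / (κ + 1)) :=
          mul_le_mul_of_nonneg_left (by linarith) hκ0
        have h2 : κ * (ε / (κ + 1)) ≤ ε := by
          rw [← mul_div_assoc, div_le_iff₀ hκ1]
          nlinarith
        linarith
      have h3 : - Real.log ‖p (k z)‖ = (P (k z)).re - Real.log ‖k z‖ := by
        rw [hPr]; ring
      rw [h3] at hI
      rw [hΦr]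
      nlinarith
  -- the maximum principle
  apply le_of_forall_pos_le_add
  intro ε hε
  obtain ⟨s, hs, hs2⟩ := claim ε hε
  rw [mem_ball_zero_iff] at hz
  obtain ⟨t, ht1, ht2⟩ := exists_between (max_lt hs hz)
  have hts : s < t := lt_of_le_of_lt (le_max_left _ _) ht1
  have htz : ‖z‖ < t := lt_of_le_of_lt (le_max_right _ _) ht1
  have ht0 : 0 < t := lt_of_le_of_lt (norm_nonneg _) htz
  set F : ℂ → ℂ := fun w => exp (Φ w - κ * P (k w)) with hF
  have hPk : DifferentiableOn ℂ (fun w => P (k w)) (ball 0 1) :=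
    hP.comp hk.1 hk.2.1
  have hFd : DifferentiableOn ℂ F (ball 0 1) := by
    apply DifferentiableOn.cexp
    exact hΦ.sub (hPk.const_mul _)
  have hFdc : DiffContOnCl ℂ F (ball 0 t) := by
    apply DifferentiableOn.diffContOnCl
    rw [closure_ball _ ht0.ne']
    exact hFd.mono (closedBall_subset_ball ht2)
  have hnorm : ∀ w, ‖F w‖ = Real.exp ((Φ w).re - κ * (P (k w)).re) := by
    intro w
    rw [hF]
    simp only [Complex.norm_exp, sub_re, re_ofReal_mul]
  have hfr : ∀ w ∈ frontier (ball (0 : ℂ) t), ‖F w‖ ≤ Real.exp ε := by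
    intro w hw
    rw [frontier_ball _ ht0.ne', mem_sphere_zero_iff_norm] at hw
    rw [hnorm, Real.exp_le_exp]
    have := hs2 w (by rw [hw]; exact hts) (by rw [hw]; exact ht2)
    linarith
  have hmax := Complex.norm_le_of_forall_mem_frontier_norm_le isBounded_ball hFdc hfr
    (z := z) (by rw [closure_ball _ ht0.ne', mem_closedBall_zero_iff]; exact htz.le)
  rw [hnorm, Real.exp_le_exp] at hmax
  linarith

end HD243
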