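import Pool.Agent.R243.HD.Defs

open Set Filter Topology Complex Metric

noncomputable section

namespace HD243

theorem co_ineq {r σ x δ : ℝ} (hr : 0 < r) (hr1 : r ≤ 1) (hσ : 0 ≤ σ) (hδ : 0 < δ)
    (hδ1 : 4 * δ ≤ 1) (hx : x ≤ r * (1 + 4 * δ) * σ) :
    Real.exp x / r - Real.exp σ ≤ 1 / r - 1 + 4 * δ * σ * Real.exp (2 * σ) := by
  have h1 : Real.exp (r * σ) ≤ r * Real.exp σ + (1 - r) := by
    have := convexOn_exp.2 (mem_univ σ) (mem_univ (0 : ℝ)) hr.le (by linarith : (0 : ℝ) ≤ 1 - r)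
      (by ring)
    simpa using this
  set v : ℝ := 4 * δ * (r * σ) with hv
  have hrσ : 0 ≤ r * σ := by positivity
  have hv0 : 0 ≤ v := by positivity
  have h2 : Real.exp v - 1 ≤ v * Real.exp v := by
    have h3 := Real.add_one_le_exp (-v)
    have h4 : Real.exp (-v) * Real.exp v = 1 := by rw [← Real.exp_add]; simp
    nlinarith [Real.exp_pos v]
  have h5 : Real.exp x ≤ Real.exp (r * σ) * Real.exp v := by
    rw [← Real.exp_add]
    apply Real.exp_le_exp.2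
    rw [hv]; linarith
  have h6 : Real.exp (r * σ) * Real.exp v ≤ Real.exp (2 * σ) := by
    rw [← Real.exp_add]
    apply Real.exp_le_exp.2
    have : v ≤ r * σ := by rw [hv]; nlinarith
    have : r * σ ≤ σ := by nlinarith
    linarith
  have h7 : Real.exp x ≤ Real.exp (r * σ) + r * (4 * δ * σ * Real.exp (2 * σ)) := by
    have e1 : Real.exp (r * σ) * Real.exp v
        ≤ Real.exp (r * σ) + v * (Real.exp (r * σ) * Real.exp v) := by
      nlinarith [Real.exp_pos (r * σ)]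
    have e2 : v * (Real.exp (r * σ) * Real.exp v) ≤ v * Real.exp (2 * σ) :=
      mul_le_mul_of_nonneg_left h6 hv0
    have e3 : v * Real.exp (2 * σ) = r * (4 * δ * σ * Real.exp (2 * σ)) := by rw [hv]; ring
    linarith
  have h8 : Real.exp x / r ≤ Real.exp σ + (1 - r) / r + 4 * δ * σ * Real.exp (2 * σ) := by
    rw [div_le_iff₀ hr]
    have : (Real.exp σ + (1 - r) / r + 4 * δ * σ * Real.exp (2 * σ)) * r
        = r * Real.exp σ + (1 - r) + r * (4 * δ * σ * Real.exp (2 * σ)) := by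
      field_simp
    rw [this]; linarith
  have h9 : (1 - r) / r = 1 / r - 1 := by field_simp
  linarith

theorem co_ineq2 {σ T δ : ℝ} (hσ : 0 ≤ σ) (hT : 0 ≤ T) (hδ : 0 < δ) :
    4 * δ * σ * Real.exp (2 * σ) + Real.exp σ * (4 * δ * T * Real.exp (2 * T))
      ≤ 4 * δ * (σ + T) * Real.exp (2 * (σ + T)) := by
  have h1 : Real.exp (2 * σ) ≤ Real.exp (2 * (σ + T)) := Real.exp_le_exp.2 (by linarith)
  have h2 : Real.exp σ * Real.exp (2 * T) ≤ Real.exp (2 * (σ + T)) := by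
    rw [← Real.exp_add]; exact Real.exp_le_exp.2 (by linarith)
  have e1 : 4 * δ * σ * Real.exp (2 * σ) ≤ 4 * δ * σ * Real.exp (2 * (σ + T)) :=
    mul_le_mul_of_nonneg_left h1 (by positivity)
  have e2 : 4 * δ * T * (Real.exp σ * Real.exp (2 * T)) ≤ 4 * δ * T * Real.exp (2 * (σ + T)) :=
    mul_le_mul_of_nonneg_left h2 (by positivity)
  nlinarith

theorem ball_nhds : ball (0 : ℂ) 1 ∈ 𝓝 (0 : ℂ) := ball_mem_nhds _ one_pos

/-- chain rule for `f = a ∘ b` on the disc, `b 0 = 0` -/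
theorem chain0 {f a b : ℂ → ℂ} (ha : DifferentiableOn ℂ a (ball 0 1))
    (hb : DifferentiableOn ℂ b (ball 0 1)) (hb0 : b 0 = 0)
    (h : ∀ z ∈ ball (0 : ℂ) 1, f z = a (b z)) : deriv f 0 = deriv a 0 * deriv b 0 := by
  have h1 : f =ᶠ[𝓝 0] fun z => a (b z) := by
    filter_upwards [ball_nhds] with z hz using h z hz
  rw [h1.deriv_eq]
  have hA : DifferentiableAt ℂ a (b 0) := by rw [hb0]; exact ha.differentiableAt ball_nhds
  have hB : DifferentiableAt ℂ b 0 := hb.differentiableAt ball_nhds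
  have := deriv_comp (0 : ℂ) hA hB
  rw [hb0] at this
  exact this

/-- the claim of the induction -/
def Cl (δ : ℝ) (g : ℂ → ℂ) : Prop := ∀ u, Un u → ∃ h : ℂ → ℂ,
  DifferentiableOn ℂ h (ball 0 1) ∧ MapsTo h (ball 0 1) (u '' ball 0 1 ∩ g '' ball 0 1) ∧
  h 0 = 0 ∧ deriv h 0 ≠ 0 ∧
  1 / ‖deriv h 0‖ ≤ 1 / ‖deriv u 0‖ + 1 / ‖deriv g 0‖ - 1
    + 4 * δ * (- Real.log ‖deriv g 0‖) * Real.exp (2 * (- Real.log ‖deriv g 0‖))

theorem un_id : Un (fun z => z) :=
  ⟨differentiableOn_id, fun z hz => hz, fun z _ w _ h => h, rfl⟩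

theorem cl_id (hUD : S_UD) (δ : ℝ) : Cl δ (fun z => z) := by
  intro u hu
  refine ⟨u, hu.1, ?_, hu.2.2.2, (hUD u hu).1, ?_⟩
  · intro z hz
    exact ⟨⟨z, hz, rfl⟩, ⟨u z, hu.2.1 hz, rfl⟩⟩
  · simp

theorem cl_step (hST : S_ST) (hUD : S_UD) {δ : ℝ} (hδ : 0 < δ) (hδ1 : δ ≤ 1 / 4)
    {g p g' : ℂ → ℂ} (hp : Un p) (hg' : Un g')
    (hball : ball 0 (1 - δ) ⊆ p '' ball 0 1) (hg : ∀ z ∈ ball (0 : ℂ) 1, g z = p (g' z))
    (hcl : Cl δ g') : Cl δ g := by
  intro u hu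
  obtain ⟨φ, k, hφ, hk, huk, hx⟩ := hST δ u p hδ hδ1 hu hp hball
  obtain ⟨h', hh1, hh2, hh3, hh4, hh5⟩ := hcl k hk
  have hmap : MapsTo h' (ball 0 1) (ball 0 1) := by
    intro z hz
    obtain ⟨w, hw, hw2⟩ := (hh2 hz).1
    rw [← hw2]; exact hk.2.1 hw
  have hd : DifferentiableOn ℂ (fun z => p (h' z)) (ball 0 1) := hp.1.comp hh1 hmap
  have hdp : deriv (fun z => p (h' z)) 0 = deriv p 0 * deriv h' 0 :=
    chain0 hp.1 hh1 hh3 (fun z _ => rfl)
  have hdg : deriv g 0 = deriv p 0 * deriv g' 0 := chain0 hp.1 hg'.1 hg'.2.2.2 hg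
  have hdk : deriv u 0 * deriv φ 0 = deriv p 0 * deriv k 0 := by
    rw [← chain0 (f := fun z => u (φ z)) hu.1 hφ.1 hφ.2.2.2 (fun z _ => rfl),
      chain0 (f := fun z => u (φ z)) hp.1 hk.1 hk.2.2.2 huk]
  obtain ⟨p1, p2, -, -⟩ := hUD p hp
  obtain ⟨g1, g2, -, -⟩ := hUD g' hg'
  obtain ⟨u1, u2, -, -⟩ := hUD u hu
  obtain ⟨f1, f2, -, -⟩ := hUD φ hφ
  obtain ⟨k1, k2, -, -⟩ := hUD k hk
  refine ⟨fun z => p (h' z), hd, ?_, ?_, ?_, ?_⟩
  · intro z hz
    obtain ⟨⟨w, hw, hw2⟩, ⟨w', hw', hw2'⟩⟩ := hh2 hz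
    constructor
    · refine ⟨φ w, hφ.2.1 hw, ?_⟩
      show u (φ w) = p (h' z)
      rw [huk w hw, hw2]
    · refine ⟨w', hw', ?_⟩
      show g w' = p (h' z)
      rw [hg w' hw', hw2']
  · show p (h' 0) = 0
    rw [hh3, hp.2.2.2]
  · rw [hdp]; exact mul_ne_zero p1 hh4
  · rw [hdp, hdg, norm_mul, norm_mul]
    set P := ‖deriv p 0‖ with hP
    set H := ‖deriv h' 0‖ with hH
    set G := ‖deriv g' 0‖ with hG
    set r := ‖deriv u 0‖ with hr
    set F := ‖deriv φ 0‖ with hF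
    set K := ‖deriv k 0‖ with hK
    have hP0 : 0 < P := norm_pos_iff.2 p1
    have hH0 : 0 < H := norm_pos_iff.2 hh4
    have hG0 : 0 < G := norm_pos_iff.2 g1
    have hr0 : 0 < r := norm_pos_iff.2 u1
    have hF0 : 0 < F := norm_pos_iff.2 f1
    have hK0 : 0 < K := norm_pos_iff.2 k1
    have hrel : r * F = P * K := by
      rw [hr, hF, hP, hK, ← norm_mul, ← norm_mul, hdk]
    set σ := - Real.log P with hσ
    set T := - Real.log G with hT
    have hσ0 : 0 ≤ σ := by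
      have := Real.log_nonpos hP0.le p2
      rw [hσ]; linarith
    have hT0 : 0 ≤ T := by
      have := Real.log_nonpos hG0.le g2
      rw [hT]; linarith
    have hexpσ : Real.exp σ = 1 / P := by
      rw [hσ, Real.exp_neg, Real.exp_log hP0, one_div]
    have hexpx : Real.exp (- Real.log F) = 1 / F := by
      rw [Real.exp_neg, Real.exp_log hF0, one_div]
    have key := co_ineq (x := - Real.log F) hr0 u2 hσ0 hδ (by linarith) hx
    have key2 := co_ineq2 hσ0 hT0 hδ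
    rw [hexpx, hexpσ] at key
    rw [hexpσ] at key2
    have hlog : - Real.log (P * G) = σ + T := by
      rw [Real.log_mul hP0.ne' hG0.ne', hσ, hT]; ring
    rw [hlog]
    have hmul : 1 / (P * H) ≤ (1 / P) * (1 / K + 1 / G - 1 + 4 * δ * T * Real.exp (2 * T)) := by
      have : 1 / (P * H) = (1 / P) * (1 / H) := by field_simp
      rw [this]
      exact mul_le_mul_of_nonneg_left hh5 (by positivity)
    have hK' : (1 / P) * (1 / K) = 1 / F / r := by
      rw [div_div, mul_comm F r, hrel]; field_simp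
    have hG' : (1 / P) * (1 / G) = 1 / (P * G) := by field_simp
    have hexp2 : (1 / P) * (1 / K + 1 / G - 1 + 4 * δ * T * Real.exp (2 * T))
        = 1 / F / r + 1 / (P * G) - 1 / P + (1 / P) * (4 * δ * T * Real.exp (2 * T)) := by
      rw [← hK', ← hG']; ring
    rw [hexp2] at hmul
    linarith

theorem cl_all (hST : S_ST) (hCH : S_CH) (hOM : S_OM) (hLF : S_LF) (hUD : S_UD) {δ : ℝ}
    (hδ : 0 < δ) (hδ1 : δ ≤ 1 / 4) (c : ℝ) (hc0 : 0 < c)
    (hc : ∀ P : ℝ, 0 < P → P * (1 + (1 - δ)) ≤ 2 * √(1 - δ) → c ≤ - Real.log P) :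
    ∀ n : ℕ, ∀ g, Un g → - Real.log ‖deriv g 0‖ ≤ n * c → Cl δ g := by
  have hnot : ∀ g, Un g → ¬ (ball 0 (1 - δ) ⊆ g '' ball 0 1) → ∃ p g', Un p ∧ Un g' ∧
      ball 0 (1 - δ) ⊆ p '' ball 0 1 ∧ (∀ z ∈ ball (0 : ℂ) 1, g z = p (g' z)) ∧
      - Real.log ‖deriv g' 0‖ ≤ - Real.log ‖deriv g 0‖ - c := by
    intro g hg hb
    obtain ⟨p, a, hp, hp1, hp2, ha1, ha2⟩ := hCH δ g hδ (by linarith) hg hb
    obtain ⟨g', hg1, hg2, hg3⟩ := hLF p g hp hg.1 (fun z hz => hp2 ⟨z, hz, rfl⟩)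
    have h0 : (0 : ℂ) ∈ ball (0 : ℂ) 1 := mem_ball_self one_pos
    have hg'0 : g' 0 = 0 := by
      apply hp.2.2.1 (hg2 h0) h0
      rw [hg3 0 h0, hg.2.2.2, hp.2.2.2]
    have hg' : Un g' := by
      refine ⟨hg1, hg2, ?_, hg'0⟩
      intro z hz w hw hzw
      apply hg.2.2.1 hz hw
      rw [← hg3 z hz, ← hg3 w hw, hzw]
    refine ⟨p, g', hp, hg', hp1, fun z hz => (hg3 z hz).symm, ?_⟩
    have hd : deriv g 0 = deriv p 0 * deriv g' 0 :=
      chain0 hp.1 hg1 hg'0 (fun z hz => (hg3 z hz).symm)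
    have hP0 : 0 < ‖deriv p 0‖ := norm_pos_iff.2 (hUD p hp).1
    have hG0 : 0 < ‖deriv g' 0‖ := norm_pos_iff.2 (hUD g' hg').1
    have ham : a ∈ ball (0 : ℂ) 1 := by rw [mem_ball_zero_iff, ha1]; linarith
    have hom := hOM p a hp ham ha2
    rw [ha1] at hom
    have := hc _ hP0 hom
    rw [hd, norm_mul, Real.log_mul hP0.ne' hG0.ne']
    linarith
  intro n
  induction n with
  | zero =>
    intro g hg hT
    by_cases hb : ball 0 (1 - δ) ⊆ g '' ball 0 1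
    · exact cl_step hST hUD hδ hδ1 hg un_id hb (fun z _ => rfl) (cl_id hUD δ)
    · exfalso
      obtain ⟨p, g', hp, hg', -, -, h⟩ := hnot g hg hb
      have h2 := Real.log_nonpos (norm_nonneg _) (hUD g' hg').2.1
      simp only [Nat.cast_zero, zero_mul] at hT
      linarith
  | succ n ih =>
    intro g hg hT
    by_cases hb : ball 0 (1 - δ) ⊆ g '' ball 0 1
    · exact cl_step hST hUD hδ hδ1 hg un_id hb (fun z _ => rfl) (cl_id hUD δ)
    · obtain ⟨p, g', hp, hg', hpb, hgp, h⟩ := hnot g hg hb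
      refine cl_step hST hUD hδ hδ1 hp hg' hpb hgp (ih g' hg' ?_)
      push_cast at hT
      linarith

theorem t_CO (hST : S_ST) (hCH : S_CH) (hOM : S_OM) (hLF : S_LF) (hUD : S_UD) : S_CO := by
  intro u g ε hu hg hε
  set T := - Real.log ‖deriv g 0‖ with hT
  have hT0 : 0 ≤ T := by
    have := Real.log_nonpos (norm_nonneg _) (hUD g hg).2.1
    rw [hT]; linarith
  set A : ℝ := 4 * T * Real.exp (2 * T) + 1 with hA
  have hA0 : 0 < A := by positivity
  set δ : ℝ := min (1 / 4) (ε / A) with hδdef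
  have hδ : 0 < δ := lt_min (by norm_num) (by positivity)
  have hδ1 : δ ≤ 1 / 4 := min_le_left _ _
  have hδ2 : δ ≤ ε / A := min_le_right _ _
  have hsq : 0 < √(1 - δ) := Real.sqrt_pos.2 (by linarith)
  have hsq2 : √(1 - δ) ^ 2 = 1 - δ := Real.sq_sqrt (by linarith)
  have hlt : 2 * √(1 - δ) < 2 - δ := by
    nlinarith
  set c : ℝ := - Real.log (2 * √(1 - δ) / (2 - δ)) with hc
  have hc0 : 0 < c := by
    have : Real.log (2 * √(1 - δ) / (2 - δ)) < 0 := by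
      apply Real.log_neg
      · apply div_pos (by positivity) (by linarith)
      · rw [div_lt_one (by linarith)]; exact hlt
    rw [hc]; linarith
  have hcP : ∀ P : ℝ, 0 < P → P * (1 + (1 - δ)) ≤ 2 * √(1 - δ) → c ≤ - Real.log P := by
    intro P hP h
    have : Real.log P ≤ Real.log (2 * √(1 - δ) / (2 - δ)) := by
      apply Real.log_le_log hP
      rw [le_div_iff₀ (by linarith)]
      linarith
    rw [hc]; linarith
  obtain ⟨n, hn⟩ := exists_nat_ge (T / c)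
  have hn2 : T ≤ n * c := by
    rw [div_le_iff₀ hc0] at hn; exact hn
  obtain ⟨h, h1, h2, h3, h4, h5⟩ := cl_all hST hCH hOM hLF hUD hδ hδ1 c hc0 hcP n g hg hn2 u hu
  refine ⟨h, h1, h2, h3, h4, h5.trans ?_⟩
  have : 4 * δ * T * Real.exp (2 * T) ≤ ε := by
    have e1 : 4 * δ * T * Real.exp (2 * T) = δ * (4 * T * Real.exp (2 * T)) := by ring
    rw [e1]
    have e2 : δ * (4 * T * Real.exp (2 * T)) ≤ δ * A :=
      mul_le_mul_of_nonneg_left (by rw [hA]; linarith) hδ.le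
    have e3 : δ * A ≤ ε := by
      rw [le_div_iff₀ hA0] at hδ2; exact hδ2
    linarith
  linarith

end HD243
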