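import Pool.Agent.R243.HD.Defs
import Pool.Agent.Helper240.ZFM.B1
import Pool.Agent.Helper240.ZFM.Riem

/-!
# HD-GR: the growth theorem (helper308)
-/

set_option autoImplicit false

open Set Filter Topology Complex Metric

noncomputable section

namespace HD243

namespace GR308

open Pool.Agent.Helper405.Riemann (bl bl_den_ne bl_norm_lt bl_hasDerivAt bl_inj bl_zero)

/-- the inequality for the second derivative -/
theorem koebe {F : ℂ → ℂ} (hd : DifferentiableOn ℂ F (ball 0 1)) (hi : InjOn F (ball 0 1))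
    {z : ℂ} (hz : z ∈ ball (0 : ℂ) 1) :
    ‖((1 - ‖z‖ ^ 2 : ℝ) : ℂ) * deriv (deriv F) z - 2 * (starRingEnd ℂ) z * deriv F z‖ ≤
      4 * ‖deriv F z‖ := by
  have hz1 : ‖z‖ < 1 := by simpa using hz
  have hzn : ‖-z‖ < 1 := by rwa [norm_neg]
  have hs0 : 0 < 1 - ‖z‖ ^ 2 := by nlinarith [norm_nonneg z]
  have hs : (1 : ℂ) - (starRingEnd ℂ) (-z) * (-z) = ((1 - ‖z‖ ^ 2 : ℝ) : ℂ) := by
    rw [map_neg, neg_mul_neg, Complex.conj_mul']
    push_cast
    rfl
  obtain ⟨s, hsdef⟩ : ∃ s : ℝ, s = 1 - ‖z‖ ^ 2 := ⟨_, rfl⟩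
  rw [← hsdef] at hs hs0 ⊢
  have hmem : ∀ ζ ∈ ball (0 : ℂ) 1, bl (-z) ζ ∈ ball (0 : ℂ) 1 := by
    intro ζ hζ
    have h1 : ‖ζ‖ < 1 := by simpa using hζ
    simpa using bl_norm_lt hzn h1
  have hF : ∀ ζ ∈ ball (0 : ℂ) 1, HasDerivAt F (deriv F ζ) ζ := fun ζ hζ =>
    (hd.differentiableAt (isOpen_ball.mem_nhds hζ)).hasDerivAt
  have hF2 : HasDerivAt (deriv F) (deriv (deriv F) z) z :=
    ((hd.deriv isOpen_ball).differentiableAt (isOpen_ball.mem_nhds hz)).hasDerivAt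
  obtain ⟨G, hG⟩ : ∃ G : ℂ → ℂ, G = fun ζ => F (bl (-z) ζ) := ⟨_, rfl⟩
  have hG1 : ∀ ζ ∈ ball (0 : ℂ) 1, HasDerivAt G
      (deriv F (bl (-z) ζ) * ((s : ℂ) / (1 - (starRingEnd ℂ) (-z) * ζ) ^ 2)) ζ := by
    intro ζ hζ
    have h1 : ‖ζ‖ < 1 := by simpa using hζ
    have h2 := (hF _ (hmem ζ hζ)).comp ζ (bl_hasDerivAt hzn h1)
    rw [hs] at h2
    rw [hG]
    exact h2
  have hb0 : bl (-z) 0 = z := by rw [bl_zero, neg_neg]
  have h0 : (0 : ℂ) ∈ ball (0 : ℂ) 1 := mem_ball_self one_pos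
  have hGd : DifferentiableOn ℂ G (ball 0 1) := fun ζ hζ =>
    (hG1 ζ hζ).differentiableAt.differentiableWithinAt
  have hGi : InjOn G (ball 0 1) := by
    intro ζ hζ ξ hξ h
    rw [hG] at h
    have h1 : ‖ζ‖ < 1 := by simpa using hζ
    have h2 : ‖ξ‖ < 1 := by simpa using hξ
    exact bl_inj hzn h1 h2 (hi (hmem ζ hζ) (hmem ξ hξ) h)
  have hd1 : deriv G 0 = deriv F z * s := by
    rw [(hG1 0 h0).deriv, hb0]
    simp
  have hd2 : deriv (deriv G) 0 = s * (s * deriv (deriv F) z - 2 * (starRingEnd ℂ) z * deriv F z) := by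
    have hev : deriv G =ᶠ[𝓝 0] fun ζ =>
        deriv F (bl (-z) ζ) * ((s : ℂ) / (1 - (starRingEnd ℂ) (-z) * ζ) ^ 2) := by
      filter_upwards [isOpen_ball.mem_nhds h0] with ζ hζ using (hG1 ζ hζ).deriv
    rw [hev.deriv_eq]
    have a1 : HasDerivAt (fun ζ => deriv F (bl (-z) ζ)) (deriv (deriv F) z * s) 0 := by
      have h2 := bl_hasDerivAt hzn (show ‖(0 : ℂ)‖ < 1 by simp)
      rw [hs] at h2
      have h3 : HasDerivAt (deriv F) (deriv (deriv F) z) (bl (-z) 0) := by rw [hb0]; exact hF2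
      have h4 := h3.comp 0 h2
      refine h4.congr_deriv ?_
      simp
    have a2 : HasDerivAt (fun ζ : ℂ => (s : ℂ) / (1 - (starRingEnd ℂ) (-z) * ζ) ^ 2)
        (-2 * (starRingEnd ℂ) z * s) 0 := by
      have h2 : HasDerivAt (fun ζ : ℂ => 1 - (starRingEnd ℂ) (-z) * ζ) (-(starRingEnd ℂ) (-z)) 0 := by
        simpa using ((hasDerivAt_id (0 : ℂ)).const_mul ((starRingEnd ℂ) (-z))).const_sub 1
      have h3 := (hasDerivAt_const (0 : ℂ) (s : ℂ)).fun_div (h2.fun_pow 2) (by simp)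
      refine h3.congr_deriv ?_
      simp
      ring
    have a3 := a1.fun_mul a2
    rw [a3.deriv, hb0]
    simp
    ring
  have hb := ZFM.J_b1.bieb hGd hGi
  rw [hd1, hd2, norm_mul, norm_mul, Complex.norm_real, Real.norm_of_nonneg hs0.le] at hb
  have h5 : s * ‖(s : ℂ) * deriv (deriv F) z - 2 * (starRingEnd ℂ) z * deriv F z‖ ≤
      s * (4 * ‖deriv F z‖) := by linarith
  exact le_of_mul_le_mul_left h5 hs0

/-- the distortion theorem -/
theorem distortion {F : ℂ → ℂ} (hd : DifferentiableOn ℂ F (ball 0 1)) (hi : InjOn F (ball 0 1))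
    {e : ℂ} (he : ‖e‖ = 1) {ρ : ℝ} (hρ0 : 0 ≤ ρ) (hρ1 : ρ < 1) :
    ‖deriv F (ρ * e)‖ * (1 - ρ) ^ 3 ≤ ‖deriv F 0‖ * (1 + ρ) := by
  have hmem : ∀ r : ℝ, 0 ≤ r → r < 1 → (r : ℂ) * e ∈ ball (0 : ℂ) 1 := by
    intro r h0 h1
    rw [mem_ball_zero_iff, norm_mul, he, mul_one, Complex.norm_real, Real.norm_of_nonneg h0]
    exact h1
  have hφ : ∀ r : ℝ, 0 ≤ r → r < 1 → HasDerivAt (fun r : ℝ => deriv F (r * e))
      (deriv (deriv F) (r * e) * e) r := by
    intro r h0 h1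
    have h2 : HasDerivAt (deriv F) (deriv (deriv F) (r * e)) ((r : ℂ) * e) :=
      ((hd.deriv isOpen_ball).differentiableAt (isOpen_ball.mem_nhds (hmem r h0 h1))).hasDerivAt
    have h3 : HasDerivAt (fun r : ℝ => (r : ℂ) * e) e r := by
      simpa using (Complex.ofRealCLM.hasDerivAt (x := r)).mul_const e
    have h4 := h2.scomp r h3
    refine h4.congr_deriv ?_
    rw [smul_eq_mul, mul_comm]
  obtain ⟨h, hh⟩ : ∃ h : ℝ → ℝ,
      h = fun r : ℝ => ‖deriv F ((r : ℂ) * e)‖ ^ 2 * ((1 - r) ^ 6 / (1 + r) ^ 2) := ⟨_, rfl⟩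
  have hder : ∀ r : ℝ, 0 ≤ r → r < 1 → ∃ D : ℝ, HasDerivAt h D r ∧ D ≤ 0 := by
    intro r h0 h1
    have a1 := (hφ r h0 h1).norm_sq
    have a2 : HasDerivAt (fun r : ℝ => (1 - r) ^ 6 / (1 + r) ^ 2)
        (-((1 - r) ^ 6 / (1 + r) ^ 2) * ((8 + 4 * r) / (1 - r ^ 2))) r := by
      have b1 : HasDerivAt (fun r : ℝ => 1 - r) (-1) r := (hasDerivAt_id r).const_sub 1
      have b2 : HasDerivAt (fun r : ℝ => 1 + r) 1 r := (hasDerivAt_id r).const_add 1
      have b3 := (b1.fun_pow 6).fun_div (b2.fun_pow 2) (by positivity)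
      refine b3.congr_deriv ?_
      have c1 : (1 + r) ≠ 0 := by positivity
      have c2 : (1 - r) ≠ 0 := by linarith
      have c3 : (1 - r ^ 2) ≠ 0 := by
        have : 1 - r ^ 2 = (1 - r) * (1 + r) := by ring
        rw [this]; exact mul_ne_zero c2 c1
      push_cast
      field_simp
      ring
    refine ⟨_, by rw [hh]; exact a1.mul a2, ?_⟩
    have hz := hmem r h0 h1
    have hk := koebe hd hi hz
    have hnz : ‖(r : ℂ) * e‖ = r := by
      rw [norm_mul, he, mul_one, Complex.norm_real, Real.norm_of_nonneg h0]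
    rw [hnz] at hk
    set p1 := deriv F (r * e) with hp1
    set p2 := deriv (deriv F) (r * e) with hp2
    have hr2 : 0 < 1 - r ^ 2 := by nlinarith
    have key : (1 - r ^ 2) * inner ℝ p1 (p2 * e) ≤ (2 * r + 4) * ‖p1‖ ^ 2 := by
      have e1 : (1 - r ^ 2) * inner ℝ p1 (p2 * e) =
          inner ℝ p1 ((((1 - r ^ 2 : ℝ) : ℂ) * p2 - 2 * (starRingEnd ℂ) (r * e) * p1) * e) +
            2 * r * ‖p1‖ ^ 2 := by
        have e2 : (((1 - r ^ 2 : ℝ) : ℂ) * p2 - 2 * (starRingEnd ℂ) (r * e) * p1) * e =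
            (1 - r ^ 2 : ℝ) • (p2 * e) - (2 * r : ℝ) • p1 := by
          have e3 : (starRingEnd ℂ) e * e = 1 := by
            rw [Complex.conj_mul', he]; norm_num
          rw [map_mul, Complex.conj_ofReal, Complex.real_smul, Complex.real_smul]
          push_cast
          linear_combination (-2 * (r : ℂ) * p1) * e3
        rw [e2, inner_sub_right, inner_smul_right, inner_smul_right, real_inner_self_eq_norm_sq]
        ring
      rw [e1]
      have e4 := real_inner_le_norm p1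
        ((((1 - r ^ 2 : ℝ) : ℂ) * p2 - 2 * (starRingEnd ℂ) (r * e) * p1) * e)
      rw [norm_mul _ e, he, mul_one] at e4
      have e5 := mul_le_mul_of_nonneg_left hk (norm_nonneg p1)
      nlinarith [norm_nonneg p1]
    have hq : 0 ≤ (1 - r) ^ 6 / (1 + r) ^ 2 := by
      have : 0 ≤ 1 - r := by linarith
      positivity
    have e6 : inner ℝ p1 (p2 * e) ≤ (2 * r + 4) * ‖p1‖ ^ 2 / (1 - r ^ 2) := by
      rw [le_div_iff₀ hr2]; linarith
    have e7 : 2 * inner ℝ p1 (p2 * e) * ((1 - r) ^ 6 / (1 + r) ^ 2) ≤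
        2 * ((2 * r + 4) * ‖p1‖ ^ 2 / (1 - r ^ 2)) * ((1 - r) ^ 6 / (1 + r) ^ 2) :=
      mul_le_mul_of_nonneg_right (by linarith) hq
    have e8 : 2 * ((2 * r + 4) * ‖p1‖ ^ 2 / (1 - r ^ 2)) * ((1 - r) ^ 6 / (1 + r) ^ 2) =
        ‖p1‖ ^ 2 * ((1 - r) ^ 6 / (1 + r) ^ 2 * ((8 + 4 * r) / (1 - r ^ 2))) := by ring
    rw [e8] at e7
    linarith
  have hanti : AntitoneOn h (Icc 0 ρ) := by
    refine antitoneOn_of_deriv_nonpos (convex_Icc 0 ρ) ?_ ?_ ?_
    · intro r hr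
      obtain ⟨D, hD, _⟩ := hder r hr.1 (lt_of_le_of_lt hr.2 hρ1)
      exact hD.continuousAt.continuousWithinAt
    · intro r hr
      rw [interior_Icc] at hr
      obtain ⟨D, hD, _⟩ := hder r hr.1.le (hr.2.trans hρ1)
      exact hD.differentiableAt.differentiableWithinAt
    · intro r hr
      rw [interior_Icc] at hr
      obtain ⟨D, hD, hD0⟩ := hder r hr.1.le (hr.2.trans hρ1)
      rw [hD.deriv]
      exact hD0
  have hfin := hanti (left_mem_Icc.2 hρ0) (right_mem_Icc.2 hρ0) hρ0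
  rw [hh] at hfin
  simp only [Complex.ofReal_zero, zero_mul, sub_zero, one_pow, add_zero, div_one, mul_one] at hfin
  have h1ρ : 0 < 1 + ρ := by linarith
  have h2ρ : 0 ≤ 1 - ρ := by linarith
  rw [← mul_div_assoc, div_le_iff₀ (by positivity)] at hfin
  have h3 : (‖deriv F (ρ * e)‖ * (1 - ρ) ^ 3) ^ 2 ≤ (‖deriv F 0‖ * (1 + ρ)) ^ 2 := by
    calc (‖deriv F (ρ * e)‖ * (1 - ρ) ^ 3) ^ 2 = ‖deriv F (ρ * e)‖ ^ 2 * (1 - ρ) ^ 6 := by ring
      _ ≤ ‖deriv F 0‖ ^ 2 * (1 + ρ) ^ 2 := hfin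
      _ = (‖deriv F 0‖ * (1 + ρ)) ^ 2 := by ring
  exact (sq_le_sq₀ (by positivity) (by positivity)).1 h3

/-- the growth theorem -/
theorem growth {F : ℂ → ℂ} (hd : DifferentiableOn ℂ F (ball 0 1)) (hi : InjOn F (ball 0 1))
    (h0 : F 0 = 0) {w : ℂ} (hw : w ∈ ball (0 : ℂ) 1) :
    (1 - ‖w‖) ^ 2 * ‖F w‖ ≤ ‖deriv F 0‖ * ‖w‖ := by
  by_cases hw0 : w = 0
  · rw [hw0, h0]
    simp
  have hw1 : ‖w‖ < 1 := by simpa using hw
  have hwp : 0 < ‖w‖ := norm_pos_iff.2 hw0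
  obtain ⟨e, he⟩ : ∃ e : ℂ, e = w / (‖w‖ : ℂ) := ⟨_, rfl⟩
  have hwc : (‖w‖ : ℂ) ≠ 0 := by exact_mod_cast hwp.ne'
  have he1 : ‖e‖ = 1 := by
    rw [he, norm_div, Complex.norm_real, norm_norm, div_self hwp.ne']
  have hwe : w = (‖w‖ : ℂ) * e := by
    rw [he]
    field_simp
  obtain ⟨ρ, hρ⟩ : ∃ ρ : ℝ, ρ = ‖w‖ := ⟨_, rfl⟩
  have hmem : ∀ r : ℝ, 0 ≤ r → r < 1 → (r : ℂ) * e ∈ ball (0 : ℂ) 1 := by
    intro r h0 h1
    rw [mem_ball_zero_iff, norm_mul, he1, mul_one, Complex.norm_real, Real.norm_of_nonneg h0]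
    exact h1
  have hφ : ∀ r : ℝ, 0 ≤ r → r < 1 → HasDerivAt (fun r : ℝ => F (r * e))
      (deriv F (r * e) * e) r := by
    intro r h0 h1
    have h2 : HasDerivAt F (deriv F (r * e)) ((r : ℂ) * e) :=
      (hd.differentiableAt (isOpen_ball.mem_nhds (hmem r h0 h1))).hasDerivAt
    have h3 : HasDerivAt (fun r : ℝ => (r : ℂ) * e) e r := by
      simpa using (Complex.ofRealCLM.hasDerivAt (x := r)).mul_const e
    have h4 := h2.scomp r h3
    refine h4.congr_deriv ?_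
    rw [smul_eq_mul, mul_comm]
  have hB : ∀ r : ℝ, 0 ≤ r → r < 1 → HasDerivAt (fun r : ℝ => ‖deriv F 0‖ * (r / (1 - r) ^ 2))
      (‖deriv F 0‖ * ((1 + r) / (1 - r) ^ 3)) r := by
    intro r h0 h1
    have c2 : (1 - r) ≠ 0 := by linarith
    have b1 : HasDerivAt (fun r : ℝ => 1 - r) (-1) r := (hasDerivAt_id r).const_sub 1
    have b3 := ((hasDerivAt_id r).fun_div (b1.fun_pow 2) (pow_ne_zero 2 c2)).const_mul ‖deriv F 0‖
    refine b3.congr_deriv ?_
    simp only [id]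
    push_cast
    field_simp
    ring
  have key := image_norm_le_of_norm_deriv_right_le_deriv_boundary'
    (f := fun r : ℝ => F (r * e)) (f' := fun r : ℝ => deriv F (r * e) * e) (a := 0) (b := ρ)
    (B := fun r : ℝ => ‖deriv F 0‖ * (r / (1 - r) ^ 2))
    (B' := fun r : ℝ => ‖deriv F 0‖ * ((1 + r) / (1 - r) ^ 3))
    (fun r hr => (hφ r hr.1 (lt_of_le_of_lt hr.2 (hρ ▸ hw1))).continuousAt.continuousWithinAt)
    (fun r hr => (hφ r hr.1 (hr.2.trans (hρ ▸ hw1))).hasDerivWithinAt)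
    (by simp [h0])
    (fun r hr => (hB r hr.1 (lt_of_le_of_lt hr.2 (hρ ▸ hw1))).continuousAt.continuousWithinAt)
    (fun r hr => (hB r hr.1 (hr.2.trans (hρ ▸ hw1))).hasDerivWithinAt)
    (fun r hr => by
      have h1 : r < 1 := hr.2.trans (hρ ▸ hw1)
      have h2 := distortion hd hi he1 hr.1 h1
      have h3 : 0 < 1 - r := by linarith
      rw [norm_mul, he1, mul_one, ← mul_div_assoc, le_div_iff₀ (by positivity)]
      exact h2)
    (right_mem_Icc.2 (hρ ▸ hwp.le))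
  have h3 : 0 < 1 - ‖w‖ := by linarith
  rw [hρ, ← hwe, ← mul_div_assoc, le_div_iff₀ (by positivity)] at key
  linarith

end GR308

open GR308 in
theorem t_GR (_hUD : S_UD) : S_GR := by
  intro u hu w hw
  obtain ⟨hud, hum, hui, hu0⟩ := hu
  by_cases huw : u w = 0
  · rw [huw, norm_zero]
    simp only [mul_zero, sub_zero, one_pow, mul_one]
    positivity
  have hp : 0 < ‖u w‖ := norm_pos_iff.2 huw
  have hu1 : ‖u w‖ < 1 := by simpa using hum hw
  have hpc : (‖u w‖ : ℂ) ≠ 0 := by exact_mod_cast hp.ne'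
  obtain ⟨c, hc⟩ : ∃ c : ℂ, c = (starRingEnd ℂ) (u w) / (‖u w‖ : ℂ) := ⟨_, rfl⟩
  have hc1 : ‖c‖ = 1 := by
    rw [hc, norm_div, Complex.norm_real, norm_norm, RCLike.norm_conj, div_self hp.ne']
  have hcw : c * u w = (‖u w‖ : ℂ) := by
    rw [hc, div_mul_eq_mul_div, Complex.conj_mul', div_eq_iff hpc]
    ring
  have hne : ∀ x ∈ ball (0 : ℂ) 1, 1 - c * u x ≠ 0 := by
    intro x hx h
    have h1 : ‖u x‖ < 1 := by simpa using hum hx
    have h2 : c * u x = 1 := by linear_combination -h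
    have h3 := congrArg norm h2
    rw [norm_mul, hc1, one_mul, norm_one] at h3
    linarith
  have hd : DifferentiableOn ℂ (fun x => u x / (1 - c * u x) ^ 2) (ball 0 1) := by
    refine hud.div (((hud.const_mul c).const_sub 1).pow 2) fun x hx => ?_
    exact pow_ne_zero 2 (hne x hx)
  have hi : InjOn (fun x => u x / (1 - c * u x) ^ 2) (ball 0 1) := by
    intro x hx y hy h
    apply hui hx hy
    simp only at h
    rw [div_eq_div_iff (pow_ne_zero 2 (hne x hx)) (pow_ne_zero 2 (hne y hy))] at h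
    have h1 : (u x - u y) * (1 - c ^ 2 * (u x * u y)) = 0 := by linear_combination h
    rcases mul_eq_zero.1 h1 with h2 | h2
    · exact sub_eq_zero.1 h2
    · exfalso
      have hx1 : ‖u x‖ < 1 := by simpa using hum hx
      have hy1 : ‖u y‖ < 1 := by simpa using hum hy
      have h3 : c ^ 2 * (u x * u y) = 1 := by linear_combination -h2
      have h4 := congrArg norm h3
      rw [norm_mul, norm_pow, hc1, one_pow, one_mul, norm_mul, norm_one] at h4
      nlinarith [norm_nonneg (u x), norm_nonneg (u y)]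
  have h00 : (fun x => u x / (1 - c * u x) ^ 2) 0 = 0 := by
    simp only [hu0, zero_div]
  have hder : deriv (fun x => u x / (1 - c * u x) ^ 2) 0 = deriv u 0 := by
    have h1 : HasDerivAt u (deriv u 0) 0 :=
      (hud.differentiableAt (isOpen_ball.mem_nhds (mem_ball_self one_pos))).hasDerivAt
    have h2 := h1.fun_div (((h1.const_mul c).const_sub 1).fun_pow 2)
      (by rw [hu0]; simp)
    rw [h2.deriv, hu0]
    simp
  have key := growth hd hi h00 hw
  rw [hder] at key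
  have h1 : ‖u w / (1 - c * u w) ^ 2‖ = ‖u w‖ / (1 - ‖u w‖) ^ 2 := by
    rw [norm_div, norm_pow, hcw]
    congr 2
    rw [← Complex.ofReal_one, ← Complex.ofReal_sub, Complex.norm_real, Real.norm_of_nonneg]
    linarith
  rw [h1, ← mul_div_assoc, div_le_iff₀ (by
    have : 0 < 1 - ‖u w‖ := by linarith
    positivity)] at key
  exact key

end HD243
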