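import Pool.Agent.R243.HD.Defs

/-!
# Project HD, piece HM: dilation argument
-/

set_option autoImplicit false

open Set Filter Topology Complex Metric

noncomputable section

namespace HD243

namespace HMx

lemma un_dil {t : ℝ} (h0 : 0 < t) (h1 : t < 1) : Un (fun z : ℂ => (t : ℂ) * z) := by
  refine ⟨?_, ?_, ?_, ?_⟩
  · exact (differentiable_id.const_mul (t : ℂ)).differentiableOn
  · intro z hz
    rw [mem_ball_zero_iff] at hz ⊢
    rw [norm_mul, Complex.norm_real, Real.norm_of_nonneg h0.le]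
    nlinarith [norm_nonneg z]
  · intro x _ y _ hxy
    have ht : (t : ℂ) ≠ 0 := by exact_mod_cast h0.ne'
    exact mul_left_cancel₀ ht hxy
  · show (t : ℂ) * 0 = 0
    ring

end HMx

open HMx in
theorem t_HM (hHS : S_HS) (hVM : S_VM) (hUD : S_UD) : S_HM := by
  intro k P Φ κ hk hP hPn hΦ hκ hle hVN
  have hball : ball (0 : ℂ) 1 ∈ 𝓝 (0 : ℂ) := ball_mem_nhds _ one_pos
  have h0mem : (0 : ℂ) ∈ ball (0 : ℂ) 1 := mem_ball_self one_pos
  have key : ∀ t : ℝ, 0 < t → t < 1 → (Φ 0).re ≤ κ * √(‖deriv k 0‖ / t) * (P 0).re := by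
    intro t ht0 ht1
    obtain ⟨φ, k', hφ, hk', hcomp, hBD⟩ := hVM k (fun z : ℂ => (t : ℂ) * z) hk (un_dil ht0 ht1)
    have hcomp' : ∀ z ∈ ball (0 : ℂ) 1, k (φ z) = (t : ℂ) * k' z := hcomp
    have hφ0 : φ 0 = 0 := hφ.2.2.2
    have hmain := hHS k' (fun z => P ((t : ℂ) * z)) (fun z => Φ (φ z)) κ (1 / t) hk'
      (by rw [lt_div_iff₀ ht0]; linarith) ?_ ?_ ?_ hκ ?_ ?_
    · have h1 : (Φ 0).re ≤ κ * √‖deriv k' 0‖ * (P 0).re := by
        have h2 := hmain
        simp only [hφ0, mul_zero] at h2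
        exact h2
      -- derivative
      have hdk : HasDerivAt k (deriv k (φ 0)) (φ 0) := by
        rw [hφ0]
        exact ((hk.1 0 h0mem).differentiableAt hball).hasDerivAt
      have hdφ : HasDerivAt φ (deriv φ 0) 0 := ((hφ.1 0 h0mem).differentiableAt hball).hasDerivAt
      have hdk' : HasDerivAt k' (deriv k' 0) 0 := ((hk'.1 0 h0mem).differentiableAt hball).hasDerivAt
      have h3 : HasDerivAt (fun z => k (φ z)) (deriv k (φ 0) * deriv φ 0) 0 := hdk.comp 0 hdφ
      have h4 : HasDerivAt (fun z => (t : ℂ) * k' z) ((t : ℂ) * deriv k' 0) 0 := hdk'.const_mul _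
      have h5 : (fun z => k (φ z)) =ᶠ[𝓝 0] fun z => (t : ℂ) * k' z := by
        filter_upwards [hball] with z hz using hcomp' z hz
      have h6 : (t : ℂ) * deriv k' 0 = deriv k 0 * deriv φ 0 := by
        have := (h4.congr_of_eventuallyEq h5).unique h3
        rw [hφ0] at this
        exact this
      have h7 : ‖deriv k' 0‖ ≤ ‖deriv k 0‖ / t := by
        rw [le_div_iff₀ ht0]
        have h8 := congrArg norm h6
        rw [norm_mul, norm_mul, Complex.norm_real, Real.norm_of_nonneg ht0.le] at h8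
        rw [mul_comm, h8]
        have h9 := (hUD φ hφ).2.1
        have h10 := norm_nonneg (deriv k 0)
        nlinarith
      refine h1.trans ?_
      have h11 := hPn 0 h0mem
      gcongr
    · intro z hz
      rw [mem_ball_zero_iff, lt_div_iff₀ ht0] at hz
      have hz2 : (t : ℂ) * z ∈ ball (0 : ℂ) 1 := by
        rw [mem_ball_zero_iff, norm_mul, Complex.norm_real, Real.norm_of_nonneg ht0.le]
        linarith
      have h2 : DifferentiableAt ℂ P ((t : ℂ) * z) :=
        (hP _ hz2).differentiableAt (isOpen_ball.mem_nhds hz2)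
      exact (h2.comp z (differentiableAt_id.const_mul (t : ℂ))).differentiableWithinAt
    · intro z hz
      exact hPn _ ((un_dil ht0 ht1).2.1 hz)
    · exact hΦ.comp hφ.1 hφ.2.1
    · intro z hz
      have h2 := hle (φ z) (hφ.2.1 hz)
      rw [hcomp' z hz] at h2
      exact h2
    · intro r hr ε hε
      obtain ⟨s₁, hs₁, hs₁'⟩ := hVN t ht1 ε hε
      obtain ⟨s₂, hs₂, hs₂'⟩ := hBD r hr ((1 - s₁) / 2) (by linarith)
      refine ⟨s₂, hs₂, fun z hz1 hz2 hz3 => ?_⟩
      have h2 := hs₂' z hz1 hz2 hz3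
      have hzb : z ∈ ball (0 : ℂ) 1 := by rw [mem_ball_zero_iff]; exact hz2
      have h3 : ‖φ z‖ < 1 := by
        have := hφ.2.1 hzb
        rwa [mem_ball_zero_iff] at this
      refine hs₁' (φ z) (by linarith) h3 ?_
      rw [hcomp' z hzb, norm_mul, Complex.norm_real, Real.norm_of_nonneg ht0.le]
      nlinarith [norm_nonneg (k' z)]
  have hev : ∀ᶠ t in 𝓝[<] (1 : ℝ), (Φ 0).re ≤ κ * √(‖deriv k 0‖ / t) * (P 0).re := by
    have h1 : Ioo (0 : ℝ) 1 ∈ 𝓝[<] (1 : ℝ) := Ioo_mem_nhdsLT one_pos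
    filter_upwards [h1] with t ht using key t ht.1 ht.2
  have hlim : Tendsto (fun t : ℝ => κ * √(‖deriv k 0‖ / t) * (P 0).re) (𝓝[<] 1)
      (𝓝 (κ * √(‖deriv k 0‖ / 1) * (P 0).re)) := by
    have hc : ContinuousAt (fun t : ℝ => κ * √(‖deriv k 0‖ / t) * (P 0).re) 1 := by
      have h1 : ContinuousAt (fun t : ℝ => ‖deriv k 0‖ / t) 1 :=
        continuousAt_const.div continuousAt_id one_ne_zero
      exact (continuousAt_const.mul (Real.continuous_sqrt.continuousAt.comp h1)).mul continuousAt_const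
    exact hc.tendsto.mono_left nhdsWithin_le_nhds
  rw [div_one] at hlim
  exact ge_of_tendsto hlim hev

end HD243
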