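import Pool.Agent.R243.HD.Defs

/-!
# Project HD, piece HS: the harmonic measure estimate, smooth case
-/

open Set Filter Topology Complex Metric

noncomputable section

namespace HD243

/-- Mean value property of the real part. -/
theorem hs_avg_re {f : ℂ → ℂ} {s : ℝ} (hs0 : 0 < s) (hs1 : s < 1)
    (hf : DifferentiableOn ℂ f (ball 0 1)) :
    CircleIntegrable (fun z => (f z).re) 0 s ∧
      Real.circleAverage (fun z => (f z).re) 0 s = (f 0).re := by
  have hsub : closedBall (0 : ℂ) s ⊆ ball 0 1 := closedBall_subset_ball hs1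
  have hc : ContinuousOn f (sphere 0 s) :=
    hf.continuousOn.mono (sphere_subset_closedBall.trans hsub)
  have hint : CircleIntegrable f 0 s := hc.circleIntegrable hs0.le
  have hcr : ContinuousOn (fun z => (f z).re) (sphere 0 s) := Complex.continuous_re.comp_continuousOn hc
  refine ⟨hcr.circleIntegrable hs0.le, ?_⟩
  have h1 : Real.circleAverage f 0 s = f 0 := by
    refine DiffContOnCl.circleAverage ?_
    rw [abs_of_pos hs0]
    refine DifferentiableOn.diffContOnCl ?_
    rw [closure_ball _ hs0.ne']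
    exact hf.mono hsub
  have h2 := Complex.reCLM.circleAverage_comp_comm hint
  rw [h1] at h2
  exact h2

/-- A function holomorphic in a larger disc is bounded and Lipschitz in the unit disc. -/
theorem hs_bounds {P : ℂ → ℂ} {R : ℝ} (hR : 1 < R) (hP : DifferentiableOn ℂ P (ball 0 R)) :
    ∃ B M : ℝ, 0 ≤ B ∧ 0 ≤ M ∧ (∀ z ∈ ball (0 : ℂ) 1, (P z).re ≤ B) ∧
      ∀ x ∈ ball (0 : ℂ) 1, ∀ y ∈ ball (0 : ℂ) 1, |(P x).re - (P y).re| ≤ M * ‖x - y‖ := by
  have hsub : closedBall (0 : ℂ) 1 ⊆ ball 0 R := closedBall_subset_ball hR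
  have hcomp : IsCompact (closedBall (0 : ℂ) 1) := isCompact_closedBall _ _
  obtain ⟨B, hB⟩ := hcomp.exists_bound_of_continuousOn (hP.continuousOn.mono hsub)
  obtain ⟨M, hM⟩ := hcomp.exists_bound_of_continuousOn
    ((hP.deriv isOpen_ball).continuousOn.mono hsub)
  have h0 : (0 : ℂ) ∈ closedBall (0 : ℂ) 1 := mem_closedBall_self zero_le_one
  have hB0 : 0 ≤ B := (norm_nonneg _).trans (hB 0 h0)
  have hM0 : 0 ≤ M := (norm_nonneg _).trans (hM 0 h0)
  refine ⟨B, M, hB0, hM0, fun z hz => ?_, fun x hx y hy => ?_⟩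
  · exact (Complex.re_le_norm _).trans (hB z (ball_subset_closedBall hz))
  · have h1 := Convex.norm_image_sub_le_of_norm_deriv_le (f := P) (s := ball (0 : ℂ) 1) (C := M)
      (fun z hz => (hP.differentiableAt (isOpen_ball.mem_nhds (hsub (ball_subset_closedBall hz)))))
      (fun z hz => hM z (ball_subset_closedBall hz)) (convex_ball _ _) hy hx
    rw [← Complex.sub_re]
    exact (Complex.abs_re_le_norm _).trans h1

/-- A linear inequality with arbitrarily small errors. -/
theorem hs_limit {a b c d : ℝ} (h : ∀ L : ℝ, 0 < L → L ≤ 1 → ∀ ε : ℝ, 0 < ε →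
    a ≤ b * (1 + L) + c * L + d * ε) (hb : 0 ≤ b) (hc : 0 ≤ c) (hd : 0 ≤ d) : a ≤ b := by
  by_contra hcon
  push Not at hcon
  have h1 : 0 < a - b := by linarith
  have h2 : 0 < 2 * (b + c + d + 1) := by linarith
  have h3 : 0 < b + c + d + 1 := by linarith
  set t := min 1 ((a - b) / (2 * (b + c + d + 1))) with ht
  have ht0 : 0 < t := lt_min one_pos (div_pos h1 h2)
  have ht1 : t ≤ 1 := min_le_left _ _
  have ht2 : t ≤ (a - b) / (2 * (b + c + d + 1)) := min_le_right _ _
  have h4 := h t ht0 ht1 t ht0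
  rw [le_div_iff₀ h2] at ht2
  nlinarith

theorem t_HS (hTO : S_TO) (hUB : S_UB) (hUD : S_UD) : S_HS := by
  intro k P Φ κ R hk hR hP hP0 hΦ hκ hle hVN
  obtain ⟨hkd, hkm, -, hk0⟩ := id hk
  obtain ⟨-, -, -, hkz⟩ := hUD k hk
  obtain ⟨B, M, hB0, hM0, hB, hM⟩ := hs_bounds hR hP
  have hPd : DifferentiableOn ℂ P (ball 0 1) := hP.mono (ball_subset_ball hR.le)
  have hb0 : 0 ≤ (P 0).re := hP0 0 (mem_ball_self one_pos)
  have hPk : DifferentiableOn ℂ (fun z => P (k z)) (ball 0 1) := hPd.comp hkd hkm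
  refine hs_limit (c := 2 * κ * M) (d := 1 + κ) (fun L hL hL1 ε hε => ?_)
    (mul_nonneg (mul_nonneg hκ (Real.sqrt_nonneg _)) hb0) (by positivity) (by positivity)
  obtain ⟨hUc, hUb⟩ := hUB P R L B M hR hL hM0 hP (fun z hz => ⟨hP0 z hz, hB z hz⟩) hM
  -- the radius `r₁`
  obtain ⟨r1, hr1a, hr1b, hr1c⟩ : ∃ r1 : ℝ, 0 < r1 ∧ r1 < 1 ∧ B * (-Real.log r1) / L ≤ ε := by
    refine ⟨Real.exp (-(ε * L / (B + 1))), Real.exp_pos _, ?_, ?_⟩
    · rw [Real.exp_lt_one_iff]
      have : 0 < ε * L / (B + 1) := by positivity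
      linarith
    · rw [Real.log_exp, neg_neg, div_le_iff₀ hL]
      have h1 : B * (ε * L / (B + 1)) = (ε * L) * (B / (B + 1)) := by
        field_simp
      have h2 : B / (B + 1) ≤ 1 := by
        rw [div_le_one (by linarith)]
        linarith
      rw [h1]
      exact mul_le_of_le_one_right (by positivity) h2
  obtain ⟨s, hs1, hs⟩ := hVN r1 hr1b ε hε
  obtain ⟨s', hs'1, hs'2⟩ := exists_between (max_lt hs1 (zero_lt_one' ℝ))
  have hs'0 : 0 < s' := (le_max_right _ _).trans_lt hs'1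
  have hss' : s < s' := (le_max_left _ _).trans_lt hs'1
  have hsub : sphere (0 : ℂ) s' ⊆ ball 0 1 :=
    sphere_subset_closedBall.trans (closedBall_subset_ball hs'2)
  have hne : ∀ z ∈ sphere (0 : ℂ) s', k z ∈ ball (0 : ℂ) 1 \ {0} := by
    intro z hz
    refine ⟨hkm (hsub hz), fun h1 => ?_⟩
    have h2 := hkz z (hsub hz) h1
    rw [h2, mem_sphere_zero_iff_norm, norm_zero] at hz
    exact hs'0.ne hz
  -- the inequality on the circle
  have hpt : ∀ z ∈ sphere (0 : ℂ) s', (Φ z).re ≤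
      κ * ((P (k z)).re - UU P L (k z)) + (2 * κ * M * L + (1 + κ) * ε) := by
    intro z hz
    have hzn : ‖z‖ = s' := mem_sphere_zero_iff_norm.1 hz
    obtain ⟨hkz1, hkz2⟩ := hne z hz
    obtain ⟨hU0, hU1, hU2⟩ := hUb (k z) hkz1 hkz2
    have h2 : 0 ≤ 2 * κ * M * L := by positivity
    by_cases hr : ‖k z‖ ≤ r1
    · have h1 := hs z (by rw [hzn]; exact hss') (by rw [hzn]; exact hs'2) hr
      have h3 : 0 ≤ κ * ((P (k z)).re + 2 * L * M - UU P L (k z)) :=
        mul_nonneg hκ (by linarith)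
      have h4 : 0 ≤ κ * ε := by positivity
      nlinarith
    · push Not at hr
      have h1 := hle z (hsub hz)
      have h3 : UU P L (k z) ≤ ε := by
        refine hU1.trans (le_trans ?_ hr1c)
        have h4 : -Real.log ‖k z‖ ≤ -Real.log r1 := neg_le_neg (Real.log_le_log hr1a hr.le)
        exact div_le_div_of_nonneg_right (mul_le_mul_of_nonneg_left h4 hB0) hL.le
      have h4 : κ * UU P L (k z) ≤ κ * ε := mul_le_mul_of_nonneg_left h3 hκ
      nlinarith
  -- averages
  obtain ⟨hΦi, hΦa⟩ := hs_avg_re hs'0 hs'2 hΦ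
  obtain ⟨hPi, hPa⟩ := hs_avg_re hs'0 hs'2 hPk
  rw [hk0] at hPa
  have hUi : CircleIntegrable (fun z => UU P L (k z)) 0 s' := by
    refine ContinuousOn.circleIntegrable hs'0.le ?_
    exact hUc.comp (hkd.continuousOn.mono hsub) hne
  have hTO' := hTO k P R L s' hk hR hL hL1 hs'0 hs'2 hP hP0
  have hdi : CircleIntegrable (fun z => (P (k z)).re - UU P L (k z)) 0 s' := hPi.sub hUi
  have hmi : CircleIntegrable (fun z => κ • ((P (k z)).re - UU P L (k z))) 0 s' := by
    refine ContinuousOn.circleIntegrable hs'0.le ?_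
    exact ((Complex.continuous_re.comp_continuousOn (hPk.continuousOn.mono hsub)).sub
      (hUc.comp (hkd.continuousOn.mono hsub) hne)).const_smul κ
  have hri : CircleIntegrable (fun z => κ • ((P (k z)).re - UU P L (k z)) +
      (2 * κ * M * L + (1 + κ) * ε)) 0 s' := hmi.add (circleIntegrable_const _ _ _)
  have hfin := Real.circleAverage_mono hΦi hri (fun z hz => by
    rw [abs_of_pos hs'0] at hz
    rw [smul_eq_mul]
    exact hpt z hz)
  rw [hΦa, Real.circleAverage_fun_add hmi (circleIntegrable_const _ _ _),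
    Real.circleAverage_fun_smul, Real.circleAverage_fun_sub hPi hUi, hPa,
    Real.circleAverage_const, smul_eq_mul] at hfin
  have h5 : κ * ((P 0).re - Real.circleAverage (fun z => UU P L (k z)) 0 s') ≤
      κ * √‖deriv k 0‖ * (P 0).re * (1 + L) := by
    have h6 := mul_le_mul_of_nonneg_left hTO' hκ
    nlinarith
  linarith

end HD243
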