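import Pool.Agent.R243.HD.Defs
import Pool.Agent.Helper202.Geom

/-!
Project HD (MP_14bd02_an), piece JE: a Jensen type lower bound for the circle average of the Green
function of the disc along a univalent self-map.
-/

set_option autoImplicit false

open Set Filter Topology Complex Metric

namespace HD243

lemma gg_eq (ζ ξ : ℂ) : gg ζ ξ = - Real.log ‖(ζ - ξ) / (1 - (starRingEnd ℂ) ξ * ζ)‖ := by
  rw [gg, ← Real.log_inv, ← norm_inv, inv_div]

lemma je_den {ξ ζ : ℂ} (hξ : ‖ξ‖ < 1) (hζ : ‖ζ‖ < 1) : 1 - (starRingEnd ℂ) ξ * ζ ≠ 0 := by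
  intro h
  have h1 : (starRingEnd ℂ) ξ * ζ = 1 := (sub_eq_zero.mp h).symm
  have h2 : ‖ξ‖ * ‖ζ‖ = 1 := by
    rw [← Complex.norm_conj ξ, ← norm_mul, h1, norm_one]
  nlinarith [norm_nonneg ξ, norm_nonneg ζ]

lemma je_inj {ξ a b : ℂ} (hξ : ‖ξ‖ < 1) (ha : 1 - (starRingEnd ℂ) ξ * a ≠ 0)
    (hb : 1 - (starRingEnd ℂ) ξ * b ≠ 0)
    (h : (a - ξ) / (1 - (starRingEnd ℂ) ξ * a) = (b - ξ) / (1 - (starRingEnd ℂ) ξ * b)) : a = b := by
  have hx := je_den hξ hξ
  rw [div_eq_div_iff ha hb] at h
  have h2 : (a - b) * (1 - (starRingEnd ℂ) ξ * ξ) = 0 := by linear_combination h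
  rcases mul_eq_zero.mp h2 with h3 | h3
  · exact sub_eq_zero.mp h3
  · exact absurd h3 hx

theorem t_JE : S_JE := by
  intro k ξ s q hk hξ hξ0 hs hs1 hq hw
  obtain ⟨hd, hm, hi, h0⟩ := hk
  have hξ1 : ‖ξ‖ < 1 := by simpa using hξ
  set F : ℂ → ℂ := fun z => (k z - ξ) / (1 - (starRingEnd ℂ) ξ * k z) with hF
  have hden : ∀ z ∈ ball (0 : ℂ) 1, 1 - (starRingEnd ℂ) ξ * k z ≠ 0 := fun z hz =>
    je_den hξ1 (by simpa using hm hz)
  have hFd : DifferentiableOn ℂ F (ball 0 1) := by
    apply DifferentiableOn.div (hd.sub_const ξ) _ hden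
    exact (differentiableOn_const _).sub (hd.const_mul _)
  have hFi : InjOn F (ball 0 1) := fun x hx y hy hxy =>
    hi hx hy (je_inj hξ1 (hden x hx) (hden y hy) hxy)
  have hFa : AnalyticOnNhd ℂ F (ball 0 1) := hFd.analyticOnNhd isOpen_ball
  have hsub : closedBall (0:ℂ) |s| ⊆ ball 0 1 := by
    rw [abs_of_pos hs]; exact closedBall_subset_ball hs1
  have hgg : (fun z => gg (k z) ξ) = fun z => - Real.log ‖F z‖ := by
    ext z; exact gg_eq _ _
  have hint : CircleIntegrable (fun z => Real.log ‖F z‖) 0 s := by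
    apply MeromorphicOn.circleIntegrable_log_norm
    exact (hFa.mono (sphere_subset_closedBall.trans hsub)).meromorphicOn
  have hF0 : F 0 = -ξ := by simp [hF, h0]
  rw [hgg]
  refine ⟨hint.neg, ?_⟩
  have hneg : Real.circleAverage (fun z => - Real.log ‖F z‖) 0 s =
      - Real.circleAverage (fun z => Real.log ‖F z‖) 0 s := by
    have := Real.circleAverage_fun_smul (a := (-1 : ℝ)) (f := fun z => Real.log ‖F z‖)
      (c := (0 : ℂ)) (R := s)
    simpa using this
  rw [hneg]
  suffices h : Real.circleAverage (fun z => Real.log ‖F z‖) 0 s ≤ Real.log ‖ξ‖ + q by linarith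
  by_cases hz : ∃ w ∈ ball (0:ℂ) 1, k w = ξ
  · obtain ⟨w, hwb, hwk⟩ := hz
    have hq' := hw w hwb hwk
    have hw0 : w ≠ 0 := by
      rintro rfl
      rw [h0] at hwk
      exact hξ0 hwk.symm
    have hwn : 0 < ‖w‖ := norm_pos_iff.mpr hw0
    have hw1 : ‖w‖ < 1 := by simpa using hwb
    have hFw : F w = 0 := by simp [hF, hwk]
    have hGd : DifferentiableOn ℂ (dslope F w) (ball 0 1) :=
      (Complex.differentiableOn_dslope (isOpen_ball.mem_nhds hwb)).mpr hFd
    have hFG : ∀ z, F z = (z - w) * dslope F w z := by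
      intro z
      have := sub_smul_dslope F w z
      simp only [smul_eq_mul] at this
      rw [this, hFw, sub_zero]
    have hG0 : ∀ z ∈ ball (0:ℂ) 1, dslope F w z ≠ 0 := by
      intro z hz hGz
      by_cases hzw : z = w
      · rw [hzw, dslope_same] at hGz
        exact Pool.Agent.Helper202.Geom.deriv_ne_zero_of_injOn isOpen_ball hFd hFi hwb hGz
      · have h1 : F z = 0 := by rw [hFG, hGz, mul_zero]
        exact hzw (hFi hz hwb (h1.trans hFw.symm))
    have hGa : AnalyticOnNhd ℂ (dslope F w) (ball 0 1) := hGd.analyticOnNhd isOpen_ball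
    have hGint : CircleIntegrable (fun z => Real.log ‖dslope F w z‖) 0 s := by
      apply MeromorphicOn.circleIntegrable_log_norm
      exact (hGa.mono (sphere_subset_closedBall.trans hsub)).meromorphicOn
    have hGav : Real.circleAverage (fun z => Real.log ‖dslope F w z‖) 0 s =
        Real.log ‖dslope F w 0‖ :=
      AnalyticOnNhd.circleAverage_log_norm_of_ne_zero (hGa.mono hsub)
        (fun u hu => hG0 u (hsub hu))
    have hlin : CircleIntegrable (fun z => Real.log ‖z - w‖) 0 s :=
      circleIntegrable_log_norm_sub_const s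
    have hlav : Real.circleAverage (fun z => Real.log ‖z - w‖) 0 s =
        Real.log s + Real.posLog (s⁻¹ * ‖0 - w‖) :=
      circleAverage_log_norm_sub_const_eq_log_radius_add_posLog hs.ne'
    have hsum : Real.circleAverage (fun z => Real.log ‖F z‖) 0 s =
        Real.circleAverage (fun z => Real.log ‖z - w‖) 0 s +
          Real.circleAverage (fun z => Real.log ‖dslope F w z‖) 0 s := by
      rw [← Real.circleAverage_add hlin hGint]
      apply Real.circleAverage_congr_codiscreteWithin _ hs.ne'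
      have hmem : {z : ℂ | z ≠ w} ∈ codiscreteWithin (sphere (0 : ℂ) |s|) := by
        apply codiscreteWithin_iff_locallyFiniteComplementWithin.2
        intro z hz
        refine ⟨Set.univ, univ_mem, ?_⟩
        apply Set.Subsingleton.finite
        intro z₁ hz₁ z₂ hz₂
        have e1 : z₁ = w := not_not.mp hz₁.2.2
        have e2 : z₂ = w := not_not.mp hz₂.2.2
        rw [e1, e2]
      filter_upwards [hmem, self_mem_codiscreteWithin (sphere (0:ℂ) |s|)] with z h1 h2
      have hzb : z ∈ ball (0:ℂ) 1 := hsub (sphere_subset_closedBall h2)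
      simp only [Pi.add_apply]
      rw [hFG, norm_mul, Real.log_mul]
      · exact norm_ne_zero_iff.mpr (sub_ne_zero.mpr h1)
      · exact norm_ne_zero_iff.mpr (hG0 z hzb)
    have hlog0 : Real.log ‖dslope F w 0‖ = Real.log ‖ξ‖ - Real.log ‖w‖ := by
      have h1 : ‖ξ‖ = ‖w‖ * ‖dslope F w 0‖ := by
        have := hFG 0
        rw [hF0, zero_sub] at this
        have h2 := congrArg norm this
        rwa [norm_mul, norm_neg, norm_neg] at h2
      rw [h1, Real.log_mul hwn.ne' (norm_ne_zero_iff.mpr (hG0 0 (by simp)))]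
      ring
    have hmax : Real.log s + Real.posLog (s⁻¹ * ‖0 - w‖) ≤ 0 := by
      rw [zero_sub, norm_neg, Real.posLog]
      have hls : Real.log s ≤ 0 := (Real.log_nonpos hs.le hs1.le)
      have hlw : Real.log ‖w‖ ≤ 0 := Real.log_nonpos hwn.le hw1.le
      rw [Real.log_mul (inv_ne_zero hs.ne') hwn.ne', Real.log_inv]
      rcases max_choice 0 (-Real.log s + Real.log ‖w‖) with h | h <;> rw [h] <;> linarith
    rw [hsum, hlav, hGav, hlog0]
    linarith
  · have hFne : ∀ z ∈ ball (0:ℂ) 1, F z ≠ 0 := by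
      intro z hzb hFz
      apply hz
      refine ⟨z, hzb, ?_⟩
      rcases div_eq_zero_iff.mp hFz with h | h
      · exact sub_eq_zero.mp h
      · exact absurd h (hden z hzb)
    have := AnalyticOnNhd.circleAverage_log_norm_of_ne_zero (hFa.mono hsub)
      (fun u hu => hFne u (hsub hu))
    rw [show Real.circleAverage (fun z => Real.log ‖F z‖) 0 s = Real.log ‖F 0‖ from this, hF0,
      norm_neg]
    linarith

end HD243
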