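import Pool.Agent.R243.HD.Defs
import Pool.Agent.Helper469.Univalent

/-!
# Project HD: logarithm of `z / p z`
-/

open Set Filter Topology Complex Metric

noncomputable section

namespace HD243

/-- a zero free holomorphic function on the unit disc has a holomorphic logarithm -/
lemma lg_exists_log {q : ℂ → ℂ} (hq : DifferentiableOn ℂ q (ball 0 1))
    (h0 : ∀ z ∈ ball (0 : ℂ) 1, q z ≠ 0) :
    ∃ Q : ℂ → ℂ, DifferentiableOn ℂ Q (ball 0 1) ∧ ∀ z ∈ ball (0 : ℂ) 1, q z = exp (Q z) := by
  have hdq : DifferentiableOn ℂ (fun z => deriv q z / q z) (ball 0 1) := by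
    refine DifferentiableOn.div ?_ hq h0
    exact hq.deriv isOpen_ball
  obtain ⟨Q, hQ0, hQ⟩ := hdq.isExactOn_ball.with_val_at 0 (log (q 0))
  have hQd : DifferentiableOn ℂ Q (ball 0 1) := fun z hz =>
    (hQ z hz).differentiableAt.differentiableWithinAt
  refine ⟨Q, hQd, ?_⟩
  have hm : (0 : ℂ) ∈ ball (0 : ℂ) 1 := mem_ball_self one_pos
  have hder : ∀ z ∈ ball (0 : ℂ) 1, HasDerivAt (fun z => q z * exp (- Q z)) 0 z := by
    intro z hz
    have h1 : HasDerivAt q (deriv q z) z :=
      (hq.differentiableAt (isOpen_ball.mem_nhds hz)).hasDerivAt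
    have h2 := (hQ z hz).neg.cexp
    have h3 := h1.mul h2
    convert! h3 using 1
    have := h0 z hz
    field_simp
    ring
  have hconst : ∀ z ∈ ball (0 : ℂ) 1, q z * exp (- Q z) = 1 := by
    intro z hz
    have hcv : Convex ℝ (ball (0 : ℂ) 1) := convex_ball 0 1
    have h1 : q z * exp (- Q z) = q 0 * exp (- Q 0) := by
      refine IsOpen.is_const_of_deriv_eq_zero (𝕜 := ℂ) (f := fun z => q z * exp (- Q z))
        isOpen_ball hcv.isPreconnected ?_ ?_ hz hm
      · intro w hw
        exact (hder w hw).differentiableAt.differentiableWithinAt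
      · intro w hw
        exact (hder w hw).deriv
    rw [h1, hQ0, exp_neg, exp_log (h0 0 hm)]
    exact mul_inv_cancel₀ (h0 0 hm)
  intro z hz
  have h1 := hconst z hz
  rw [exp_neg] at h1
  have h2 : exp (Q z) ≠ 0 := exp_ne_zero _
  field_simp at h1
  exact h1

theorem t_LG : S_LG := by
  rintro p ⟨hd, hmap, hinj, hp0⟩
  have hm : (0 : ℂ) ∈ ball (0 : ℂ) 1 := mem_ball_self one_pos
  have hnh : ball (0 : ℂ) 1 ∈ 𝓝 (0 : ℂ) := isOpen_ball.mem_nhds hm
  have hqd : DifferentiableOn ℂ (dslope p 0) (ball 0 1) :=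
    (differentiableOn_dslope hnh).2 hd
  have hder : deriv p 0 ≠ 0 :=
    Pool.Agent.Helper469.Univalent.deriv_ne_zero_of_injOn isOpen_ball hd hinj hm
  have hq0 : ∀ z ∈ ball (0 : ℂ) 1, dslope p 0 z ≠ 0 := by
    intro z hz
    rcases eq_or_ne z 0 with rfl | hne
    · rwa [dslope_same]
    · rw [dslope_of_ne _ hne, slope_def_field, hp0, sub_zero, sub_zero]
      refine div_ne_zero (fun h => hne (hinj hz hm ?_)) hne
      rw [h, hp0]
  have hq1 : ∀ z ∈ ball (0 : ℂ) 1, ‖dslope p 0 z‖ ≤ 1 := by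
    intro z hz
    have := norm_dslope_le_div_of_mapsTo_ball (f := p) (c := 0) (R₁ := 1) (R₂ := 1) hd
      (by
        intro w hw
        rw [hp0]
        exact ball_subset_closedBall (hmap hw)) hz
    simpa using this
  obtain ⟨Q, hQ, hQe⟩ := lg_exists_log hqd hq0
  refine ⟨fun z => - Q z, hQ.neg, ?_, ?_, ?_⟩
  · intro z hz
    have h1 : p z = z * dslope p 0 z := by
      have := sub_smul_dslope p 0 z
      rw [hp0, sub_zero, sub_zero, smul_eq_mul] at this
      exact this.symm
    rw [h1, hQe z hz, mul_assoc, ← exp_add, add_neg_cancel, exp_zero, mul_one]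
  · intro z hz
    have h1 := hq1 z hz
    rw [hQe z hz, norm_exp] at h1
    have h2 := Real.exp_le_one_iff.1 h1
    rw [neg_re]
    linarith
  · have h1 := hQe 0 hm
    rw [dslope_same] at h1
    rw [h1, norm_exp, Real.log_exp, neg_re]

end HD243
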