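import Pool.Agent.R243.HD.Defs
import Pool.Agent.Helper202.Geom

/-!
# HD-LI, LD (helper451): lifting holomorphic maps through holomorphic coverings
-/

open Set Filter Topology Complex Metric

noncomputable section

namespace HD243

namespace LIaux

lemma deriv_ne {D : Set ℂ} {f : ℂ → ℂ} (hf : Cov D f) {z : ℂ} (hz : z ∈ ball (0 : ℂ) 1) :
    deriv f z ≠ 0 := by
  obtain ⟨hd, -, hm, hcov⟩ := hf
  obtain ⟨φ, hφ, hpφ⟩ := hcov.isLocalHomeomorph ⟨z, hz⟩
  have hU : IsOpen (Subtype.val '' φ.source : Set ℂ) :=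
    isOpen_ball.isOpenMap_subtype_val _ φ.open_source
  have hsub : (Subtype.val '' φ.source : Set ℂ) ⊆ ball (0 : ℂ) 1 := by
    rintro _ ⟨x, -, rfl⟩
    exact x.2
  refine Pool.Agent.Helper202.Geom.deriv_ne_zero_of_injOn hU (hd.mono hsub) ?_
    (z₀ := z) ⟨⟨z, hz⟩, hφ, rfl⟩
  rintro _ ⟨x, hx, rfl⟩ _ ⟨y, hy, rfl⟩ hxy
  have h1 : φ x = φ y := by
    rw [← hpφ]
    exact Subtype.ext hxy
  rw [φ.injOn hx hy h1]

end LIaux

open LIaux in
theorem t_LD : S_LD := by
  intro D f _ hf
  exact deriv_ne hf (mem_ball_self one_pos)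

open LIaux in
theorem t_LI : S_LI := by
  intro D f h hD hf hh hmh h0
  obtain ⟨hd, himg, hm, hcov⟩ := id hf
  have z1 : (0 : ℂ) ∈ ball (0 : ℂ) 1 := mem_ball_self one_pos
  have hne : (ball (0 : ℂ) 1).Nonempty := ⟨0, z1⟩
  have i1 : ContractibleSpace (ball (0 : ℂ) 1) := (convex_ball (0 : ℂ) 1).contractibleSpace hne
  have i2 : LocallyPathConnectedSpace (ball (0 : ℂ) 1) := isOpen_ball.locallyPathConnectedSpace
  let H : C(ball (0 : ℂ) 1, D) := ⟨hmh.restrict h _ _, hh.continuousOn.mapsToRestrict hmh⟩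
  obtain ⟨F, ⟨hF0, hF⟩, -⟩ := hcov.existsUnique_continuousMap_lifts H ⟨0, z1⟩ ⟨0, z1⟩
    (Subtype.ext h0.symm)
  have hFf : ∀ w : ball (0 : ℂ) 1, f (F w) = h w := by
    intro w
    have h1 := congrFun hF w
    exact congrArg Subtype.val h1
  classical
  let g : ℂ → ℂ := fun w => if hw : w ∈ ball (0 : ℂ) 1 then (F ⟨w, hw⟩ : ℂ) else 0
  have hg : ∀ w (hw : w ∈ ball (0 : ℂ) 1), g w = F ⟨w, hw⟩ := fun w hw => by simp only [g, dif_pos hw]
  have hgc : ContinuousOn g (ball 0 1) := by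
    rw [continuousOn_iff_continuous_domRestrict]
    have h1 : (ball (0 : ℂ) 1).domRestrict g = fun w => (F w : ℂ) := by
      funext w
      exact hg w.1 w.2
    rw [h1]
    exact continuous_subtype_val.comp F.continuous
  refine ⟨g, ?_, ?_, ?_, ?_⟩
  · intro w hw
    refine DifferentiableAt.differentiableWithinAt ?_
    have hgw : g w ∈ ball (0 : ℂ) 1 := by
      rw [hg w hw]
      exact (F _).2
    have hstrict : HasStrictDerivAt f (deriv f (g w)) (g w) :=
      (hd.analyticAt (isOpen_ball.mem_nhds hgw)).hasStrictDerivAt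
    have hne := deriv_ne hf hgw
    have hinv := hstrict.to_localInverse hne
    have hleft := hstrict.eventually_left_inverse hne
    have hcont : ContinuousAt g w := hgc.continuousAt (isOpen_ball.mem_nhds hw)
    have h2 : ∀ᶠ y in 𝓝 w, g y = hstrict.localInverse f _ _ hne (h y) := by
      filter_upwards [hcont.eventually hleft, isOpen_ball.mem_nhds hw] with y hy1 hy2
      have h3 : f (g y) = h y := by
        rw [hg y hy2]
        exact hFf ⟨y, hy2⟩
      rw [← h3, hy1]
    have h4 : f (g w) = h w := by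
      rw [hg w hw]
      exact hFf ⟨w, hw⟩
    have h5 : DifferentiableAt ℂ h w := hh.differentiableAt (isOpen_ball.mem_nhds hw)
    rw [h4] at hinv
    exact (hinv.hasDerivAt.differentiableAt.comp w h5).congr_of_eventuallyEq h2
  · intro w hw
    rw [hg w hw]
    exact (F _).2
  · rw [hg 0 z1, hF0]
  · intro w hw
    rw [hg w hw]
    exact hFf ⟨w, hw⟩

end HD243
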