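import Pool.Agent.R243.HD.Defs

/-!
# Pieces LS and MB: coverings of simply connected sets, change of base point
-/

set_option autoImplicit false

open Set Filter Topology Complex Metric
open scoped ComplexConjugate

noncomputable section

namespace HD243

theorem t_LS : S_LS := by
  rintro D f hD hsc ⟨_, _, h, hcov⟩
  have : SimplyConnectedSpace D := hsc.simplyConnectedSpace
  have : LocallyPathConnectedSpace D := hD.locallyPathConnectedSpace
  have : PreconnectedSpace (ball (0 : ℂ) 1) :=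
    Subtype.preconnectedSpace (convex_ball 0 1).isPreconnected
  have h0 : (0 : ℂ) ∈ ball (0 : ℂ) 1 := by simp
  obtain ⟨p, hp⟩ : ∃ p : ball (0 : ℂ) 1 → D, p = MapsTo.restrict f (ball 0 1) D h := ⟨_, rfl⟩
  rw [← hp] at hcov
  obtain ⟨F, ⟨hF0, hF⟩, _⟩ := hcov.existsUnique_continuousMap_lifts (ContinuousMap.id D)
    (p ⟨0, h0⟩) ⟨0, h0⟩ rfl
  have hid : F ∘ p = id :=
    hcov.eq_of_comp_eq (F.continuous.comp hcov.continuous) continuous_id
      (by rw [← Function.comp_assoc, hF]; rfl) ⟨0, h0⟩ hF0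
  intro x hx y hy hxy
  have h1 : p ⟨x, hx⟩ = p ⟨y, hy⟩ := by
    rw [hp]
    exact Subtype.ext hxy
  have h2 : F (p ⟨x, hx⟩) = F (p ⟨y, hy⟩) := by rw [h1]
  have e1 : F (p ⟨x, hx⟩) = ⟨x, hx⟩ := congrFun hid ⟨x, hx⟩
  have e2 : F (p ⟨y, hy⟩) = ⟨y, hy⟩ := congrFun hid ⟨y, hy⟩
  rw [e1, e2] at h2
  exact congrArg Subtype.val h2

namespace MBaux

/-- the automorphism of the disc with `0 ↦ w` -/
def mob (w z : ℂ) : ℂ := (z + w) / (1 + conj w * z)

theorem key (w z : ℂ) : normSq (1 + conj w * z) - normSq (z + w) =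
    (1 - normSq w) * (1 - normSq z) := by
  simp only [normSq_apply, add_re, add_im, mul_re, mul_im, conj_re, conj_im, one_re, one_im]
  ring

theorem nsq {z : ℂ} (hz : ‖z‖ < 1) : normSq z < 1 := by
  rw [normSq_eq_norm_sq]
  have := norm_nonneg z
  nlinarith

theorem den {w z : ℂ} (hw : ‖w‖ < 1) (hz : ‖z‖ < 1) : 1 + conj w * z ≠ 0 := by
  have h := key w z
  have h1 := nsq hw
  have h2 := nsq hz
  have h3 := normSq_nonneg (z + w)
  have h4 : 0 < (1 - normSq w) * (1 - normSq z) := mul_pos (by linarith) (by linarith)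
  rw [← normSq_pos]
  linarith

theorem mob_lt {w z : ℂ} (hw : ‖w‖ < 1) (hz : ‖z‖ < 1) : ‖mob w z‖ < 1 := by
  have h := key w z
  have h1 := nsq hw
  have h2 := nsq hz
  have h4 : 0 < (1 - normSq w) * (1 - normSq z) := mul_pos (by linarith) (by linarith)
  have h5 := den hw hz
  rw [mob, norm_div, div_lt_one (norm_pos_iff.2 h5)]
  apply lt_of_pow_lt_pow_left₀ 2 (norm_nonneg _)
  rw [← normSq_eq_norm_sq, ← normSq_eq_norm_sq]
  linarith

theorem mob_mem {w z : ℂ} (hw : ‖w‖ < 1) (hz : z ∈ ball (0 : ℂ) 1) : mob w z ∈ ball (0 : ℂ) 1 := by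
  rw [mem_ball_zero_iff] at hz ⊢
  exact mob_lt hw hz

theorem one_sub_ne {w : ℂ} (hw : ‖w‖ < 1) : 1 - conj w * w ≠ 0 := by
  have h := den (w := -w) (z := w) (by rwa [norm_neg]) hw
  rw [map_neg, neg_mul] at h
  rwa [sub_eq_add_neg]

theorem mob_inv {w z : ℂ} (hw : ‖w‖ < 1) (hz : ‖z‖ < 1) : mob (-w) (mob w z) = z := by
  have h1 := den hw hz
  have h2 := one_sub_ne hw
  unfold mob
  rw [map_neg]
  have e1 : (z + w) / (1 + conj w * z) + -w = z * (1 - conj w * w) / (1 + conj w * z) := by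
    rw [div_add' _ _ _ h1]
    congr 1
    ring
  have e2 : 1 + -conj w * ((z + w) / (1 + conj w * z)) = (1 - conj w * w) / (1 + conj w * z) := by
    field_simp
    ring
  rw [e1, e2, div_div_div_cancel_right₀ h1, mul_div_assoc, div_self h2, mul_one]

theorem mob_inv' {w z : ℂ} (hw : ‖w‖ < 1) (hz : ‖z‖ < 1) : mob w (mob (-w) z) = z := by
  have h := mob_inv (w := -w) (z := z) (by rwa [norm_neg]) hz
  rwa [neg_neg] at h

theorem mob_diff {w : ℂ} (hw : ‖w‖ < 1) : DifferentiableOn ℂ (mob w) (ball 0 1) := by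
  unfold mob
  intro z hz
  rw [mem_ball_zero_iff] at hz
  apply DifferentiableAt.differentiableWithinAt
  exact (by fun_prop : DifferentiableAt ℂ (fun z => z + w) z).div
    (by fun_prop : DifferentiableAt ℂ (fun z => 1 + conj w * z) z) (den hw hz)

/-- the automorphism as a homeomorphism of the disc -/
def mobH (w : ℂ) (hw : ‖w‖ < 1) : ball (0 : ℂ) 1 ≃ₜ ball (0 : ℂ) 1 where
  toFun z := ⟨mob w z, mob_mem hw z.2⟩
  invFun z := ⟨mob (-w) z, mob_mem (by rwa [norm_neg]) z.2⟩
  left_inv z := Subtype.ext (mob_inv hw (mem_ball_zero_iff.1 z.2))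
  right_inv z := Subtype.ext (mob_inv' hw (mem_ball_zero_iff.1 z.2))
  continuous_toFun := by
    apply Continuous.subtype_mk
    exact (mob_diff hw).continuousOn.domRestrict
  continuous_invFun := by
    apply Continuous.subtype_mk
    exact (mob_diff (w := -w) (by rwa [norm_neg])).continuousOn.domRestrict

theorem mob_zero (w : ℂ) : mob w 0 = w := by
  unfold mob
  simp

theorem mob_deriv {w : ℂ} : HasDerivAt (mob w) (1 - conj w * w) 0 := by
  have h1 : HasDerivAt (fun z : ℂ => z + w) 1 0 := (hasDerivAt_id 0).add_const w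
  have h2 : HasDerivAt (fun z : ℂ => 1 + conj w * z) (conj w * 1) 0 :=
    ((hasDerivAt_id (0 : ℂ)).const_mul (conj w)).const_add 1
  have h3 := h1.div h2 (by simp)
  refine h3.congr_deriv ?_
  simp
  ring

end MBaux

open MBaux in
theorem t_MB : S_MB := by
  rintro D z l ⟨f, w, ⟨hd, him, h, hcov⟩, hw, hfw, hl⟩
  have hw' : ‖w‖ < 1 := mem_ball_zero_iff.1 hw
  have hmaps : MapsTo (mob w) (ball 0 1) (ball 0 1) := fun x hx => mob_mem hw' hx
  have hM : MapsTo (f ∘ mob w) (ball 0 1) D := h.comp hmaps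
  refine ⟨f ∘ mob w, ⟨hd.comp (mob_diff hw') hmaps, ?_, hM, ?_⟩, ?_, ?_⟩
  · rw [image_comp]
    have : mob w '' ball 0 1 = ball 0 1 := by
      apply Subset.antisymm
      · rintro _ ⟨x, hx, rfl⟩
        exact hmaps hx
      · intro x hx
        exact ⟨mob (-w) x, mob_mem (by rwa [norm_neg]) hx, mob_inv' hw' (mem_ball_zero_iff.1 hx)⟩
    rw [this, him]
  · have h1 : MapsTo.restrict (f ∘ mob w) (ball 0 1) D hM =
        MapsTo.restrict f (ball 0 1) D h ∘ mobH w hw' := rfl
    rw [h1]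
    exact hcov.comp_homeomorph _
  · show f (mob w 0) = z
    rw [mob_zero, hfw]
  · have h1 : HasDerivAt f (deriv f w) (mob w 0) := by
      rw [mob_zero]
      exact (hd.differentiableAt (isOpen_ball.mem_nhds hw)).hasDerivAt
    have h2 := (h1.comp 0 mob_deriv).deriv
    rw [h2, norm_mul]
    have h3 : ‖1 - conj w * w‖ = 1 - ‖w‖ ^ 2 := by
      have h4 : 1 - conj w * w = ((1 - ‖w‖ ^ 2 : ℝ) : ℂ) := by
        rw [Complex.conj_mul']
        push_cast
        ring
      rw [h4, Complex.norm_real, Real.norm_of_nonneg]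
      nlinarith [norm_nonneg w]
    have h5 : 1 - ‖w‖ ^ 2 ≠ 0 := by
      have : 0 < 1 - ‖w‖ ^ 2 := by nlinarith [norm_nonneg w]
      exact this.ne'
    rw [h3, ← mul_assoc, hl]
    field_simp

end HD243
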