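import Pool.Agent.R243.HD.Defs

open Set Filter Topology Complex Metric

noncomputable section

namespace HD243

namespace OMx

lemma mob_ne {w c : ℂ} (hw : ‖w‖ < 1) (hc : ‖c‖ < 1) : 1 - (starRingEnd ℂ) c * w ≠ 0 := by
  intro h
  have h1 : ‖(starRingEnd ℂ) c * w‖ = 1 := by
    rw [← sub_eq_zero.1 h, norm_one]
  rw [norm_mul, RCLike.norm_conj] at h1
  have h2 : ‖c‖ * ‖w‖ < 1 * 1 := mul_lt_mul'' hc hw (norm_nonneg _) (norm_nonneg _)
  linarith

lemma mob_id (w c : ℂ) : ‖1 - (starRingEnd ℂ) c * w‖ ^ 2 - ‖w - c‖ ^ 2 =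
    (1 - ‖w‖ ^ 2) * (1 - ‖c‖ ^ 2) := by
  simp only [← Complex.normSq_eq_norm_sq, Complex.normSq_apply, Complex.sub_re, Complex.sub_im,
    Complex.mul_re, Complex.mul_im, Complex.conj_re, Complex.conj_im, Complex.one_re,
    Complex.one_im]
  ring

lemma mob_lt {w c : ℂ} (hw : ‖w‖ < 1) (hc : ‖c‖ < 1) :
    ‖(w - c) / (1 - (starRingEnd ℂ) c * w)‖ < 1 := by
  have h0 := norm_pos_iff.2 (mob_ne hw hc)
  rw [norm_div, div_lt_one h0]
  have h1 := mob_id w c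
  have h2 : 0 < (1 - ‖w‖ ^ 2) * (1 - ‖c‖ ^ 2) := by
    apply mul_pos <;> nlinarith [norm_nonneg w, norm_nonneg c]
  refine lt_of_pow_lt_pow_left₀ 2 h0.le ?_
  linarith

lemma mob_deriv {q : ℂ → ℂ} {c q' : ℂ} (hq : HasDerivAt q q' 0) (hw : ‖q 0‖ < 1) (hc : ‖c‖ < 1) :
    HasDerivAt (fun z => (q z - c) / (1 - (starRingEnd ℂ) c * q z))
      (q' * (1 - (starRingEnd ℂ) c * c) / (1 - (starRingEnd ℂ) c * q 0) ^ 2) 0 := by
  have h1 := (hq.sub_const c).div ((hq.const_mul ((starRingEnd ℂ) c)).const_sub 1)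
    (mob_ne hw hc)
  refine h1.congr_deriv ?_
  congr 1
  ring

lemma sp0 {q : ℂ → ℂ} (hq : DifferentiableOn ℂ q (ball 0 1))
    (hm : MapsTo q (ball 0 1) (ball 0 1)) : ‖deriv q 0‖ ≤ 1 - ‖q 0‖ ^ 2 := by
  have h0 : (0 : ℂ) ∈ ball (0 : ℂ) 1 := by simp
  have hlt : ∀ z ∈ ball (0 : ℂ) 1, ‖q z‖ < 1 := fun z hz => mem_ball_zero_iff.1 (hm hz)
  have hc := hlt 0 h0
  set M : ℂ → ℂ := fun z => (q z - q 0) / (1 - (starRingEnd ℂ) (q 0) * q z) with hM
  have hMd : DifferentiableOn ℂ M (ball 0 1) :=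
    (hq.sub_const _).div ((hq.const_mul _).const_sub 1) fun z hz => mob_ne (hlt z hz) hc
  have hM0 : M 0 = 0 := by simp [hM]
  have hMm : MapsTo M (ball 0 1) (closedBall (M 0) 1) := by
    intro z hz
    rw [hM0, mem_closedBall_zero_iff]
    exact (mob_lt (hlt z hz) hc).le
  have h1 : ‖deriv M 0‖ ≤ 1 := Complex.norm_deriv_le_one_of_mapsTo_ball hMd hMm one_pos
  have hqd : HasDerivAt q (deriv q 0) 0 :=
    ((hq 0 h0).differentiableAt (isOpen_ball.mem_nhds h0)).hasDerivAt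
  have h2 : deriv M 0 = deriv q 0 * (1 - (starRingEnd ℂ) (q 0) * q 0) /
      (1 - (starRingEnd ℂ) (q 0) * q 0) ^ 2 := (mob_deriv hqd hc hc).deriv
  have h3 : (1 - (starRingEnd ℂ) (q 0) * q 0) ≠ 0 := mob_ne hc hc
  have h4 : deriv M 0 = deriv q 0 / (1 - (starRingEnd ℂ) (q 0) * q 0) := by
    rw [h2]; field_simp
  have h5 : (1 - (starRingEnd ℂ) (q 0) * q 0) = ((1 - ‖q 0‖ ^ 2 : ℝ) : ℂ) := by
    rw [mul_comm, Complex.mul_conj, Complex.normSq_eq_norm_sq]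
    push_cast
    ring
  have h6 : 0 < 1 - ‖q 0‖ ^ 2 := by nlinarith [norm_nonneg (q 0)]
  rw [h4, h5, norm_div, Complex.norm_real, Real.norm_of_nonneg h6.le, div_le_one h6] at h1
  exact h1

lemma ex_log {b : ℂ → ℂ} (hb : DifferentiableOn ℂ b (ball 0 1))
    (hne : ∀ z ∈ ball (0 : ℂ) 1, b z ≠ 0) :
    ∃ G : ℂ → ℂ, DifferentiableOn ℂ G (ball 0 1) ∧ ∀ z ∈ ball (0 : ℂ) 1, b z = exp (G z) := by
  have h0 : (0 : ℂ) ∈ ball (0 : ℂ) 1 := by simp
  have h1 : DifferentiableOn ℂ (fun z => deriv b z / b z) (ball 0 1) :=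
    (hb.deriv isOpen_ball).div hb hne
  obtain ⟨G, hG0, hG⟩ := h1.isExactOn_ball.with_val_at 0 (Complex.log (b 0))
  refine ⟨G, fun z hz => (hG z hz).differentiableAt.differentiableWithinAt, fun z hz => ?_⟩
  have hd : ∀ z ∈ ball (0 : ℂ) 1, HasDerivAt (fun w => b w * exp (- G w)) 0 z := by
    intro z hz
    have hbz : HasDerivAt b (deriv b z) z :=
      ((hb z hz).differentiableAt (isOpen_ball.mem_nhds hz)).hasDerivAt
    have h2 := hbz.mul ((hG z hz).neg.cexp)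
    refine h2.congr_deriv ?_
    have := hne z hz
    field_simp
    ring
  have h3 : ∀ z ∈ ball (0 : ℂ) 1, b z * exp (- G z) = b 0 * exp (- G 0) := by
    intro z hz
    have hcv : Convex ℝ (ball (0 : ℂ) 1) := convex_ball _ _
    exact hcv.is_const_of_fderivWithin_eq_zero (𝕜 := ℂ) (f := fun w => b w * exp (- G w))
      (fun w hw => (hd w hw).differentiableAt.differentiableWithinAt)
      (fun w hw => by
        rw [fderivWithin_of_isOpen isOpen_ball hw]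
        have := (hd w hw).hasFDerivAt.fderiv
        rw [this]
        ext
        simp) hz h0
  have h4 := h3 z hz
  rw [hG0, Complex.exp_neg (Complex.log (b 0)), Complex.exp_log (hne 0 h0),
    mul_inv_cancel₀ (hne 0 h0), Complex.exp_neg] at h4
  have h5 := Complex.exp_ne_zero (G z)
  field_simp at h4
  exact h4

end OMx

open OMx in
theorem t_OM : S_OM := by
  intro u a hu ha hau
  obtain ⟨hd, hm, hi, hu0⟩ := hu
  have h0 : (0 : ℂ) ∈ ball (0 : ℂ) 1 := by simp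
  have ha0 : a ≠ 0 := by
    rintro rfl
    exact hau ⟨0, h0, hu0⟩
  have ha1 : ‖a‖ < 1 := mem_ball_zero_iff.1 ha
  have hlt : ∀ z ∈ ball (0 : ℂ) 1, ‖u z‖ < 1 := fun z hz => mem_ball_zero_iff.1 (hm hz)
  set b : ℂ → ℂ := fun z => (u z - a) / (1 - (starRingEnd ℂ) a * u z) with hb
  have hbd : DifferentiableOn ℂ b (ball 0 1) :=
    (hd.sub_const _).div ((hd.const_mul _).const_sub 1) fun z hz => mob_ne (hlt z hz) ha1
  have hbne : ∀ z ∈ ball (0 : ℂ) 1, b z ≠ 0 := by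
    intro z hz
    refine div_ne_zero ?_ (mob_ne (hlt z hz) ha1)
    intro h
    exact hau ⟨z, hz, sub_eq_zero.1 h⟩
  obtain ⟨G, hGd, hG⟩ := ex_log hbd hbne
  have hud : HasDerivAt u (deriv u 0) 0 :=
    ((hd 0 h0).differentiableAt (isOpen_ball.mem_nhds h0)).hasDerivAt
  have hb' : HasDerivAt b (deriv u 0 * (1 - (starRingEnd ℂ) a * a)) 0 := by
    have h1 := mob_deriv (c := a) hud (hlt 0 h0) ha1
    rw [hu0, mul_zero, sub_zero, one_pow, div_one] at h1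
    exact h1
  have hGd0 : HasDerivAt G (deriv G 0) 0 :=
    ((hGd 0 h0).differentiableAt (isOpen_ball.mem_nhds h0)).hasDerivAt
  have hb0 : b 0 = -a := by simp [hb, hu0]
  have hb'' : deriv u 0 * (1 - (starRingEnd ℂ) a * a) = b 0 * deriv G 0 := by
    have h1 : HasDerivAt b (exp (G 0) * deriv G 0) 0 := by
      refine hGd0.cexp.congr_of_eventuallyEq ?_
      filter_upwards [isOpen_ball.mem_nhds h0] with z hz using hG z hz
    rw [← hG 0 h0] at h1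
    exact hb'.unique h1
  set q : ℂ → ℂ := fun z => exp (G z / 2) with hq
  have hqd : DifferentiableOn ℂ q (ball 0 1) := (hGd.div_const 2).cexp
  have hqq : ∀ z, q z * q z = exp (G z) := by
    intro z
    rw [hq]
    simp only
    rw [← Complex.exp_add]
    congr 1
    ring
  have hqn : ∀ z ∈ ball (0 : ℂ) 1, ‖q z‖ ^ 2 = ‖b z‖ := by
    intro z hz
    rw [hG z hz, ← hqq z, norm_mul, sq]
  have hqm : MapsTo q (ball 0 1) (ball 0 1) := by
    intro z hz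
    rw [mem_ball_zero_iff]
    have h1 : ‖b z‖ < 1 := mob_lt (hlt z hz) ha1
    have h2 := hqn z hz
    nlinarith [norm_nonneg (q z)]
  have h1 := sp0 hqd hqm
  have hq' : deriv q 0 = q 0 * (deriv G 0 / 2) := (hGd0.div_const 2).cexp.deriv
  have hn1 : ‖q 0‖ ^ 2 = ‖a‖ := by rw [hqn 0 h0, hb0, norm_neg]
  have hn2 : ‖deriv u 0‖ * (1 - ‖a‖ ^ 2) = ‖a‖ * ‖deriv G 0‖ := by
    have h5 : (1 - (starRingEnd ℂ) a * a) = ((1 - ‖a‖ ^ 2 : ℝ) : ℂ) := by
      rw [mul_comm, Complex.mul_conj, Complex.normSq_eq_norm_sq]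
      push_cast
      ring
    have h6 : 0 < 1 - ‖a‖ ^ 2 := by nlinarith [norm_nonneg a]
    have h7 := congrArg norm hb''
    rw [h5, norm_mul, norm_mul, Complex.norm_real, Real.norm_of_nonneg h6.le, hb0,
      norm_neg] at h7
    exact h7
  rw [hq', norm_mul, norm_div, hn1] at h1
  simp only [Complex.norm_ofNat] at h1
  have hs : √‖a‖ = ‖q 0‖ := by
    rw [← hn1, Real.sqrt_sq (norm_nonneg _)]
  rw [hs]
  have hq0 : 0 < ‖q 0‖ := by
    rw [norm_pos_iff]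
    exact Complex.exp_ne_zero _
  have hap : 0 < ‖a‖ := norm_pos_iff.2 ha0
  -- ‖q0‖ * (‖G'‖ / 2) ≤ 1 - ‖a‖
  have h8 : 0 < 1 - ‖a‖ := by linarith
  have h9 : (‖deriv u 0‖ * (1 + ‖a‖)) * (1 - ‖a‖) ≤ (2 * ‖q 0‖) * (1 - ‖a‖) := by
    calc (‖deriv u 0‖ * (1 + ‖a‖)) * (1 - ‖a‖) = ‖deriv u 0‖ * (1 - ‖a‖ ^ 2) := by ring
      _ = ‖a‖ * ‖deriv G 0‖ := hn2
      _ = 2 * ‖q 0‖ * (‖q 0‖ * (‖deriv G 0‖ / 2)) := by rw [← hn1]; ring
      _ ≤ (2 * ‖q 0‖) * (1 - ‖a‖) := mul_le_mul_of_nonneg_left h1 (by positivity)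
  exact le_of_mul_le_mul_right h9 h8

end HD243
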