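import Pool.Agent.R243.HD.CO

open Set Filter Topology Complex Metric

noncomputable section

namespace HD243

theorem lift_un (hLI : S_LI) (hLS : S_LS) {D V : Set ℂ} {f F : ℂ → ℂ} {z : ℂ} (hD : IsOpen D)
    (hV : IsOpen V) (hVs : IsSimplyConnected V) (hF : Cov D F) (hF0 : F 0 = z) (hf : Cov V f)
    (hf0 : f 0 = z) (hVD : V ⊆ D) : ∃ g, Un g ∧ (∀ w ∈ ball (0 : ℂ) 1, F (g w) = f w) ∧
      deriv f 0 = deriv F 0 * deriv g 0 := by
  have hm : MapsTo f (ball 0 1) D := fun w hw => hVD (by rw [← hf.2.1]; exact ⟨w, hw, rfl⟩)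
  obtain ⟨g, g1, g2, g3, g4⟩ := hLI D F f hD hF hf.1 hm (by rw [hF0, hf0])
  refine ⟨g, ⟨g1, g2, ?_, g3⟩, g4, chain0 hF.1 g1 g3 (fun w hw => (g4 w hw).symm)⟩
  intro x hx y hy hxy
  apply hLS V f hV hVs hf hx hy
  rw [← g4 x hx, ← g4 y hy, hxy]

theorem t_RES (hCO : S_CO) (hLI : S_LI) (hLS : S_LS) (hMB : S_MB) : S_RES := by
  intro D₁ D₂ z l₁ l₂ lI lU hD₁ hD₂ hs₁ hs₂ _ hz h₁ h₂ hI hU
  obtain ⟨f₁, c₁, f₁0, m₁⟩ := hMB D₁ z l₁ h₁
  obtain ⟨f₂, c₂, f₂0, m₂⟩ := hMB D₂ z l₂ h₂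
  obtain ⟨fI, cI, fI0, mI⟩ := hMB _ z lI hI
  obtain ⟨fU, cU, fU0, mU⟩ := hMB _ z lU hU
  have hDU : IsOpen (D₁ ∪ D₂) := hD₁.union hD₂
  have hDI : IsOpen (connectedComponentIn (D₁ ∩ D₂) z) := (hD₁.inter hD₂).connectedComponentIn
  obtain ⟨g₁, u₁, e₁, d₁⟩ := lift_un hLI hLS hDU hD₁ hs₁ cU fU0 c₁ f₁0 subset_union_left
  obtain ⟨g₂, u₂, e₂, d₂⟩ := lift_un hLI hLS hDU hD₂ hs₂ cU fU0 c₂ f₂0 subset_union_right
  have key : ∀ ε > 0, lI + lU ≤ l₁ + l₂ + ε * lU := by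
    intro ε hε
    obtain ⟨h, h1, h2, h3, h4, h5⟩ := hCO g₁ g₂ ε u₁ u₂ hε
    have hb : MapsTo h (ball 0 1) (ball 0 1) := by
      intro w hw
      obtain ⟨v, hv, hv2⟩ := (h2 hw).1
      rw [← hv2]; exact u₁.2.1 hv
    have hHd : DifferentiableOn ℂ (fun w => fU (h w)) (ball 0 1) := cU.1.comp h1 hb
    have hH0 : fU (h 0) = z := by rw [h3, fU0]
    have hmaps : MapsTo (fun w => fU (h w)) (ball 0 1) (D₁ ∩ D₂) := by
      intro w hw
      obtain ⟨⟨v, hv, hv2⟩, ⟨v', hv', hv2'⟩⟩ := h2 hw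
      constructor
      · show fU (h w) ∈ D₁
        rw [← hv2, e₁ v hv, ← c₁.2.1]; exact ⟨v, hv, rfl⟩
      · show fU (h w) ∈ D₂
        rw [← hv2', e₂ v' hv', ← c₂.2.1]; exact ⟨v', hv', rfl⟩
    have hmaps2 : MapsTo (fun w => fU (h w)) (ball 0 1) (connectedComponentIn (D₁ ∩ D₂) z) := by
      have hpre : IsPreconnected ((fun w => fU (h w)) '' ball 0 1) :=
        (convex_ball (0 : ℂ) 1).isPreconnected.image _ hHd.continuousOn
      have hsub := hpre.subset_connectedComponentIn (x := z)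
        ⟨0, mem_ball_self one_pos, hH0⟩ (image_subset_iff.2 hmaps)
      exact fun w hw => hsub ⟨w, hw, rfl⟩
    obtain ⟨g, g1, g2, g3, g4⟩ := hLI _ fI (fun w => fU (h w)) hDI cI hHd hmaps2
      (by show fU (h 0) = fI 0; rw [hH0, fI0])
    have hdH : deriv (fun w => fU (h w)) 0 = deriv fU 0 * deriv h 0 :=
      chain0 cU.1 h1 h3 (fun w _ => rfl)
    have hdH2 : deriv (fun w => fU (h w)) 0 = deriv fI 0 * deriv g 0 :=
      chain0 cI.1 g1 g3 (fun w hw => (g4 w hw).symm)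
    have hg1 : ‖deriv g 0‖ ≤ 1 := by
      have := Complex.norm_deriv_le_one_of_mapsTo_ball (c := (0 : ℂ)) (R := 1) (f := g) g1
        (by rw [g3]; exact fun x hx => ball_subset_closedBall (g2 hx)) one_pos
      exact this
    have hU0 : 0 < ‖deriv fU 0‖ := by
      rcases (norm_nonneg (deriv fU 0)).lt_or_eq with h | h
      · exact h
      · rw [← h, mul_zero] at mU; norm_num at mU
    have hI0 : 0 < ‖deriv fI 0‖ := by
      rcases (norm_nonneg (deriv fI 0)).lt_or_eq with h | h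
      · exact h
      · rw [← h, mul_zero] at mI; norm_num at mI
    have h10 : 0 < ‖deriv g₁ 0‖ := by
      rcases (norm_nonneg (deriv g₁ 0)).lt_or_eq with h | h
      · exact h
      · rw [d₁, norm_mul, ← h, mul_zero, mul_zero] at m₁; norm_num at m₁
    have h20 : 0 < ‖deriv g₂ 0‖ := by
      rcases (norm_nonneg (deriv g₂ 0)).lt_or_eq with h | h
      · exact h
      · rw [d₂, norm_mul, ← h, mul_zero, mul_zero] at m₂; norm_num at m₂
    have hh0 : 0 < ‖deriv h 0‖ := norm_pos_iff.2 h4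
    have hle : ‖deriv fU 0‖ * ‖deriv h 0‖ ≤ ‖deriv fI 0‖ := by
      rw [← norm_mul, ← hdH, hdH2, norm_mul]
      exact mul_le_of_le_one_right (norm_nonneg _) hg1
    have eU : lU = 1 / ‖deriv fU 0‖ := by rw [eq_div_iff hU0.ne']; exact mU
    have eI : lI = 1 / ‖deriv fI 0‖ := by rw [eq_div_iff hI0.ne']; exact mI
    have e1' : l₁ = (1 / ‖deriv fU 0‖) * (1 / ‖deriv g₁ 0‖) := by
      rw [d₁, norm_mul] at m₁
      field_simp
      linarith
    have e2' : l₂ = (1 / ‖deriv fU 0‖) * (1 / ‖deriv g₂ 0‖) := by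
      rw [d₂, norm_mul] at m₂
      field_simp
      linarith
    have hI1 : lI ≤ (1 / ‖deriv fU 0‖) * (1 / ‖deriv h 0‖) := by
      rw [eI, one_div_mul_one_div]
      exact one_div_le_one_div_of_le (by positivity) hle
    have hI2 : (1 / ‖deriv fU 0‖) * (1 / ‖deriv h 0‖)
        ≤ (1 / ‖deriv fU 0‖) * (1 / ‖deriv g₁ 0‖ + 1 / ‖deriv g₂ 0‖ - 1 + ε) :=
      mul_le_mul_of_nonneg_left h5 (by positivity)
    have hI3 : (1 / ‖deriv fU 0‖) * (1 / ‖deriv g₁ 0‖ + 1 / ‖deriv g₂ 0‖ - 1 + ε)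
        = l₁ + l₂ - lU + ε * lU := by
      rw [e1', e2', eU]; ring
    linarith
  have hlU : 0 < lU := by
    by_contra hcon
    push Not at hcon
    have := mul_nonpos_of_nonpos_of_nonneg hcon (norm_nonneg (deriv fU 0))
    linarith
  by_contra hcon
  push Not at hcon
  have := key ((lI + lU - (l₁ + l₂)) / (2 * lU)) (div_pos (by linarith) (by linarith))
  have h2 : (lI + lU - (l₁ + l₂)) / (2 * lU) * lU = (lI + lU - (l₁ + l₂)) / 2 := by
    field_simp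
  rw [h2] at this
  linarith

end HD243
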