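import Pool.Agent.R243.HD.Defs
import Pool.Agent.Y405.LW.Compl
import Pool.Agent.Y365.LW.RMT
import Pool.Agent.W363.JQ.Dom
import Pool.Agent.Helper202.Riemann

set_option autoImplicit false

/-! # Project HD, pieces CN and RM: wrapper of the Riemann mapping theorem -/

open Set Filter Topology Complex Metric

noncomputable section

namespace HD243

theorem t_CN : S_CN := by
  intro u hu
  refine Y405LW.s_compl u hu.1 hu.2.2.1 ?_
  exact isBounded_ball.subset hu.2.1.image_subset

namespace RMaux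

open Pool.Agent.Helper202.Riemann

lemma bl_bl {a z : ℂ} (ha : ‖a‖ < 1) (hz : ‖z‖ < 1) : bl (-a) (bl a z) = z := by
  have h1 := bl_den_ne ha hz
  have h2 := bl_norm_lt ha hz
  have ha' : ‖-a‖ < 1 := by rwa [norm_neg]
  have h3 := bl_den_ne ha' h2
  unfold bl at h3 ⊢
  rw [map_neg] at h3 ⊢
  rw [div_eq_iff h3]
  have hw := div_mul_cancel₀ (z - a) h1
  linear_combination hw

lemma bl_image {a : ℂ} (ha : ‖a‖ < 1) : bl (-a) '' ball 0 1 = ball 0 1 := by
  have ha' : ‖-a‖ < 1 := by rwa [norm_neg]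
  apply Subset.antisymm
  · rintro _ ⟨z, hz, rfl⟩
    rw [mem_ball_zero_iff] at hz ⊢
    exact bl_norm_lt ha' hz
  · intro z hz
    rw [mem_ball_zero_iff] at hz
    refine ⟨bl a z, ?_, bl_bl ha hz⟩
    rw [mem_ball_zero_iff]
    exact bl_norm_lt ha hz

end RMaux

open RMaux Pool.Agent.Helper202.Riemann in
theorem t_RM : S_RM := by
  intro C hC hCc hball h0
  set W : Set ℂ := connectedComponentIn Cᶜ 0 with hW
  have h0C : (0 : ℂ) ∈ Cᶜ := h0
  have hWo : IsOpen W := hC.isOpen_compl.connectedComponentIn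
  have h0W : (0 : ℂ) ∈ W := mem_connectedComponentIn h0C
  have hWc : IsConnected W := isConnected_connectedComponentIn_iff.2 h0C
  have hWC : W ⊆ Cᶜ := connectedComponentIn_subset _ _
  have hWb : W ⊆ ball 0 1 := by
    intro z hz
    rw [mem_ball_zero_iff]
    by_contra hn
    exact hWC hz (hball (not_lt.1 hn))
  have hfr : frontier W ⊆ C := by
    intro x hx
    by_contra hxC
    have hx1 : x ∈ closure W := frontier_subset_closure hx
    have hx2 : x ∉ W := by
      intro h
      rw [frontier, hWo.interior_eq] at hx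
      exact hx.2 h
    apply hx2
    set V : Set ℂ := connectedComponentIn Cᶜ x with hV
    have hVo : IsOpen V := hC.isOpen_compl.connectedComponentIn
    have hxV : x ∈ V := mem_connectedComponentIn hxC
    obtain ⟨y, hyV, hyW⟩ := mem_closure_iff.1 hx1 V hVo hxV
    have e1 : connectedComponentIn Cᶜ x = connectedComponentIn Cᶜ y :=
      connectedComponentIn_eq hyV
    have e2 : connectedComponentIn Cᶜ 0 = connectedComponentIn Cᶜ y :=
      connectedComponentIn_eq hyW
    rw [hW, e2, ← e1]
    exact hxV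
  have hdis : Disjoint W C := by
    rw [Set.disjoint_left]
    exact fun z hz hzC => hWC hz hzC
  have hWcc : IsConnected Wᶜ := Pool.Agent.W363.JQ.comp C W hC hCc hWo hWc hdis hfr
  obtain ⟨F, hFd, hFi, hFW⟩ := Y365.LW.rmt W hWo hWc (isBounded_ball.subset hWb) hWcc
  have h0F : (0 : ℂ) ∈ F '' ball 0 1 := by rw [hFW]; exact h0W
  obtain ⟨a, ha, hFa⟩ := h0F
  rw [mem_ball_zero_iff] at ha
  have ha' : ‖-a‖ < 1 := by rwa [norm_neg]
  have hbm : MapsTo (bl (-a)) (ball 0 1) (ball 0 1) := by
    intro z hz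
    rw [mem_ball_zero_iff] at hz ⊢
    exact bl_norm_lt ha' hz
  have himg : (fun z => F (bl (-a) z)) '' ball 0 1 = W := by
    have : (fun z => F (bl (-a) z)) '' ball 0 1 = F '' (bl (-a) '' ball 0 1) := by
      rw [image_image]
    rw [this, bl_image ha, hFW]
  refine ⟨fun z => F (bl (-a) z), ⟨?_, ?_, ?_, ?_⟩, himg⟩
  · refine hFd.comp ?_ hbm
    intro z hz
    rw [mem_ball_zero_iff] at hz
    exact (bl_hasDerivAt ha' hz).differentiableAt.differentiableWithinAt
  · intro z hz
    apply hWb
    rw [← himg]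
    exact mem_image_of_mem _ hz
  · intro z hz z' hz' h
    have h1 := hFi (hbm hz) (hbm hz') h
    rw [mem_ball_zero_iff] at hz hz'
    exact bl_inj ha' hz hz' h1
  · show F (bl (-a) 0) = 0
    rw [bl_zero, neg_neg]
    exact hFa

end HD243
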