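import Pool.Agent.R243.HD.Defs

open Set Filter Topology Complex Metric

noncomputable section

namespace HD243

namespace RPaux

lemma avg_deriv {F F' : ℂ → ℂ} {r : ℝ} (hr : 0 < r)
    (h : ∀ z ∈ sphere (0:ℂ) r, HasDerivAt F (F' z) z) :
    Real.circleAverage (fun z => z * F' z) 0 r = 0 := by
  rw [Real.circleAverage_eq_circleIntegral hr.ne']
  have e : (∮ z in C(0, r), (z - 0)⁻¹ • (z * F' z)) = ∮ z in C(0, r), F' z := by
    refine circleIntegral.integral_congr hr.le (fun z hz => ?_)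
    have hz0 : z ≠ 0 := by
      rintro rfl
      simp at hz
      exact hr.ne hz
    simp only [sub_zero, smul_eq_mul]
    field_simp
  rw [e, circleIntegral.integral_eq_zero_of_hasDerivWithinAt hr.le
    (fun z hz => (h z hz).hasDerivWithinAt)]
  simp

lemma avg_re {f : ℂ → ℂ} {r : ℝ} (hf : CircleIntegrable f 0 r) :
    Real.circleAverage (fun z => (f z).re) 0 r = (Real.circleAverage f 0 r).re := by
  have := Complex.reCLM.circleAverage_comp_comm hf
  exact this

lemma ci {f : ℂ → ℂ} {r : ℝ} (hr : 0 < r) (hf : ContinuousOn f (sphere 0 r)) :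
    CircleIntegrable f 0 r := hf.circleIntegrable hr.le

lemma mem_slit {w ξ : ℂ} {r : ℝ} (hw : ‖w‖ < r) (hξ : ‖ξ‖ = r) : 1 - w / ξ ∈ slitPlane := by
  refine Or.inl ?_
  have hr : 0 < r := lt_of_le_of_lt (norm_nonneg _) hw
  have h1 : ‖w / ξ‖ < 1 := by
    rw [norm_div, hξ, div_lt_one hr]; exact hw
  have h2 : (w / ξ).re ≤ ‖w / ξ‖ := Complex.re_le_norm _
  simp only [sub_re, one_re]
  linarith

/-- the holomorphic primitive -/
def IsPrim (P Q : ℂ → ℂ) (R : ℝ) : Prop :=
  Q 0 = 0 ∧ ∀ z ∈ ball (0:ℂ) R, HasDerivAt Q (dslope P 0 z) z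

lemma exists_prim {P : ℂ → ℂ} {R : ℝ} (hR : 0 < R) (hP : DifferentiableOn ℂ P (ball 0 R)) :
    ∃ Q, IsPrim P Q R := by
  have h0 : ball (0:ℂ) R ∈ 𝓝 (0:ℂ) := isOpen_ball.mem_nhds (mem_ball_self hR)
  have hd : DifferentiableOn ℂ (dslope P 0) (ball 0 R) :=
    (Complex.differentiableOn_dslope h0).2 hP
  obtain ⟨Q, hQ0, hQ⟩ := hd.isExactOn_ball.with_val_at 0 0
  exact ⟨Q, hQ0, hQ⟩

lemma dslope_mul {P : ℂ → ℂ} {z : ℂ} : z * dslope P 0 z = P z - P 0 := by
  by_cases hz : z = 0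
  · rw [hz]; ring
  · rw [dslope_of_ne _ hz, slope_def_field]
    field_simp
    ring

lemma avgA0 {P Q : ℂ → ℂ} {R r : ℝ} {w : ℂ} (hr : 0 < r) (hrR : r < R)
    (hP : DifferentiableOn ℂ P (ball 0 R)) (hQ : IsPrim P Q R) (hw : ‖w‖ < r) :
    Real.circleAverage (fun ξ => (P ξ).re * Real.log ‖1 - w / ξ‖) 0 r = -(1 / 2) * (Q w).re := by
  have hsph : ∀ ξ ∈ sphere (0:ℂ) r, ‖ξ‖ = r := fun ξ hξ => by simpa using hξ
  have hsne : ∀ ξ ∈ sphere (0:ℂ) r, ξ ≠ 0 := fun ξ hξ h => by
    have := hsph ξ hξ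
    rw [h, norm_zero] at this
    exact hr.ne this
  have hsub : sphere (0:ℂ) r ⊆ ball 0 R := fun ξ hξ => by
    rw [mem_ball_zero_iff, hsph ξ hξ]; exact hrR
  have hclsub : closedBall (0:ℂ) r ⊆ ball 0 R := closedBall_subset_ball hrR
  have habs : |r| = r := abs_of_pos hr
  have hQd : DifferentiableOn ℂ Q (ball 0 R) :=
    fun z hz => (hQ.2 z hz).differentiableAt.differentiableWithinAt
  have hwb : w ∈ ball (0:ℂ) |r| := by rw [habs]; simpa using hw
  have hcP : ContinuousOn P (sphere 0 r) := hP.continuousOn.mono hsub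
  have hcQ : ContinuousOn Q (sphere 0 r) := hQd.continuousOn.mono hsub
  -- the logarithm
  let lam : ℂ → ℂ := fun ξ => Complex.log (1 - w / ξ)
  have hlamd : ∀ ξ ∈ sphere (0:ℂ) r, HasDerivAt lam ((w / ξ ^ 2) / (1 - w / ξ)) ξ := by
    intro ξ hξ
    have h1 : HasDerivAt (fun ξ : ℂ => 1 - w / ξ) (w / ξ ^ 2) ξ := by
      have h2 := ((hasDerivAt_inv (hsne ξ hξ)).const_mul w).const_sub 1
      refine h2.congr_deriv ?_
      field_simp
    exact h1.clog (mem_slit hw (hsph ξ hξ))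
  have hclam : ContinuousOn lam (sphere 0 r) :=
    fun ξ hξ => (hlamd ξ hξ).continuousAt.continuousWithinAt
  have hne : ∀ ξ ∈ sphere (0:ℂ) r, ξ - w ≠ 0 := by
    intro ξ hξ h
    have : ξ = w := sub_eq_zero.1 h
    rw [← this, hsph ξ hξ] at hw
    exact lt_irrefl _ hw
  -- (i)
  have e1 : Real.circleAverage (fun z => (P z - P 0) * lam z + Q z * (w / (z - w))) 0 r = 0 := by
    refine (Real.circleAverage_congr_sphere (fun z hz => ?_)).trans
      (avg_deriv hr (F := fun z => Q z * lam z)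
      (F' := fun z => dslope P 0 z * lam z + Q z * ((w / z ^ 2) / (1 - w / z)))
      (fun z hz => (hQ.2 z (hsub hz)).mul (hlamd z hz)))
    rw [habs] at hz
    have hz0 := hsne z hz
    have hzw := hne z hz
    have h1 : (1:ℂ) - w / z = (z - w) / z := by field_simp
    rw [mul_add, ← mul_assoc, dslope_mul, h1]
    congr 1
    field_simp
  -- (ii)
  have hdQ : DiffContOnCl ℂ Q (ball 0 |r|) := by
    rw [habs]
    exact DifferentiableOn.diffContOnCl (hQd.mono (by
      rw [closure_ball _ hr.ne']; exact hclsub))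
  have e2 : Real.circleAverage (fun z => Q z * (w / (z - w))) 0 r = Q w := by
    have h1 := hdQ.circleAverage_smul_div hwb
    have h2 := hdQ.circleAverage
    rw [hQ.1] at h2
    have i1 : CircleIntegrable (fun z => ((z - 0) / (z - w)) • Q z) 0 r := by
      have hc : ContinuousOn (fun z : ℂ => (z - 0) / (z - w)) (sphere 0 r) :=
        ContinuousOn.div (by fun_prop) (by fun_prop) (fun z hz => hne z hz)
      exact ci hr (hc.smul hcQ)
    have i2 : CircleIntegrable Q 0 r := ci hr hcQ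
    have h3 := Real.circleAverage_fun_sub i1 i2
    rw [h1, h2, sub_zero] at h3
    rw [← h3]
    refine Real.circleAverage_congr_sphere (fun z hz => ?_)
    rw [habs] at hz
    have hzw := hne z hz
    simp only [sub_zero, smul_eq_mul]
    field_simp
    ring
  -- (iii)
  let H : ℂ → ℂ := fun z => Complex.log (1 - (starRingEnd ℂ) w * z / (r:ℂ) ^ 2)
  have hHs : ∀ z ∈ closedBall (0:ℂ) r, 1 - (starRingEnd ℂ) w * z / (r:ℂ) ^ 2 ∈ slitPlane := by
    intro z hz
    refine Or.inl ?_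
    have hz' : ‖z‖ ≤ r := by simpa using hz
    have h1 : ‖(starRingEnd ℂ) w * z / (r:ℂ) ^ 2‖ < 1 := by
      rw [norm_div, norm_mul, Complex.norm_conj, norm_pow, Complex.norm_real,
        Real.norm_of_nonneg hr.le, div_lt_one (by positivity)]
      nlinarith [norm_nonneg w, norm_nonneg z]
    have h2 := Complex.re_le_norm ((starRingEnd ℂ) w * z / (r:ℂ) ^ 2)
    simp only [sub_re, one_re]
    linarith
  have hHd : ∀ z ∈ closedBall (0:ℂ) r, DifferentiableAt ℂ H z := by
    intro z hz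
    refine DifferentiableAt.clog (by fun_prop) (hHs z hz)
  have hconj : ∀ z ∈ sphere (0:ℂ) r, (starRingEnd ℂ) (lam z) = H z := by
    intro z hz
    have hz0 := hsne z hz
    have harg : (1 - w / z).arg ≠ Real.pi :=
      (mem_slitPlane_iff_arg.1 (mem_slit hw (hsph z hz))).1
    simp only [lam, H]
    rw [← Complex.log_conj _ harg]
    congr 1
    rw [map_sub, map_one, map_div₀]
    have hr0 : (r:ℂ) ≠ 0 := by exact_mod_cast hr.ne'
    have hzz : (starRingEnd ℂ) z * z = (r:ℂ) ^ 2 := by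
      rw [mul_comm, Complex.mul_conj, Complex.normSq_eq_norm_sq, hsph z hz]
      push_cast; ring
    have hcz : (starRingEnd ℂ) z ≠ 0 := by simpa using hz0
    congr 1
    rw [← hzz]
    field_simp
  have hHdiff : ∀ G : ℂ → ℂ, (∀ z ∈ closedBall (0:ℂ) r, DifferentiableAt ℂ G z) →
      Real.circleAverage G 0 r = G 0 := by
    intro G hG
    refine DiffContOnCl.circleAverage ?_
    rw [habs]
    refine DifferentiableOn.diffContOnCl ?_
    rw [closure_ball _ hr.ne']
    exact fun z hz => (hG z hz).differentiableWithinAt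
  have hPd : ∀ z ∈ closedBall (0:ℂ) r, DifferentiableAt ℂ P z := fun z hz =>
    hP.differentiableAt (isOpen_ball.mem_nhds (hclsub hz))
  have hH0 : H 0 = 0 := by simp [H]
  have e3 : Real.circleAverage H 0 r = 0 := by rw [hHdiff H hHd, hH0]
  have e4 : Real.circleAverage (fun z => P z * H z) 0 r = 0 := by
    have h1 := hHdiff (fun z => P z * H z) (fun z hz => (hPd z hz).mul (hHd z hz))
    rw [h1, hH0, mul_zero]
  have hcH : ContinuousOn H (sphere 0 r) :=
    fun z hz => (hHd z (sphere_subset_closedBall hz)).continuousAt.continuousWithinAt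
  have e5 : (Real.circleAverage (fun z => P 0 * lam z) 0 r) = 0 := by
    have h1 : Real.circleAverage (fun z => (starRingEnd ℂ) (H z)) 0 r =
        (starRingEnd ℂ) (Real.circleAverage H 0 r) := by
      have := (Complex.conjCLE.toContinuousLinearMap).circleAverage_comp_comm (ci hr hcH)
      exact this
    have h2 : Real.circleAverage lam 0 r = Real.circleAverage (fun z => (starRingEnd ℂ) (H z)) 0 r := by
      refine Real.circleAverage_congr_sphere (fun z hz => ?_)
      rw [habs] at hz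
      rw [← hconj z hz, Complex.conj_conj]
    have h3 : Real.circleAverage (fun z => P 0 • lam z) 0 r = P 0 • Real.circleAverage lam 0 r :=
      Real.circleAverage_fun_smul
    simp only [smul_eq_mul] at h3
    rw [h3, h2, h1, e3]
    simp
  -- combine
  have iP : CircleIntegrable (fun z => P z * lam z) 0 r := ci hr (hcP.mul hclam)
  have iP0 : CircleIntegrable (fun z => P 0 * lam z) 0 r := ci hr (continuousOn_const.mul hclam)
  have iPP : CircleIntegrable (fun z => (P z - P 0) * lam z) 0 r :=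
    ci hr ((hcP.sub continuousOn_const).mul hclam)
  have iQ : CircleIntegrable (fun z => Q z * (w / (z - w))) 0 r := by
    refine ci hr (hcQ.mul ?_)
    exact ContinuousOn.div (by fun_prop) (by fun_prop) (fun z hz => hne z hz)
  have iH : CircleIntegrable (fun z => P z * H z) 0 r := ci hr (hcP.mul hcH)
  have e6 : Real.circleAverage (fun z => P z * lam z) 0 r = - Q w := by
    have h1 := Real.circleAverage_fun_add iPP iQ
    rw [e1, e2] at h1
    have h2 : Real.circleAverage (fun z => (P z - P 0) * lam z) 0 r =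
        Real.circleAverage (fun z => P z * lam z) 0 r - 0 := by
      have h3 := Real.circleAverage_fun_sub iP iP0
      rw [e5] at h3
      rw [← h3]
      refine Real.circleAverage_congr_sphere (fun z hz => ?_)
      ring
    rw [h2, sub_zero] at h1
    exact eq_neg_of_add_eq_zero_left h1.symm
  have e7 : Real.circleAverage (fun ξ => (P ξ).re * Real.log ‖1 - w / ξ‖) 0 r =
      Real.circleAverage (fun z => (1 / 2 : ℝ) • ((P z * lam z).re + (P z * H z).re)) 0 r := by
    refine Real.circleAverage_congr_sphere (fun z hz => ?_)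
    rw [habs] at hz
    have h1 : Real.log ‖1 - w / z‖ = (lam z).re := by simp only [lam]; rw [Complex.log_re]
    rw [h1, ← hconj z hz]
    simp only [mul_re, Complex.conj_re, Complex.conj_im, smul_eq_mul]
    ring
  rw [e7, Real.circleAverage_fun_smul, Real.circleAverage_fun_add]
  · rw [avg_re iP, avg_re iH, e6, e4]
    simp
  · have : ContinuousOn (fun z => (P z * lam z).re) (sphere 0 r) :=
      Complex.continuous_re.comp_continuousOn (hcP.mul hclam)
    exact this.circleIntegrable hr.le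
  · have : ContinuousOn (fun z => (P z * H z).re) (sphere 0 r) :=
      Complex.continuous_re.comp_continuousOn (hcP.mul hcH)
    exact this.circleIntegrable hr.le

/-- integrability -/
lemma int_log {w : ℂ} {r : ℝ} :
    CircleIntegrable (fun ξ => Real.log ‖1 - w / ξ‖) 0 r :=
  MeromorphicOn.circleIntegrable_log_norm (f := fun ξ => 1 - w / ξ) (fun z _ => by fun_prop)

lemma int_b_log {P : ℂ → ℂ} {R r : ℝ} {w : ℂ} (hr : 0 < r) (hrR : r < R)
    (hP : DifferentiableOn ℂ P (ball 0 R)) :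
    CircleIntegrable (fun ξ => (P ξ).re * Real.log ‖1 - w / ξ‖) 0 r := by
  refine CircleIntegrable.fun_continuousOn_mul int_log ?_
  refine Complex.continuous_re.comp_continuousOn (hP.continuousOn.mono ?_)
  intro ξ hξ
  rw [mem_sphere_zero_iff_norm, abs_of_pos hr] at hξ
  rw [mem_ball_zero_iff, hξ]
  exact hrR

/-- the exceptional point on the circle -/
lemma ae_ne (w : ℂ) {r : ℝ} (hr : 0 < r) :
    ∀ᵐ θ : ℝ, circleMap 0 r θ ≠ w := by
  have h1 : (circleMap 0 r ⁻¹' {w}).Countable :=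
    (Set.countable_singleton w).preimage_circleMap 0 hr.ne'
  have h2 := h1.ae_notMem MeasureTheory.volume
  filter_upwards [h2] with θ hθ h
  exact hθ h

lemma logbound {u : ℂ} (hu : ‖u‖ = 1) (hu1 : u ≠ 1) {x : ℝ} (hx0 : 0 ≤ x) (hx1 : x < 1) :
    |Real.log ‖1 - (x:ℂ) * u‖| ≤ |Real.log ‖1 - u‖| + Real.log 2 := by
  have hxu : ‖(x:ℂ) * u‖ = x := by rw [norm_mul, hu, mul_one, Complex.norm_real,
    Real.norm_of_nonneg hx0]
  have h1 : 1 - x ≤ ‖1 - (x:ℂ) * u‖ := by
    have := norm_sub_norm_le (1:ℂ) ((x:ℂ) * u)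
    rwa [norm_one, hxu] at this
  have h2 : ‖1 - (x:ℂ) * u‖ ≤ 2 := by
    have := norm_sub_le (1:ℂ) ((x:ℂ) * u)
    rw [norm_one, hxu] at this
    linarith
  have hpos : 0 < ‖1 - (x:ℂ) * u‖ := by linarith
  have h3 : ‖1 - u‖ ≤ 2 * ‖1 - (x:ℂ) * u‖ := by
    have e : 1 - u = (1 - (x:ℂ) * u) - ((1 - x : ℝ) : ℂ) * u := by push_cast; ring
    have h4 : ‖((1 - x : ℝ) : ℂ) * u‖ = 1 - x := by
      rw [norm_mul, hu, mul_one, Complex.norm_real, Real.norm_of_nonneg (by linarith)]
    calc ‖1 - u‖ = ‖(1 - (x:ℂ) * u) - ((1 - x : ℝ) : ℂ) * u‖ := by rw [← e]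
      _ ≤ ‖1 - (x:ℂ) * u‖ + ‖((1 - x : ℝ) : ℂ) * u‖ := norm_sub_le _ _
      _ ≤ 2 * ‖1 - (x:ℂ) * u‖ := by rw [h4]; linarith
  have hpos1 : 0 < ‖1 - u‖ := norm_pos_iff.2 (sub_ne_zero.2 hu1.symm)
  have h5 : Real.log ‖1 - u‖ ≤ Real.log 2 + Real.log ‖1 - (x:ℂ) * u‖ := by
    rw [← Real.log_mul (by norm_num) hpos.ne']
    exact Real.log_le_log hpos1 h3
  have h6 : Real.log ‖1 - (x:ℂ) * u‖ ≤ Real.log 2 := Real.log_le_log hpos h2
  have h7 := neg_abs_le (Real.log ‖1 - u‖)
  have h8 := abs_nonneg (Real.log ‖1 - u‖)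
  rw [abs_le]
  constructor <;> linarith

lemma avgA1 {P Q : ℂ → ℂ} {R r : ℝ} {w : ℂ} (hr : 0 < r) (hrR : r < R)
    (hP : DifferentiableOn ℂ P (ball 0 R)) (hQ : IsPrim P Q R) (hw : ‖w‖ ≤ r) :
    Real.circleAverage (fun ξ => (P ξ).re * Real.log ‖1 - w / ξ‖) 0 r = -(1 / 2) * (Q w).re := by
  rcases hw.lt_or_eq with hw | hw
  · exact avgA0 hr hrR hP hQ hw
  have hw0 : w ≠ 0 := fun h => by rw [h, norm_zero] at hw; exact hr.ne hw
  let x : ℕ → ℝ := fun n => (n:ℝ) / (n + 1)
  have hx0 : ∀ n, 0 ≤ x n := fun n => by simp only [x]; positivity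
  have hx1 : ∀ n, x n < 1 := fun n => by
    simp only [x]; rw [div_lt_one (by positivity)]; linarith
  have hxlim : Tendsto x atTop (𝓝 1) := tendsto_natCast_div_add_atTop (1:ℝ)
  have hxc : Tendsto (fun n => ((x n : ℝ) : ℂ)) atTop (𝓝 1) := by
    have := (Complex.continuous_ofReal.tendsto (1:ℝ)).comp hxlim
    rw [Complex.ofReal_one] at this
    exact this
  have hxw : Tendsto (fun n => ((x n : ℝ) : ℂ) * w) atTop (𝓝 w) := by
    simpa using hxc.mul_const w
  have h0 : ∀ n, Real.circleAverage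
      (fun ξ => (P ξ).re * Real.log ‖1 - ((x n : ℝ) : ℂ) * w / ξ‖) 0 r =
      -(1 / 2) * (Q (((x n : ℝ) : ℂ) * w)).re := by
    intro n
    refine avgA0 hr hrR hP hQ ?_
    rw [norm_mul, Complex.norm_real, Real.norm_of_nonneg (hx0 n), hw]
    nlinarith [hx1 n]
  have hR : Tendsto (fun n => -(1 / 2) * (Q (((x n : ℝ) : ℂ) * w)).re) atTop
      (𝓝 (-(1 / 2) * (Q w).re)) := by
    have hQc : ContinuousAt Q w := (hQ.2 w (by
      rw [mem_ball_zero_iff, hw]; exact hrR)).continuousAt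
    exact ((Complex.continuous_re.tendsto _).comp (hQc.tendsto.comp hxw)).const_mul _
  have hL : Tendsto (fun n => Real.circleAverage
      (fun ξ => (P ξ).re * Real.log ‖1 - ((x n : ℝ) : ℂ) * w / ξ‖) 0 r) atTop
      (𝓝 (Real.circleAverage (fun ξ => (P ξ).re * Real.log ‖1 - w / ξ‖) 0 r)) := by
    unfold Real.circleAverage
    refine Tendsto.const_smul ?_ _
    refine intervalIntegral.tendsto_integral_filter_of_dominated_convergence
      (fun θ => |(P (circleMap 0 r θ)).re| * (|Real.log ‖1 - w / circleMap 0 r θ‖| + Real.log 2))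
      ?_ ?_ ?_ ?_
    · refine Eventually.of_forall (fun n => ?_)
      exact (int_b_log (w := ((x n : ℝ) : ℂ) * w) hr hrR hP).aestronglyMeasurable_restrict_uIoc
    · refine Eventually.of_forall (fun n => ?_)
      filter_upwards [ae_ne w hr] with θ hθ _
      rw [norm_mul, Real.norm_eq_abs, Real.norm_eq_abs]
      refine mul_le_mul_of_nonneg_left ?_ (abs_nonneg _)
      have hn : ‖circleMap 0 r θ‖ = r := by simp [abs_of_pos hr]
      have hne : circleMap 0 r θ ≠ 0 := fun h => by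
        rw [h, norm_zero] at hn; exact hr.ne hn
      have hu : ‖w / circleMap 0 r θ‖ = 1 := by rw [norm_div, hn, hw, div_self hr.ne']
      have hu1 : w / circleMap 0 r θ ≠ 1 := fun h => by
        rw [div_eq_one_iff_eq hne] at h
        exact hθ h.symm
      have := logbound hu hu1 (hx0 n) (hx1 n)
      rwa [← mul_div_assoc] at this
    · have h1 : CircleIntegrable (fun ξ => |(P ξ).re| * (|Real.log ‖1 - w / ξ‖| + Real.log 2))
          0 r := by
        refine CircleIntegrable.fun_continuousOn_mul ?_ ?_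
        · exact (int_log.abs).add (circleIntegrable_const _ _ _)
        · refine ContinuousOn.abs ?_
          refine Complex.continuous_re.comp_continuousOn (hP.continuousOn.mono ?_)
          intro ξ hξ
          rw [mem_sphere_zero_iff_norm, abs_of_pos hr] at hξ
          rw [mem_ball_zero_iff, hξ]
          exact hrR
      exact h1
    · filter_upwards [ae_ne w hr] with θ hθ _
      have hn : ‖circleMap 0 r θ‖ = r := by simp [abs_of_pos hr]
      have hne : circleMap 0 r θ ≠ 0 := fun h => by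
        rw [h, norm_zero] at hn; exact hr.ne hn
      refine Tendsto.const_mul _ ?_
      have h1 : Tendsto (fun n => 1 - ((x n : ℝ) : ℂ) * w / circleMap 0 r θ) atTop
          (𝓝 (1 - w / circleMap 0 r θ)) := (hxw.div_const _).const_sub 1
      have hne1 : ‖1 - w / circleMap 0 r θ‖ ≠ 0 := by
        rw [norm_ne_zero_iff, sub_ne_zero]
        intro h
        have h' := h.symm
        rw [div_eq_one_iff_eq hne] at h'
        exact hθ h'.symm
      exact (Real.continuousAt_log hne1).tendsto.comp h1.norm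
  exact tendsto_nhds_unique (hL.congr (fun n => h0 n)) hR |>.symm ▸ rfl

/-- fundamental theorem of calculus along the ray -/
lemma ray {P Q : ℂ → ℂ} {R : ℝ} {ζ : ℂ} (hR : 1 < R) (hP : DifferentiableOn ℂ P (ball 0 R))
    (hQ : IsPrim P Q R) (hζ : ‖ζ‖ < 1) {s₁ s₂ : ℝ} (h1 : 0 ≤ s₁) (h2 : 0 ≤ s₂) :
    ∫ t in s₁..s₂, (P ((Real.exp (-t) : ℂ) * ζ)).re =
      (Q ((Real.exp (-s₁) : ℂ) * ζ)).re - (Q ((Real.exp (-s₂) : ℂ) * ζ)).re +
        (s₂ - s₁) * (P 0).re := by
  have hmem : ∀ t ∈ uIcc s₁ s₂, ((Real.exp (-t) : ℂ) * ζ) ∈ ball (0:ℂ) R := by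
    intro t ht
    have ht0 : 0 ≤ t := le_trans (le_min h1 h2) ht.1
    rw [mem_ball_zero_iff, norm_mul, Complex.norm_real, Real.norm_of_nonneg (Real.exp_pos _).le]
    have h3 : Real.exp (-t) ≤ 1 := Real.exp_le_one_iff.2 (by linarith)
    nlinarith [norm_nonneg ζ, Real.exp_pos (-t)]
  have hder : ∀ t ∈ uIcc s₁ s₂, HasDerivAt
      (fun t : ℝ => -(Q ((Real.exp (-t) : ℂ) * ζ)).re + t * (P 0).re)
      ((P ((Real.exp (-t) : ℂ) * ζ)).re) t := by
    intro t ht
    have e1 : HasDerivAt (fun t : ℝ => ((Real.exp (-t) : ℝ) : ℂ)) (((-Real.exp (-t) : ℝ)) : ℂ) t := by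
      have := (((hasDerivAt_neg t).exp)).ofReal_comp
      refine this.congr_deriv ?_
      simp
    have e2 : HasDerivAt (fun t : ℝ => ((Real.exp (-t) : ℝ) : ℂ) * ζ)
        ((((-Real.exp (-t) : ℝ)) : ℂ) * ζ) t := e1.mul_const ζ
    have e3 : HasDerivAt (fun t : ℝ => Q (((Real.exp (-t) : ℝ) : ℂ) * ζ))
        (dslope P 0 (((Real.exp (-t) : ℝ) : ℂ) * ζ) * ((((-Real.exp (-t) : ℝ)) : ℂ) * ζ)) t :=
      (hQ.2 _ (hmem t ht)).comp t e2
    have e4 : dslope P 0 (((Real.exp (-t) : ℝ) : ℂ) * ζ) * ((((-Real.exp (-t) : ℝ)) : ℂ) * ζ) =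
        -(P (((Real.exp (-t) : ℝ) : ℂ) * ζ) - P 0) := by
      rw [← dslope_mul]
      push_cast
      ring
    rw [e4] at e3
    have e5 : HasDerivAt (fun t : ℝ => (Q (((Real.exp (-t) : ℝ) : ℂ) * ζ)).re)
        (-(P (((Real.exp (-t) : ℝ) : ℂ) * ζ) - P 0)).re t := by
      have := (Complex.reCLM.hasFDerivAt (x := Q (((Real.exp (-t) : ℝ) : ℂ) * ζ))).comp_hasDerivAt t e3
      exact this
    have e6 := e5.neg.add ((hasDerivAt_id t).mul_const (P 0).re)
    refine e6.congr_deriv ?_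
    simp
  have hint : IntervalIntegrable (fun t : ℝ => (P ((Real.exp (-t) : ℂ) * ζ)).re)
      MeasureTheory.volume s₁ s₂ := by
    refine ContinuousOn.intervalIntegrable ?_
    refine Complex.continuous_re.comp_continuousOn ?_
    refine hP.continuousOn.comp (Continuous.continuousOn (by fun_prop)) (fun t ht => hmem t ht)
  rw [intervalIntegral.integral_eq_sub_of_hasDerivAt hder hint]
  ring

/-- the kernel on the circle -/
lemma gg_eq {L : ℝ} {ζ ξ : ℂ} (hL : 0 < L) (hζ : ‖ζ‖ < 1) (hζ0 : ζ ≠ 0)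
    (hξ : ‖ξ‖ = Real.exp (-L)) (hne : ξ ≠ ζ) :
    gg ζ ξ = Real.log ‖1 - ((Real.exp (-(2 * L)) : ℂ) * ζ) / ξ‖ -
      Real.log ‖1 - ((Real.exp (-(2 * max 0 (L + Real.log ‖ζ‖))) : ℂ) * ζ) / ξ‖ +
      (L - max 0 (L + Real.log ‖ζ‖)) := by
  have hr : 0 < Real.exp (-L) := Real.exp_pos _
  have hr1 : Real.exp (-L) < 1 := by
    have := Real.exp_lt_exp.2 (show -L < 0 by linarith)
    rwa [Real.exp_zero] at this
  have hξ0 : ξ ≠ 0 := fun h => by rw [h, norm_zero] at hξ; exact hr.ne hξ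
  have hcξ0 : (starRingEnd ℂ) ξ ≠ 0 := by simpa using hξ0
  have hcζ0 : (starRingEnd ℂ) ζ ≠ 0 := by simpa using hζ0
  have hzpos : 0 < ‖ζ‖ := norm_pos_iff.2 hζ0
  have hξξ : (starRingEnd ℂ) ξ * ξ = (Real.exp (-(2 * L)) : ℂ) := by
    rw [mul_comm, Complex.mul_conj, Complex.normSq_eq_norm_sq, hξ, ← Real.exp_nat_mul]
    push_cast
    congr 1
    ring
  have h1 : (1:ℂ) - (starRingEnd ℂ) ξ * ζ = 1 - ((Real.exp (-(2 * L)) : ℂ) * ζ) / ξ := by
    rw [← hξξ]
    field_simp
  have hnum : ‖(1:ℂ) - (starRingEnd ℂ) ξ * ζ‖ ≠ 0 := by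
    intro h
    have h2 : (1:ℂ) = (starRingEnd ℂ) ξ * ζ := by
      rw [norm_eq_zero, sub_eq_zero] at h; exact h
    have h3 : (1:ℝ) = ‖ξ‖ * ‖ζ‖ := by
      have := congrArg norm h2
      rwa [norm_one, norm_mul, Complex.norm_conj] at this
    rw [hξ] at h3
    nlinarith
  have hden : ‖ζ - ξ‖ ≠ 0 := by
    rw [norm_ne_zero_iff, sub_ne_zero]
    exact hne.symm
  have h4 : Real.log ‖ζ - ξ‖ =
      Real.log ‖1 - ((Real.exp (-(2 * max 0 (L + Real.log ‖ζ‖))) : ℂ) * ζ) / ξ‖ -
        (L - max 0 (L + Real.log ‖ζ‖)) := by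
    rcases le_total (L + Real.log ‖ζ‖) 0 with hc | hc
    · rw [max_eq_left hc]
      have e : ‖ζ - ξ‖ = Real.exp (-L) * ‖1 - ((Real.exp (-(2 * 0)) : ℂ) * ζ) / ξ‖ := by
        rw [← hξ, ← norm_mul, ← norm_neg]
        congr 1
        simp
        field_simp
      have e' : ‖1 - ((Real.exp (-(2 * 0)) : ℂ) * ζ) / ξ‖ ≠ 0 := by
        intro h
        rw [h, mul_zero] at e
        exact hden e
      rw [e, Real.log_mul hr.ne' e', Real.log_exp]
      ring
    · rw [max_eq_right hc]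
      have hexp : (Real.exp (-(2 * (L + Real.log ‖ζ‖))) : ℂ) * (ζ * (starRingEnd ℂ) ζ) =
          (Real.exp (-(2 * L)) : ℂ) := by
        rw [Complex.mul_conj, Complex.normSq_eq_norm_sq]
        have : Real.exp (-(2 * (L + Real.log ‖ζ‖))) * ‖ζ‖ ^ 2 = Real.exp (-(2 * L)) := by
          have h5 : ‖ζ‖ ^ 2 = Real.exp (2 * Real.log ‖ζ‖) := by
            rw [two_mul, Real.exp_add, Real.exp_log hzpos]; ring
          rw [h5, ← Real.exp_add]
          congr 1
          ring
        exact_mod_cast this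
      have e : ‖ζ - ξ‖ = ‖ζ‖ *
          ‖1 - ((Real.exp (-(2 * (L + Real.log ‖ζ‖))) : ℂ) * ζ) / ξ‖ := by
        have e1 : (1:ℂ) - ((Real.exp (-(2 * (L + Real.log ‖ζ‖))) : ℂ) * ζ) / ξ =
            (starRingEnd ℂ) (1 - ξ / ζ) := by
          rw [map_sub, map_one, map_div₀]
          congr 1
          rw [div_eq_div_iff hξ0 hcζ0, hξξ, ← hexp]
          ring
        rw [e1, Complex.norm_conj, ← norm_mul]
        congr 1
        field_simp
      have e' : ‖1 - ((Real.exp (-(2 * (L + Real.log ‖ζ‖))) : ℂ) * ζ) / ξ‖ ≠ 0 := by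
        intro h
        rw [h, mul_zero] at e
        exact hden e
      rw [e, Real.log_mul hzpos.ne' e']
      ring
  unfold gg
  rw [norm_div, Real.log_div hnum hden, h1, h4]
  ring

end RPaux

open RPaux in
theorem t_RP : S_RP := by
  intro P R L ζ hR hL hP _ hζ hζ0
  obtain ⟨Q, hQ⟩ := exists_prim (by linarith) hP
  have hζ1 : ‖ζ‖ < 1 := by simpa using hζ
  have hr : 0 < Real.exp (-L) := Real.exp_pos _
  have hr1 : Real.exp (-L) < 1 := by
    have := Real.exp_lt_exp.2 (show -L < 0 by linarith)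
    rwa [Real.exp_zero] at this
  have hrR : Real.exp (-L) < R := hr1.trans hR
  have hzpos : 0 < ‖ζ‖ := norm_pos_iff.2 hζ0
  set s : ℝ := max 0 (L + Real.log ‖ζ‖) with hs
  have hs0 : 0 ≤ s := le_max_left _ _
  set w₁ : ℂ := (Real.exp (-(2 * L)) : ℂ) * ζ with hw₁
  set w₂ : ℂ := (Real.exp (-(2 * s)) : ℂ) * ζ with hw₂
  have n1 : ‖w₁‖ ≤ Real.exp (-L) := by
    rw [hw₁, norm_mul, Complex.norm_real, Real.norm_of_nonneg (Real.exp_pos _).le]
    have : Real.exp (-(2 * L)) ≤ Real.exp (-L) := Real.exp_le_exp.2 (by linarith)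
    nlinarith [Real.exp_pos (-(2 * L))]
  have n2 : ‖w₂‖ ≤ Real.exp (-L) := by
    rw [hw₂, norm_mul, Complex.norm_real, Real.norm_of_nonneg (Real.exp_pos _).le]
    have h1 : ‖ζ‖ = Real.exp (Real.log ‖ζ‖) := (Real.exp_log hzpos).symm
    have h0 : Real.log ‖ζ‖ < 0 := Real.log_neg hzpos hζ1
    calc Real.exp (-(2 * s)) * ‖ζ‖ = Real.exp (-(2 * s) + Real.log ‖ζ‖) := by
          rw [Real.exp_add, ← h1]
      _ ≤ Real.exp (-L) := Real.exp_le_exp.2 (by
          have h2 : L + Real.log ‖ζ‖ ≤ s := le_max_right _ _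
          linarith)
  have a1 := avgA1 (w := w₁) hr hrR hP hQ n1
  have a2 := avgA1 (w := w₂) hr hrR hP hQ n2
  have i1 := int_b_log (w := w₁) hr hrR hP
  have i2 := int_b_log (w := w₂) hr hrR hP
  have hcP : ContinuousOn P (sphere 0 (Real.exp (-L))) := hP.continuousOn.mono (fun ξ hξ => by
    rw [mem_sphere_zero_iff_norm] at hξ
    rw [mem_ball_zero_iff, hξ]; exact hrR)
  have iP : CircleIntegrable P 0 (Real.exp (-L)) := hcP.circleIntegrable hr.le
  have hcb : ContinuousOn (fun ξ => (P ξ).re * (L - s)) (sphere 0 (Real.exp (-L))) :=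
    (Complex.continuous_re.comp_continuousOn hcP).mul continuousOn_const
  have i3 : CircleIntegrable (fun ξ => (P ξ).re * (L - s)) 0 (Real.exp (-L)) :=
    hcb.circleIntegrable hr.le
  have a3 : Real.circleAverage (fun ξ => (P ξ).re * (L - s)) 0 (Real.exp (-L)) =
      (L - s) * (P 0).re := by
    have h1 : Real.circleAverage P 0 (Real.exp (-L)) = P 0 := by
      refine DiffContOnCl.circleAverage ?_
      rw [abs_of_pos hr]
      refine DifferentiableOn.diffContOnCl ?_
      rw [closure_ball _ hr.ne']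
      exact hP.mono (closedBall_subset_ball hrR)
    have h2 := avg_re iP
    rw [h1] at h2
    rw [← h2, ← smul_eq_mul, ← Real.circleAverage_fun_smul]
    refine Real.circleAverage_congr_sphere (fun ξ _ => ?_)
    simp only [smul_eq_mul]
    ring
  -- the combination
  let G : ℂ → ℝ := fun ξ => (P ξ).re * Real.log ‖1 - w₁ / ξ‖ -
    (P ξ).re * Real.log ‖1 - w₂ / ξ‖ + (P ξ).re * (L - s)
  have iG : CircleIntegrable G 0 (Real.exp (-L)) := (i1.sub i2).add i3
  have aG : Real.circleAverage G 0 (Real.exp (-L)) =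
      -(1 / 2) * (Q w₁).re - -(1 / 2) * (Q w₂).re + (L - s) * (P 0).re := by
    have h12 := Real.circleAverage_fun_sub i1 i2
    have h123 := Real.circleAverage_fun_add (c := 0) (R := Real.exp (-L))
      (f₁ := fun ξ => (P ξ).re * Real.log ‖1 - w₁ / ξ‖ - (P ξ).re * Real.log ‖1 - w₂ / ξ‖)
      (f₂ := fun ξ => (P ξ).re * (L - s)) (i1.sub i2) i3
    rw [h12, a1, a2, a3] at h123
    exact h123
  have hae : ∀ᵐ θ : ℝ, G (circleMap 0 (Real.exp (-L)) θ) =
      (P (circleMap 0 (Real.exp (-L)) θ)).re * gg ζ (circleMap 0 (Real.exp (-L)) θ) := by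
    filter_upwards [ae_ne ζ hr] with θ hθ
    have hn : ‖circleMap 0 (Real.exp (-L)) θ‖ = Real.exp (-L) := by simp [abs_of_pos hr]
    rw [gg_eq hL hζ1 hζ0 hn hθ]
    simp only [G]
    ring
  refine ⟨?_, ?_⟩
  · refine IntervalIntegrable.congr_ae (f := fun θ => G (circleMap 0 (Real.exp (-L)) θ)) iG ?_
    exact MeasureTheory.ae_restrict_of_ae hae
  · have e1 : Real.circleAverage (fun ξ => (P ξ).re * gg ζ ξ) 0 (Real.exp (-L)) =
        Real.circleAverage G 0 (Real.exp (-L)) := by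
      unfold Real.circleAverage
      congr 1
      refine intervalIntegral.integral_congr_ae ?_
      filter_upwards [hae] with θ hθ _
      exact hθ.symm
    rw [e1, aG]
    unfold UU
    rw [← hs, ray hR hP hQ hζ1 (by linarith) (by linarith)]
    refine le_of_eq ?_
    rw [← hw₁, ← hw₂]
    field_simp
    ring

end HD243
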