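import Pool.Agent.R243.HD.Defs

set_option autoImplicit false

/-! # Project HD, piece ST: small step -/

open Set Filter Topology Complex Metric

noncomputable section

namespace HD243

namespace STaux

lemma un_diffAt {u : ℂ → ℂ} (hu : Un u) : HasDerivAt u (deriv u 0) 0 :=
  (hu.1.differentiableAt (ball_mem_nhds 0 one_pos)).hasDerivAt

lemma norm_eq {p P : ℂ → ℂ} (hP : ∀ z ∈ ball (0 : ℂ) 1, z = p z * exp (P z)) {z : ℂ}
    (hz : z ∈ ball (0 : ℂ) 1) : ‖z‖ = ‖p z‖ * Real.exp (P z).re := by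
  conv_lhs => rw [hP z hz]
  rw [norm_mul, Complex.norm_exp]

/-- near the circle `p` stays near the complement of its image -/
lemma near_bd {p : ℂ → ℂ} (hp : Un p) {r : ℝ} (hr : closedBall (0 : ℂ) r ⊆ p '' ball 0 1) :
    ∃ s < 1, ∀ z : ℂ, s < ‖z‖ → ‖z‖ < 1 → r < ‖p z‖ := by
  have han : AnalyticOnNhd ℂ p (ball 0 1) := hp.1.analyticOnNhd isOpen_ball
  have hopen : ∀ s ⊆ ball (0 : ℂ) 1, IsOpen s → IsOpen (p '' s) := by
    rcases han.is_constant_or_isOpen (convex_ball (0 : ℂ) 1).isPreconnected with ⟨w, hw⟩ | h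
    · exfalso
      have h0 : (0 : ℂ) ∈ ball (0 : ℂ) 1 := mem_ball_self one_pos
      have h1 : (1 / 2 : ℂ) ∈ ball (0 : ℂ) 1 := by
        rw [mem_ball_zero_iff]
        norm_num
      have h2 := hp.2.2.1 h0 h1 (by rw [hw _ h0, hw _ h1])
      norm_num at h2
    · exact h
  have hcover : closedBall (0 : ℂ) r ⊆ ⋃ n : ℕ, p '' ball 0 (1 - 1 / ((n : ℝ) + 1)) := by
    intro w hw
    obtain ⟨z, hz, rfl⟩ := hr hw
    rw [mem_ball_zero_iff] at hz
    obtain ⟨n, hn⟩ := exists_nat_one_div_lt (sub_pos.2 hz)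
    refine mem_iUnion.2 ⟨n, z, ?_, rfl⟩
    rw [mem_ball_zero_iff]
    linarith
  have hmono : Monotone fun n : ℕ => p '' ball (0 : ℂ) (1 - 1 / ((n : ℝ) + 1)) := by
    intro m n hmn
    refine image_mono (ball_subset_ball ?_)
    have : (m : ℝ) ≤ n := by exact_mod_cast hmn
    have h2 : 1 / ((n : ℝ) + 1) ≤ 1 / ((m : ℝ) + 1) :=
      one_div_le_one_div_of_le (by positivity) (by linarith)
    linarith
  have hsub : ∀ n : ℕ, ball (0 : ℂ) (1 - 1 / ((n : ℝ) + 1)) ⊆ ball 0 1 := by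
    intro n
    refine ball_subset_ball ?_
    have : 0 < 1 / ((n : ℝ) + 1) := by positivity
    linarith
  obtain ⟨n, hn⟩ := (isCompact_closedBall (0 : ℂ) r).elim_directed_cover _
    (fun n : ℕ => hopen _ (hsub n) isOpen_ball) hcover hmono.directed_le
  refine ⟨1 - 1 / ((n : ℝ) + 1), ?_, fun z hz1 hz2 => ?_⟩
  · have : 0 < 1 / ((n : ℝ) + 1) := by positivity
    linarith
  · by_contra hle
    push Not at hle
    have h1 : p z ∈ closedBall (0 : ℂ) r := by
      rw [mem_closedBall_zero_iff]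
      exact hle
    obtain ⟨z', hz', he⟩ := hn h1
    have h2 := hp.2.2.1 (hsub n hz') (by rw [mem_ball_zero_iff]; exact hz2) he
    rw [h2, mem_ball_zero_iff] at hz'
    linarith

lemma sigma_le {δ : ℝ} {p P : ℂ → ℂ} (hδ : 0 < δ) (hδ4 : δ ≤ 1 / 4) (hp : Un p)
    (hball : ball (0 : ℂ) (1 - δ) ⊆ p '' ball 0 1) (hPd : DifferentiableOn ℂ P (ball 0 1))
    (hP : ∀ z ∈ ball (0 : ℂ) 1, z = p z * exp (P z)) :
    Real.exp (P 0).re ≤ 1 / (1 - 2 * δ) := by
  have hr : closedBall (0 : ℂ) (1 - 2 * δ) ⊆ p '' ball 0 1 :=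
    (closedBall_subset_ball (by linarith)).trans hball
  obtain ⟨s, hs1, hs⟩ := near_bd hp hr
  obtain ⟨t, ht1, ht2⟩ := exists_between (max_lt hs1 one_pos)
  have ht0 : 0 < t := (le_max_right _ _).trans_lt ht1
  have hst : s < t := (le_max_left _ _).trans_lt ht1
  have hd : DiffContOnCl ℂ (fun z => exp (P z)) (ball 0 t) := by
    have h1 : DifferentiableOn ℂ (fun z => exp (P z)) (ball 0 1) := hPd.cexp
    refine DifferentiableOn.diffContOnCl (h1.mono ?_)
    rw [closure_ball _ ht0.ne']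
    exact closedBall_subset_ball ht2
  have h2 := Complex.norm_le_of_forall_mem_frontier_norm_le (z := 0) (C := 1 / (1 - 2 * δ))
    isBounded_ball hd (by
      intro z hz
      rw [frontier_ball _ ht0.ne', mem_sphere_zero_iff_norm] at hz
      have hz1 : z ∈ ball (0 : ℂ) 1 := by
        rw [mem_ball_zero_iff, hz]
        exact ht2
      have h3 := norm_eq hP hz1
      have h4 := hs z (by rw [hz]; exact hst) (by rw [hz]; exact ht2)
      rw [Complex.norm_exp, le_div_iff₀ (by linarith)]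
      have h5 := Real.exp_pos (P z).re
      rw [hz] at h3
      nlinarith) (subset_closure (mem_ball_self ht0))
  rw [Complex.norm_exp] at h2
  exact h2

end STaux

open STaux in
theorem t_ST (hVM : S_VM) (hLG : S_LG) (hCM : S_CM) (hHM : S_HM) (hUD : S_UD) : S_ST := by
  intro δ u p hδ hδ4 hu hp hball
  obtain ⟨φ, k, hφ, hk, heq, hBD⟩ := hVM u p hu hp
  refine ⟨φ, k, hφ, hk, heq, ?_⟩
  obtain ⟨P, hPd, hP, hP0, hPl⟩ := hLG p hp
  obtain ⟨Φ, hΦd, hΦ, hΦ0, hΦl⟩ := hLG φ hφ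
  have hcm := hCM δ u p φ k P Φ hδ hδ4 hu hp hφ hk hball heq hBD hPd hP hΦd hΦ
  have hVN : VN Φ k := by
    intro r hr ε hε
    obtain ⟨s, hs, hs2⟩ := hBD r hr (1 - Real.exp (-ε)) (by
      have : Real.exp (-ε) < 1 := by
        rw [Real.exp_lt_one_iff]
        linarith
      linarith)
    refine ⟨s, hs, fun z hz1 hz2 hz3 => ?_⟩
    have h1 := hs2 z hz1 hz2 hz3
    have h2 := norm_eq hΦ (z := z) (by rw [mem_ball_zero_iff]; exact hz2)
    have h3 : Real.exp (-ε) * Real.exp (Φ z).re ≤ 1 := by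
      have h4 := Real.exp_pos (Φ z).re
      nlinarith
    rw [← Real.exp_add, Real.exp_le_one_iff] at h3
    linarith
  set ρ : ℝ := ‖deriv u 0‖ with hρ
  have hρ0 : 0 ≤ ρ := norm_nonneg _
  have h1 := hHM k P Φ (√ρ * (1 + δ)) hk hPd hP0 hΦd (by positivity) hcm hVN
  set σ : ℝ := (P 0).re with hσ
  have hσ0 : 0 ≤ σ := hP0 0 (mem_ball_self one_pos)
  -- chain rule
  have hchain : deriv u 0 * deriv φ 0 = deriv p 0 * deriv k 0 := by
    have e1 : HasDerivAt (fun z => u (φ z)) (deriv u 0 * deriv φ 0) 0 := by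
      have h2 := un_diffAt hu
      have h3 := un_diffAt hφ
      rw [← hφ.2.2.2] at h2
      have h4 := HasDerivAt.comp (0 : ℂ) h2 h3
      rw [hφ.2.2.2] at h4
      exact h4
    have e2 : HasDerivAt (fun z => p (k z)) (deriv p 0 * deriv k 0) 0 := by
      have h2 := un_diffAt hp
      have h3 := un_diffAt hk
      rw [← hk.2.2.2] at h2
      have h4 := HasDerivAt.comp (0 : ℂ) h2 h3
      rw [hk.2.2.2] at h4
      exact h4
    have e3 : (fun z => u (φ z)) =ᶠ[𝓝 0] fun z => p (k z) :=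
      Filter.eventually_of_mem (ball_mem_nhds 0 one_pos) heq
    exact e1.unique (e2.congr_of_eventuallyEq e3)
  have hp'0 : 0 < ‖deriv p 0‖ := norm_pos_iff.2 (hUD p hp).1
  have hkn : ‖deriv k 0‖ ≤ ρ * Real.exp σ := by
    have h2 := congrArg norm hchain
    rw [norm_mul, norm_mul] at h2
    have h3 : Real.exp σ = ‖deriv p 0‖⁻¹ := by
      rw [hPl, Real.exp_neg, Real.exp_log hp'0]
    rw [h3, ← div_eq_mul_inv, le_div_iff₀ hp'0, mul_comm, ← h2]
    have h4 := (hUD φ hφ).2.1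
    nlinarith
  have hsig := sigma_le hδ hδ4 hp hball hPd hP
  have hsq : √(ρ * Real.exp σ) ≤ √ρ * ((1 + 4 * δ) / (1 + δ)) := by
    rw [Real.sqrt_mul hρ0]
    refine mul_le_mul_of_nonneg_left ?_ (Real.sqrt_nonneg _)
    rw [Real.sqrt_le_left (by positivity)]
    refine hsig.trans ?_
    rw [div_pow, div_le_div_iff₀ (by linarith) (by positivity)]
    nlinarith [mul_pos hδ hδ, mul_pos (mul_pos hδ hδ) hδ, mul_nonneg hδ.le (sub_nonneg.2 hδ4)]
  rw [← hΦl, ← hPl]
  refine h1.trans ?_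
  refine mul_le_mul_of_nonneg_right ?_ hσ0
  have h5 : √‖deriv k 0‖ ≤ √ρ * ((1 + 4 * δ) / (1 + δ)) := (Real.sqrt_le_sqrt hkn).trans hsq
  calc √ρ * (1 + δ) * √‖deriv k 0‖ ≤ √ρ * (1 + δ) * (√ρ * ((1 + 4 * δ) / (1 + δ))) :=
        mul_le_mul_of_nonneg_left h5 (by positivity)
    _ = (√ρ * √ρ) * (1 + 4 * δ) := by field_simp
    _ = ρ * (1 + 4 * δ) := by rw [Real.mul_self_sqrt hρ0]

end HD243
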