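import Mathlib
import Pool.Agent.R243.HD.Defs

/-! HD-TO (MP_14bd02_an): Tonelli for the circle averages. helper710. -/

set_option autoImplicit false

open Set Filter Topology Complex Metric MeasureTheory

noncomputable section

namespace HD243

namespace TOx

theorem gg_nonneg (ζ ξ : ℂ) (hζ : ζ ∈ ball (0 : ℂ) 1) (hξ : ξ ∈ ball (0 : ℂ) 1) :
    0 ≤ gg ζ ξ := by
  unfold gg
  by_cases h : ζ = ξ
  · subst h; simp
  · apply Real.log_nonneg
    rw [norm_div, one_le_div (norm_pos_iff.2 (sub_ne_zero.2 h))]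
    rw [mem_ball_zero_iff] at hζ hξ
    have h1 : Complex.normSq ζ < 1 := by
      rw [Complex.normSq_eq_norm_sq]; nlinarith [norm_nonneg ζ]
    have h2 : Complex.normSq ξ < 1 := by
      rw [Complex.normSq_eq_norm_sq]; nlinarith [norm_nonneg ξ]
    rw [← pow_le_pow_iff_left₀ (norm_nonneg _) (norm_nonneg _) two_ne_zero,
      ← Complex.normSq_eq_norm_sq, ← Complex.normSq_eq_norm_sq]
    rw [Complex.normSq_apply] at h1 h2
    have h3 : Complex.normSq (1 - (starRingEnd ℂ) ξ * ζ) - Complex.normSq (ζ - ξ) =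
        (1 - (ζ.re * ζ.re + ζ.im * ζ.im)) * (1 - (ξ.re * ξ.re + ξ.im * ξ.im)) := by
      rw [Complex.normSq_apply, Complex.normSq_apply]
      simp
      ring
    have h4 : 0 ≤ (1 - (ζ.re * ζ.re + ζ.im * ζ.im)) * (1 - (ξ.re * ξ.re + ξ.im * ξ.im)) :=
      mul_nonneg (by linarith) (by linarith)
    linarith

theorem meas_gg : Measurable (fun p : ℂ × ℂ => gg p.1 p.2) := by
  unfold gg
  refine Real.measurable_log.comp (Measurable.norm (Measurable.div ?_ ?_))
  · exact (by fun_prop : Continuous fun p : ℂ × ℂ =>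
      1 - (starRingEnd ℂ) p.2 * p.1).measurable
  · exact (by fun_prop : Continuous fun p : ℂ × ℂ => p.1 - p.2).measurable

theorem real_growth (x y ρ L : ℝ) (hx : 0 < x) (hx1 : x < 1) (hρ : 0 ≤ ρ) (hL : 0 < L)
    (hL1 : L ≤ 1) (hy : y = Real.exp (-L)) (h : (1 - x) ^ 2 * y ≤ ρ * x * (1 - y) ^ 2) :
    - Real.log x ≤ √ρ * (L * (1 + L)) := by
  obtain ⟨t, ht⟩ : ∃ t, t = - Real.log x / 2 := ⟨_, rfl⟩
  have ht0 : 0 ≤ t := by
    rw [ht]
    have := Real.log_nonpos hx.le hx1.le
    linarith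
  obtain ⟨X, hX⟩ : ∃ X, X = Real.exp (-t) := ⟨_, rfl⟩
  obtain ⟨E, hE⟩ : ∃ E, E = Real.exp t := ⟨_, rfl⟩
  obtain ⟨Y, hY⟩ : ∃ Y, Y = Real.exp (-(L / 2)) := ⟨_, rfl⟩
  obtain ⟨W, hW⟩ : ∃ W, W = Real.exp (L / 2) := ⟨_, rfl⟩
  have hEX : E * X = 1 := by rw [hE, hX, ← Real.exp_add]; simp
  have hWY : W * Y = 1 := by rw [hW, hY, ← Real.exp_add]; simp
  have hXx : X * X = x := by
    rw [hX, ← Real.exp_add, ht, show -(-Real.log x / 2) + -(-Real.log x / 2) = Real.log x by ring,
      Real.exp_log hx]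
  have hYy : Y * Y = y := by
    rw [hY, ← Real.exp_add, hy]
    congr 1
    ring
  have h1 : (E - X) ^ 2 ≤ ρ * (W - Y) ^ 2 := by
    have e1 : (E - X) ^ 2 = ((1 - x) ^ 2 * y) * (E ^ 2 * W ^ 2) := by
      have a1 : E - X = (1 - x) * E := by
        rw [← hXx]
        linear_combination X * hEX
      have a2 : y * W ^ 2 = 1 := by
        rw [← hYy]
        linear_combination (W * Y + 1) * hWY
      rw [a1]
      linear_combination (-(1 - x) ^ 2 * E ^ 2) * a2
    have e2 : ρ * (W - Y) ^ 2 = (ρ * x * (1 - y) ^ 2) * (E ^ 2 * W ^ 2) := by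
      have a1 : W - Y = (1 - y) * W := by
        rw [← hYy]
        linear_combination Y * hWY
      have a2 : x * E ^ 2 = 1 := by
        rw [← hXx]
        linear_combination (E * X + 1) * hEX
      rw [a1]
      linear_combination (-ρ * (1 - y) ^ 2 * W ^ 2) * a2
    rw [e1, e2]
    exact mul_le_mul_of_nonneg_right h (by positivity)
  have h2 : 2 * t ≤ E - X := by
    have := Real.self_le_sinh_iff.2 ht0
    rw [Real.sinh_eq, ← hE, ← hX] at this
    linarith
  have h3 : W - Y ≤ L * (1 + L) := by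
    have a1 := Real.abs_exp_sub_one_sub_id_le (x := L / 2) (by
      rw [abs_le]; constructor <;> linarith)
    rw [← hW, abs_le] at a1
    have a2 := Real.add_one_le_exp (-(L / 2))
    rw [← hY] at a2
    nlinarith [a1.2]
  have h0 : 0 ≤ W - Y := by
    have : Y ≤ W := by rw [hY, hW]; exact Real.exp_le_exp.2 (by linarith)
    linarith
  have h4 : E - X ≤ √ρ * (W - Y) := by
    rw [← pow_le_pow_iff_left₀ (by linarith) (by positivity) two_ne_zero, mul_pow,
      Real.sq_sqrt hρ]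
    exact h1
  have h5 : √ρ * (W - Y) ≤ √ρ * (L * (1 + L)) := mul_le_mul_of_nonneg_left h3 (Real.sqrt_nonneg _)
  have h6 : - Real.log x = 2 * t := by rw [ht]; ring
  linarith

end TOx

open TOx

attribute [local irreducible] gg UU

theorem t_TO (hRP : S_RP) (hJE : S_JE) (hUB : S_UB) (hGR : S_GR) (hUD : S_UD) : S_TO := by
  intro k P R L s hk hR hL hL1 hs hs1 hP hP0
  obtain ⟨-, -, -, hk0⟩ := hUD k hk
  have hπ : 0 < 2 * Real.pi := by positivity
  -- constants for UB
  have hsub : closedBall (0 : ℂ) 1 ⊆ ball 0 R := closedBall_subset_ball hR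
  obtain ⟨B, hB⟩ := (isCompact_closedBall (0 : ℂ) 1).exists_bound_of_continuousOn
    (hP.continuousOn.mono hsub)
  obtain ⟨M, hM⟩ := (isCompact_closedBall (0 : ℂ) 1).exists_bound_of_continuousOn
    ((hP.deriv isOpen_ball).continuousOn.mono hsub)
  have hM0 : 0 ≤ M := (norm_nonneg _).trans (hM 0 (by simp))
  have hUc : ContinuousOn (UU P L) (ball 0 1 \ {0}) := by
    refine (hUB P R L B M hR hL hM0 hP (fun z hz => ⟨hP0 z hz, ?_⟩) ?_).1
    · exact (Complex.re_le_norm _).trans (hB z (ball_subset_closedBall hz))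
    · intro x hx y hy
      rw [← Complex.sub_re]
      refine (Complex.abs_re_le_norm _).trans ?_
      have := Convex.norm_image_sub_le_of_norm_deriv_le (𝕜 := ℂ) (f := P) (C := M)
        (s := closedBall (0 : ℂ) 1) (x := y) (y := x)
        (fun z hz => (hP z (hsub hz)).differentiableAt (isOpen_ball.mem_nhds (hsub hz)))
        hM (convex_closedBall _ _) (ball_subset_closedBall hy) (ball_subset_closedBall hx)
      exact this
  -- the circles
  have hz : ∀ θ, circleMap 0 s θ ∈ ball (0 : ℂ) 1 := by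
    intro θ
    rw [mem_ball_zero_iff, norm_circleMap_zero, abs_of_pos hs]
    exact hs1
  have hz0 : ∀ θ, circleMap 0 s θ ≠ 0 := by
    intro θ h
    have := norm_circleMap_zero s θ
    rw [h, norm_zero, abs_of_pos hs] at this
    linarith
  obtain ⟨kz, hkz⟩ : ∃ kz : ℝ → ℂ, kz = fun θ => k (circleMap 0 s θ) := ⟨_, rfl⟩
  have hkz1 : ∀ θ, kz θ ∈ ball (0 : ℂ) 1 := by
    intro θ; rw [hkz]; exact hk.2.1 (hz θ)
  have hkz0 : ∀ θ, kz θ ≠ 0 := by
    intro θ h
    rw [hkz] at h
    exact hz0 θ (hk0 _ (hz θ) h)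
  have hkzc : Continuous kz := by
    rw [hkz]
    exact hk.1.continuousOn.comp_continuous (continuous_circleMap 0 s) hz
  obtain ⟨r, hr⟩ : ∃ r, r = Real.exp (-L) := ⟨_, rfl⟩
  have hr0 : 0 < r := by rw [hr]; exact Real.exp_pos _
  have hr1 : r < 1 := by rw [hr, Real.exp_lt_one_iff]; linarith
  have hξ : ∀ τ, ‖circleMap 0 r τ‖ = r := by
    intro τ
    rw [norm_circleMap_zero, abs_of_pos hr0]
  have hξb : ∀ τ, circleMap 0 r τ ∈ ball (0 : ℂ) 1 := by
    intro τ
    rw [mem_ball_zero_iff, hξ]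
    exact hr1
  have hξ0 : ∀ τ, circleMap 0 r τ ≠ 0 := by
    intro τ h
    have := hξ τ
    rw [h, norm_zero] at this
    linarith
  obtain ⟨b, hb⟩ : ∃ b : ℝ → ℝ, b = fun τ => (P (circleMap 0 r τ)).re := ⟨_, rfl⟩
  have hbc : Continuous b := by
    rw [hb]
    refine Complex.continuous_re.comp ?_
    exact hP.continuousOn.comp_continuous (continuous_circleMap 0 r)
      (fun τ => hsub (ball_subset_closedBall (hξb τ)))
  have hb0 : ∀ τ, 0 ≤ b τ := by
    intro τ; rw [hb]; exact hP0 _ (hξb τ)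
  -- the measure
  obtain ⟨μ, hμ⟩ : ∃ μ : Measure ℝ, μ = volume.restrict (Ioc 0 (2 * Real.pi)) := ⟨_, rfl⟩
  have hμfin : IsFiniteMeasure μ := by
    rw [hμ]
    infer_instance
  have hci : ∀ f : ℝ → ℝ, Continuous f → Integrable f μ := by
    intro f hf
    rw [hμ]
    exact (hf.intervalIntegrable 0 (2 * Real.pi)).1
  have havg : ∀ (f : ℂ → ℝ) (ρ : ℝ), ∫ θ, f (circleMap 0 ρ θ) ∂μ =
      2 * Real.pi * Real.circleAverage f 0 ρ := by
    intro f ρ
    rw [Real.circleAverage_def, intervalIntegral.integral_of_le hπ.le, hμ, smul_eq_mul]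
    field_simp
  -- the kernel
  obtain ⟨G, hG⟩ : ∃ G : ℝ × ℝ → ℝ, G = fun p => b p.2 * gg (kz p.1) (circleMap 0 r p.2) :=
    ⟨_, rfl⟩
  have hGm : Measurable G := by
    have h1 : Measurable (fun p : ℝ × ℝ => (kz p.1, circleMap 0 r p.2)) :=
      (hkzc.measurable.comp measurable_fst).prodMk
        ((continuous_circleMap 0 r).measurable.comp measurable_snd)
    have h2' := meas_gg.comp h1
    have h2 : Measurable (fun p : ℝ × ℝ => gg (kz p.1) (circleMap 0 r p.2)) := h2'
    have h3 : Measurable (fun p : ℝ × ℝ => b p.2) := hbc.measurable.comp measurable_snd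
    rw [hG]
    exact h3.mul h2
  have hG0 : ∀ p, 0 ≤ G p := by
    intro p
    rw [hG]
    exact mul_nonneg (hb0 _) (gg_nonneg _ _ (hkz1 _) (hξb _))
  have hRPθ : ∀ θ, Integrable (fun τ => G (θ, τ)) μ ∧
      ∫ τ, G (θ, τ) ∂μ ≤ 2 * Real.pi * L * UU P L (kz θ) := by
    intro θ
    obtain ⟨h1, h2⟩ := hRP P R L (kz θ) hR hL hP hP0 (hkz1 θ) (hkz0 θ)
    rw [← hr] at h1 h2
    constructor
    · rw [hμ, hG, hb]
      exact h1.1
    · have h3 := havg (fun ξ => (P ξ).re * gg (kz θ) ξ) r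
      have h4 : ∫ τ, G (θ, τ) ∂μ = 2 * Real.pi *
          Real.circleAverage (fun ξ => (P ξ).re * gg (kz θ) ξ) 0 r := by
        rw [← h3, hG, hb]
      rw [h4]
      rw [one_div, inv_mul_le_iff₀ hL] at h2
      calc 2 * Real.pi * Real.circleAverage (fun ξ => (P ξ).re * gg (kz θ) ξ) 0 r
          ≤ 2 * Real.pi * (L * UU P L (kz θ)) := mul_le_mul_of_nonneg_left h2 hπ.le
        _ = 2 * Real.pi * L * UU P L (kz θ) := by ring
  have hUUc : Continuous (fun θ => UU P L (kz θ)) :=
    hUc.comp_continuous hkzc (fun θ => ⟨hkz1 θ, hkz0 θ⟩)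
  have hAint : Integrable (fun θ => ∫ τ, G (θ, τ) ∂μ) μ := by
    refine Integrable.mono' (hci _ (continuous_const.mul hUUc : Continuous fun θ =>
      2 * Real.pi * L * UU P L (kz θ))) ?_ ?_
    · exact (hGm.stronglyMeasurable.integral_prod_right').aestronglyMeasurable
    · refine Eventually.of_forall fun θ => ?_
      rw [Real.norm_eq_abs, abs_of_nonneg (integral_nonneg fun τ => hG0 _)]
      exact (hRPθ θ).2
  have hGint : Integrable G (μ.prod μ) := by
    rw [integrable_prod_iff hGm.aestronglyMeasurable]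
    refine ⟨Eventually.of_forall fun θ => (hRPθ θ).1, ?_⟩
    have : (fun x => ∫ y, ‖G (x, y)‖ ∂μ) = fun θ => ∫ τ, G (θ, τ) ∂μ := by
      funext x
      refine integral_congr_ae (Eventually.of_forall fun y => ?_)
      simp only [Real.norm_eq_abs, abs_of_nonneg (hG0 _)]
    rw [this]
    exact hAint
  have hswap : ∫ θ, ∫ τ, G (θ, τ) ∂μ ∂μ = ∫ τ, ∫ θ, G (θ, τ) ∂μ ∂μ :=
    integral_integral_swap hGint
  -- the inner average from below
  obtain ⟨K, hK⟩ : ∃ K, K = √‖deriv k 0‖ := ⟨_, rfl⟩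
  have hK0 : 0 ≤ K := by rw [hK]; exact Real.sqrt_nonneg _
  obtain ⟨q, hq⟩ : ∃ q, q = K * (L * (1 + L)) := ⟨_, rfl⟩
  have hq0 : 0 ≤ q := by rw [hq]; positivity
  have hJEτ : ∀ τ, 2 * Real.pi * (L - q) * b τ ≤ ∫ θ, G (θ, τ) ∂μ := by
    intro τ
    obtain ⟨-, h2⟩ := hJE k (circleMap 0 r τ) s q hk (hξb τ) (hξ0 τ) hs hs1 hq0 (by
      intro w hw hkw
      have hw0 : w ≠ 0 := by
        rintro rfl
        rw [hk.2.2.2] at hkw
        exact hξ0 τ hkw.symm
      have h1 := hGR k hk w hw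
      rw [hkw, hξ] at h1
      rw [mem_ball_zero_iff] at hw
      rw [hq, hK]
      exact real_growth ‖w‖ r _ L (norm_pos_iff.2 hw0) hw (norm_nonneg _) hL hL1 hr h1)
    rw [hξ, hr, Real.log_exp, neg_neg] at h2
    have h3 : ∫ θ, gg (k (circleMap 0 s θ)) (circleMap 0 r τ) ∂μ = 2 * Real.pi *
        Real.circleAverage (fun z => gg (k z) (circleMap 0 r τ)) 0 s :=
      havg (fun z => gg (k z) (circleMap 0 r τ)) s
    have h6 : (fun θ => G (θ, τ)) =
        fun θ => b τ * gg (k (circleMap 0 s θ)) (circleMap 0 r τ) := by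
      funext θ
      rw [hG, hkz]
    have h4 : ∫ θ, G (θ, τ) ∂μ = b τ * (2 * Real.pi *
        Real.circleAverage (fun z => gg (k z) (circleMap 0 r τ)) 0 s) := by
      rw [h6, integral_const_mul, h3]
    rw [h4]
    have h5 : b τ * (2 * Real.pi * (L - q)) ≤ b τ * (2 * Real.pi *
        Real.circleAverage (fun z => gg (k z) (circleMap 0 r τ)) 0 s) := by
      refine mul_le_mul_of_nonneg_left ?_ (hb0 τ)
      refine mul_le_mul_of_nonneg_left ?_ hπ.le
      rw [hr]
      exact h2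
    linarith
  have hPavg : Real.circleAverage (fun ξ => (P ξ).re) 0 r = (P 0).re := by
    have hd : DiffContOnCl ℂ P (ball 0 |r|) := by
      refine DifferentiableOn.diffContOnCl_ball (U := ball 0 R) hP ?_
      rw [abs_of_pos hr0]
      exact closedBall_subset_ball (by linarith)
    have h1 : CircleIntegrable P 0 r := by
      refine ContinuousOn.circleIntegrable hr0.le ?_
      refine hP.continuousOn.mono ?_
      exact sphere_subset_closedBall.trans (closedBall_subset_ball (by linarith))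
    have h2 := Complex.reCLM.circleAverage_comp_comm h1
    rw [hd.circleAverage] at h2
    exact h2
  have hbint : ∫ τ, b τ ∂μ = 2 * Real.pi * (P 0).re := by
    rw [← hPavg, ← havg, hb]
  have hlow : 2 * Real.pi * (L - q) * (2 * Real.pi * (P 0).re) ≤
      ∫ τ, ∫ θ, G (θ, τ) ∂μ ∂μ := by
    rw [← hbint, ← integral_const_mul]
    exact integral_mono ((hci b hbc).const_mul _) hGint.integral_prod_right hJEτ
  have hup : ∫ θ, ∫ τ, G (θ, τ) ∂μ ∂μ ≤
      2 * Real.pi * L * (2 * Real.pi * Real.circleAverage (fun z => UU P L (k z)) 0 s) := by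
    rw [← havg, ← integral_const_mul]
    have := integral_mono hAint (hci _ (continuous_const.mul hUUc : Continuous fun θ =>
      2 * Real.pi * L * UU P L (kz θ))) (fun θ => (hRPθ θ).2)
    rw [hkz] at this
    exact this
  have hfin : 2 * Real.pi * (L - q) * (2 * Real.pi * (P 0).re) ≤
      2 * Real.pi * L * (2 * Real.pi * Real.circleAverage (fun z => UU P L (k z)) 0 s) := by
    rw [hswap] at hup
    exact hlow.trans hup
  have hqL : L - q = L * (1 - K * (1 + L)) := by rw [hq]; ring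
  rw [← hK]
  have hpos : 0 < 2 * Real.pi * L * (2 * Real.pi) := by positivity
  refine le_of_mul_le_mul_left ?_ hpos
  rw [hqL] at hfin
  linarith

end HD243
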