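import Pool.Agent.R243.HD.Defs

/-!
# Project HD, piece UB: elementary properties of the radial averages `UU`
-/

open Set Filter Topology Complex Metric

noncomputable section

namespace HD243

lemma ub_norm (t : ℝ) (ζ : ℂ) : ‖((Real.exp (-t) : ℝ) : ℂ) * ζ‖ = Real.exp (-t) * ‖ζ‖ := by
  rw [norm_mul, Complex.norm_real, Real.norm_of_nonneg (Real.exp_pos _).le]

lemma ub_mem {t : ℝ} (ht : 0 ≤ t) {ζ : ℂ} (hζ : ζ ∈ ball (0 : ℂ) 1) :
    ((Real.exp (-t) : ℝ) : ℂ) * ζ ∈ ball (0 : ℂ) 1 := by
  rw [mem_ball_zero_iff] at *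
  rw [ub_norm]
  have h1 : Real.exp (-t) ≤ 1 := Real.exp_le_one_iff.2 (by linarith)
  nlinarith [norm_nonneg ζ, Real.exp_pos (-t)]

theorem t_UB : S_UB := by
  intro P R L B M hR hL hM hP hB hM2
  have hPc : ContinuousOn P (ball (0 : ℂ) 1) :=
    hP.continuousOn.mono (ball_subset_ball hR.le)
  have hlow : ∀ ζ ∈ ball (0 : ℂ) 1, (0 : ℝ) ≤ 2 * max 0 (L + Real.log ‖ζ‖) := fun ζ _ => by
    have := le_max_left 0 (L + Real.log ‖ζ‖)
    linarith
  have hupp : ∀ ζ ∈ ball (0 : ℂ) 1, 2 * max 0 (L + Real.log ‖ζ‖) ≤ 2 * L := fun ζ hζ => by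
    have h1 : Real.log ‖ζ‖ ≤ 0 :=
      Real.log_nonpos (norm_nonneg _) (mem_ball_zero_iff.1 hζ).le
    have : max 0 (L + Real.log ‖ζ‖) ≤ L := max_le hL.le (by linarith)
    linarith
  have hint : ∀ ζ ∈ ball (0 : ℂ) 1, ∀ a b : ℝ, 0 ≤ a → a ≤ b →
      IntervalIntegrable (fun t : ℝ => (P (((Real.exp (-t) : ℝ) : ℂ) * ζ)).re)
        MeasureTheory.volume a b := by
    intro ζ hζ a b ha hab
    apply ContinuousOn.intervalIntegrable
    rw [uIcc_of_le hab]
    apply Complex.continuous_re.comp_continuousOn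
    refine hPc.comp (f := fun t : ℝ => ((Real.exp (-t) : ℝ) : ℂ) * ζ) ?_ ?_
    · exact (by fun_prop : Continuous fun t : ℝ => ((Real.exp (-t) : ℝ) : ℂ) * ζ).continuousOn
    · intro t ht
      exact ub_mem (ha.trans ht.1) hζ
  refine ⟨?_, ?_⟩
  · rw [continuousOn_iff_continuous_domRestrict]
    set f : ↥(ball (0 : ℂ) 1 \ {0}) → ℝ → ℝ :=
      fun x t => (P (((Real.exp (-(max t 0)) : ℝ) : ℂ) * x.1)).re with hf
    have hfc : Continuous (Function.uncurry f) := by
      apply Complex.continuous_re.comp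
      refine hPc.comp_continuous (f := fun q : ↥(ball (0 : ℂ) 1 \ {0}) × ℝ =>
        ((Real.exp (-(max q.2 0)) : ℝ) : ℂ) * q.1.1) ?_ ?_
      · fun_prop
      · intro q
        exact ub_mem (le_max_right _ _) q.1.2.1
    have hs : Continuous fun x : ↥(ball (0 : ℂ) 1 \ {0}) =>
        2 * max 0 (L + Real.log ‖x.1‖) := by
      have : Continuous fun x : ↥(ball (0 : ℂ) 1 \ {0}) => Real.log ‖x.1‖ := by
        refine Continuous.log (by fun_prop) ?_
        intro x
        have := x.2.2
        simpa using this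
      fun_prop
    have h2 := intervalIntegral.continuous_parametric_intervalIntegral_of_continuous
      (μ := MeasureTheory.volume) (a₀ := 2 * L) hfc hs
    have h3 : (ball (0 : ℂ) 1 \ {0}).domRestrict (UU P L) = fun x =>
        (1 / (2 * L)) * -(∫ t in (2 * L)..(2 * max 0 (L + Real.log ‖x.1‖)), f x t) := by
      funext x
      rw [Set.domRestrict_apply, UU, ← intervalIntegral.integral_symm]
      congr 1
      apply intervalIntegral.integral_congr
      intro t ht
      rw [uIcc_of_le (hupp _ x.2.1)] at ht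
      have ht0 : 0 ≤ t := (hlow _ x.2.1).trans ht.1
      simp only [hf, max_eq_left ht0]
    rw [h3]
    exact continuous_const.mul h2.neg
  · intro ζ hζ hζ0
    have h1 := hlow ζ hζ
    have h2 := hupp ζ hζ
    have hlog : Real.log ‖ζ‖ ≤ 0 :=
      Real.log_nonpos (norm_nonneg _) (mem_ball_zero_iff.1 hζ).le
    have hB0 : 0 ≤ B := by
      have := hB 0 (by simp)
      linarith [this.1, this.2]
    have hL2 : 0 < 2 * L := by linarith
    have hgen : ∀ C : ℝ, (∀ t ∈ Icc (2 * max 0 (L + Real.log ‖ζ‖)) (2 * L),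
        (P (((Real.exp (-t) : ℝ) : ℂ) * ζ)).re ≤ C) →
        UU P L ζ ≤ (1 / (2 * L)) * ((2 * L - 2 * max 0 (L + Real.log ‖ζ‖)) * C) := by
      intro C hC
      rw [UU]
      apply mul_le_mul_of_nonneg_left _ (by positivity)
      have := intervalIntegral.integral_mono_on h2 (hint ζ hζ _ _ h1 h2)
        (intervalIntegrable_const (c := C)) hC
      simpa [intervalIntegral.integral_const] using this
    refine ⟨?_, ?_, ?_⟩
    · rw [UU]
      apply mul_nonneg (by positivity)
      apply intervalIntegral.integral_nonneg h2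
      intro t ht
      exact (hB _ (ub_mem (h1.trans ht.1) hζ)).1
    · refine (hgen B fun t ht => (hB _ (ub_mem (h1.trans ht.1) hζ)).2).trans ?_
      have h3 : L + Real.log ‖ζ‖ ≤ max 0 (L + Real.log ‖ζ‖) := le_max_right _ _
      rw [mul_comm (B), mul_div_assoc, div_eq_mul_one_div B L]
      have : 1 / (2 * L) * ((2 * L - 2 * max 0 (L + Real.log ‖ζ‖)) * B) =
          (L - max 0 (L + Real.log ‖ζ‖)) * (B * (1 / L)) := by
        field_simp
      rw [this]
      apply mul_le_mul_of_nonneg_right _ (by positivity)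
      linarith
    · have hpos : 0 ≤ (P ζ).re + 2 * L * M := by
        have := (hB ζ hζ).1
        positivity
      refine (hgen ((P ζ).re + 2 * L * M) fun t ht => ?_).trans ?_
      · have ht0 : 0 ≤ t := h1.trans ht.1
        have h3 := hM2 _ (ub_mem ht0 hζ) _ hζ
        have h4 : ‖((Real.exp (-t) : ℝ) : ℂ) * ζ - ζ‖ ≤ 2 * L := by
          have : ((Real.exp (-t) : ℝ) : ℂ) * ζ - ζ = ((Real.exp (-t) - 1 : ℝ) : ℂ) * ζ := by
            push_cast; ring
          rw [this, norm_mul, Complex.norm_real]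
          have h5 : Real.exp (-t) ≤ 1 := Real.exp_le_one_iff.2 (by linarith)
          have h6 : 1 - t ≤ Real.exp (-t) := by
            have := Real.add_one_le_exp (-t); linarith
          rw [Real.norm_of_nonpos (by linarith)]
          have h7 := (mem_ball_zero_iff.1 hζ).le
          have h8 : -(Real.exp (-t) - 1) ≤ 2 * L := by linarith [ht.2]
          calc -(Real.exp (-t) - 1) * ‖ζ‖ ≤ (2 * L) * 1 :=
                mul_le_mul h8 h7 (norm_nonneg _) hL2.le
            _ = 2 * L := mul_one _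
        have h9 := (abs_le.1 h3).2
        have h10 : M * ‖((Real.exp (-t) : ℝ) : ℂ) * ζ - ζ‖ ≤ M * (2 * L) :=
          mul_le_mul_of_nonneg_left h4 hM
        linarith
      · have : 1 / (2 * L) * ((2 * L - 2 * max 0 (L + Real.log ‖ζ‖)) * ((P ζ).re + 2 * L * M)) ≤
            1 / (2 * L) * ((2 * L) * ((P ζ).re + 2 * L * M)) := by
          apply mul_le_mul_of_nonneg_left _ (by positivity)
          apply mul_le_mul_of_nonneg_right _ hpos
          linarith
        refine this.trans (le_of_eq ?_)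
        field_simp

end HD243
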