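import Pool.Agent.R243.HD.Defs
import Pool.Agent.Helper202.Univ

/-!
# Project HD: elementary facts on univalent self-maps (UD), division from the left (LF)
-/

open Set Filter Topology Complex Metric

noncomputable section

namespace HD243

theorem t_UD : S_UD := by
  intro u hu
  obtain ⟨hd, hm, hi, h0⟩ := hu
  refine ⟨Pool.Agent.Helper202.Univ.deriv_ne_zero isOpen_ball hd hi (mem_ball_self one_pos), ?_,
    ?_, ?_⟩
  · have hm' : MapsTo u (ball 0 1) (closedBall (u 0) 1) := by
      rw [h0]; exact hm.mono_right ball_subset_closedBall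
    exact Complex.norm_deriv_le_one_of_mapsTo_ball hd hm' one_pos
  · intro z hz
    rw [mem_ball_zero_iff] at hz
    exact Complex.norm_le_norm_of_mapsTo_ball hd (hm.mono_right ball_subset_closedBall) h0 hz
  · intro z hz hz0
    exact hi hz (mem_ball_self one_pos) (hz0.trans h0.symm)

theorem t_LF : S_LF := by
  intro u v hu hv hm
  obtain ⟨hd, _, hi, _⟩ := hu
  refine ⟨fun z => Function.invFunOn u (ball 0 1) (v z), ?_, ?_, ?_⟩
  · intro z hz
    have h1 := Pool.Agent.Helper202.Univ.differentiableAt_inv isOpen_ball hd hi (hm hz)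
    have h2 := hv.differentiableAt (isOpen_ball.mem_nhds hz)
    exact (h1.comp z h2).differentiableWithinAt
  · intro z hz
    exact Pool.Agent.Helper202.Univ.invFunOn_mem (hm hz)
  · intro z hz
    exact Pool.Agent.Helper202.Univ.invFunOn_right (hm hz)

end HD243
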