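import Pool.Agent.R243.HD.Defs

open Set Filter Topology Complex Metric

namespace HD243

/-- a univalent self-map of the disc is open -/
theorem vm_open {u : ℂ → ℂ} (hu : Un u) {s : Set ℂ} (hs : s ⊆ ball 0 1) (ho : IsOpen s) :
    IsOpen (u '' s) := by
  have han : AnalyticOnNhd ℂ u (ball 0 1) := hu.1.analyticOnNhd isOpen_ball
  have hpc : IsPreconnected (ball (0 : ℂ) 1) := (convex_ball 0 1).isPreconnected
  rcases han.is_constant_or_isOpen hpc with ⟨w, hw⟩ | h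
  · exfalso
    have h0 : (0 : ℂ) ∈ ball (0 : ℂ) 1 := by simp
    have h1 : (1 / 2 : ℂ) ∈ ball (0 : ℂ) 1 := by
      rw [mem_ball_zero_iff]
      norm_num
    have := hu.2.2.1 h0 h1 ((hw _ h0).trans (hw _ h1).symm)
    norm_num at this
  · exact h s hs ho

theorem t_VM (hCN : S_CN) (hRM : S_RM) (hLF : S_LF) (hUD : S_UD) : S_VM := by
  intro u p hu hp
  have h00 : (0 : ℂ) ∈ ball (0 : ℂ) 1 := by simp
  have hUo : IsOpen (u '' ball 0 1) := vm_open hu subset_rfl isOpen_ball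
  have hGo : IsOpen (p '' ball 0 1) := vm_open hp subset_rfl isOpen_ball
  have hU1 : {z : ℂ | 1 ≤ ‖z‖} ⊆ (u '' ball 0 1)ᶜ := by
    rintro z hz ⟨x, hx, rfl⟩
    have := hu.2.1 hx
    rw [mem_ball_zero_iff] at this
    exact absurd hz (not_le.2 this)
  have hG1 : {z : ℂ | 1 ≤ ‖z‖} ⊆ (p '' ball 0 1)ᶜ := by
    rintro z hz ⟨x, hx, rfl⟩
    have := hp.2.1 hx
    rw [mem_ball_zero_iff] at this
    exact absurd hz (not_le.2 this)
  have hone : (1 : ℂ) ∈ {z : ℂ | 1 ≤ ‖z‖} := by simp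
  have hCconn : IsConnected ((u '' ball 0 1)ᶜ ∪ (p '' ball 0 1)ᶜ) :=
    IsConnected.union ⟨1, hU1 hone, hG1 hone⟩ (hCN u hu) (hCN p hp)
  have hCclosed : IsClosed ((u '' ball 0 1)ᶜ ∪ (p '' ball 0 1)ᶜ) :=
    hUo.isClosed_compl.union hGo.isClosed_compl
  have hC1 : {z : ℂ | 1 ≤ ‖z‖} ⊆ (u '' ball 0 1)ᶜ ∪ (p '' ball 0 1)ᶜ :=
    fun z hz => Or.inl (hU1 hz)
  have h0U : (0 : ℂ) ∈ u '' ball 0 1 := ⟨0, h00, hu.2.2.2⟩
  have h0G : (0 : ℂ) ∈ p '' ball 0 1 := ⟨0, h00, hp.2.2.2⟩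
  have h0C : (0 : ℂ) ∉ (u '' ball 0 1)ᶜ ∪ (p '' ball 0 1)ᶜ := by
    rintro (h | h)
    · exact h h0U
    · exact h h0G
  obtain ⟨v, hv, hvim⟩ := hRM _ hCclosed hCconn hC1 h0C
  have hcompl : ((u '' ball 0 1)ᶜ ∪ (p '' ball 0 1)ᶜ)ᶜ = u '' ball 0 1 ∩ p '' ball 0 1 := by
    rw [compl_union, compl_compl, compl_compl]
  rw [hcompl] at hvim
  obtain ⟨O, hO⟩ : ∃ O : Set ℂ, O = u '' ball 0 1 ∩ p '' ball 0 1 := ⟨_, rfl⟩
  rw [← hO] at hvim
  have hOo : IsOpen O := by rw [hO]; exact hUo.inter hGo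
  have hVsub : v '' ball 0 1 ⊆ O := by rw [hvim]; exact connectedComponentIn_subset _ _
  have hvU : MapsTo v (ball 0 1) (u '' ball 0 1) := fun z hz => by
    have := hVsub ⟨z, hz, rfl⟩
    rw [hO] at this
    exact this.1
  have hvG : MapsTo v (ball 0 1) (p '' ball 0 1) := fun z hz => by
    have := hVsub ⟨z, hz, rfl⟩
    rw [hO] at this
    exact this.2
  obtain ⟨φ, hφd, hφm, hφ⟩ := hLF u v hu hv.1 hvU
  obtain ⟨k, hkd, hkm, hk⟩ := hLF p v hp hv.1 hvG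
  have hφinj : InjOn φ (ball 0 1) := by
    intro z hz w hw hzw
    apply hv.2.2.1 hz hw
    rw [← hφ z hz, ← hφ w hw, hzw]
  have hkinj : InjOn k (ball 0 1) := by
    intro z hz w hw hzw
    apply hv.2.2.1 hz hw
    rw [← hk z hz, ← hk w hw, hzw]
  have hφ0 : φ 0 = 0 := by
    apply (hUD u hu).2.2.2 _ (hφm h00)
    rw [hφ 0 h00]
    exact hv.2.2.2
  have hk0 : k 0 = 0 := by
    apply (hUD p hp).2.2.2 _ (hkm h00)
    rw [hk 0 h00]
    exact hv.2.2.2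
  refine ⟨φ, k, ⟨hφd, hφm, hφinj, hφ0⟩, ⟨hkd, hkm, hkinj, hk0⟩, fun z hz => by
    rw [hφ z hz, hk z hz], ?_⟩
  -- boundary behaviour
  intro r hr ε hε
  have hsub1 : closedBall (0 : ℂ) (1 - ε) ⊆ ball 0 1 := closedBall_subset_ball (by linarith)
  have hsub2 : closedBall (0 : ℂ) r ⊆ ball 0 1 := closedBall_subset_ball hr
  obtain ⟨K, hK⟩ : ∃ K : Set ℂ, K = u '' closedBall 0 (1 - ε) ∩ p '' closedBall 0 r := ⟨_, rfl⟩
  have hKc : IsCompact K := by
    rw [hK]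
    exact ((isCompact_closedBall 0 (1 - ε)).image_of_continuousOn
      (hu.1.continuousOn.mono hsub1)).inter
      ((isCompact_closedBall 0 r).image_of_continuousOn (hp.1.continuousOn.mono hsub2))
  have hKO : K ⊆ O := by
    rw [hK, hO]
    exact inter_subset_inter (image_mono hsub1) (image_mono hsub2)
  obtain ⟨V, hV⟩ : ∃ V : Set ℂ, V = connectedComponentIn O 0 := ⟨_, rfl⟩
  have hrest : IsOpen (O \ V) := by
    rw [isOpen_iff_mem_nhds]
    rintro x ⟨hxO, hxV⟩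
    have h1 : connectedComponentIn O x ∈ 𝓝 x :=
      (hOo.connectedComponentIn).mem_nhds (mem_connectedComponentIn hxO)
    refine mem_of_superset h1 ?_
    intro y hy
    refine ⟨connectedComponentIn_subset _ _ hy, fun hyV => hxV ?_⟩
    rw [hV] at hyV ⊢
    rw [connectedComponentIn_eq hyV, ← connectedComponentIn_eq hy]
    exact mem_connectedComponentIn hxO
  have hKV : IsCompact (K ∩ V) := by
    have e : K ∩ V = K ∩ (O \ V)ᶜ := by
      ext x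
      constructor
      · rintro ⟨h1, h2⟩
        exact ⟨h1, fun h => h.2 h2⟩
      · rintro ⟨h1, h2⟩
        refine ⟨h1, ?_⟩
        by_contra h3
        exact h2 ⟨hKO h1, h3⟩
    rw [e]
    exact hKc.inter_right hrest.isClosed_compl
  -- the inverse image
  let f : ball (0 : ℂ) 1 → ℂ := fun z => v z
  have hfc : Continuous f := continuousOn_iff_continuous_restrict.1 hv.1.continuousOn
  have hfi : Function.Injective f := fun a b hab => Subtype.ext (hv.2.2.1 a.2 b.2 hab)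
  have hfo : IsOpenMap f := by
    intro s hs
    obtain ⟨t, ht, rfl⟩ := isOpen_induced_iff.1 hs
    have e : f '' (Subtype.val ⁻¹' t) = v '' (ball 0 1 ∩ t) := by
      ext y
      constructor
      · rintro ⟨z, hz, rfl⟩
        exact ⟨z.1, ⟨z.2, hz⟩, rfl⟩
      · rintro ⟨z, ⟨h1, h2⟩, rfl⟩
        exact ⟨⟨z, h1⟩, h2, rfl⟩
    rw [e]
    exact vm_open hv inter_subset_left (isOpen_ball.inter ht)
  have hfe : IsOpenEmbedding f := IsOpenEmbedding.of_continuous_injective_isOpenMap hfc hfi hfo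
  have hrange : K ∩ V ⊆ range f := by
    rintro y ⟨_, hy⟩
    rw [hV, ← hvim] at hy
    obtain ⟨z, hz, rfl⟩ := hy
    exact ⟨⟨z, hz⟩, rfl⟩
  have hpre : IsCompact (f ⁻¹' (K ∩ V)) :=
    (hfe.isEmbedding.isInducing.isCompact_preimage_iff hrange).2 hKV
  have hcont : ContinuousOn (fun z : ball (0 : ℂ) 1 => ‖z.1‖) (f ⁻¹' (K ∩ V)) :=
    (continuous_subtype_val.norm).continuousOn
  obtain ⟨s, hs1, hs2⟩ : ∃ s < (1 : ℝ), ∀ z : ball (0 : ℂ) 1, z ∈ f ⁻¹' (K ∩ V) → ‖z.1‖ ≤ s := by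
    rcases (f ⁻¹' (K ∩ V)).eq_empty_or_nonempty with he | hne
    · exact ⟨0, by norm_num, fun z hz => by rw [he] at hz; exact absurd hz (notMem_empty _)⟩
    · obtain ⟨z0, _, hz0⟩ := hpre.exists_isMaxOn hne hcont
      refine ⟨‖z0.1‖, mem_ball_zero_iff.1 z0.2, fun z hz => hz0 hz⟩
  refine ⟨s, hs1, ?_⟩
  intro z hsz hz1 hkz
  by_contra hlt
  push Not at hlt
  have hzb : z ∈ ball (0 : ℂ) 1 := mem_ball_zero_iff.2 hz1
  have h1 : v z ∈ K ∩ V := by
    constructor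
    · rw [hK]
      refine ⟨⟨φ z, ?_, hφ z hzb⟩, ⟨k z, ?_, hk z hzb⟩⟩
      · rw [mem_closedBall_zero_iff]
        exact hlt.le
      · rw [mem_closedBall_zero_iff]
        exact hkz
    · rw [hV, ← hvim]
      exact ⟨z, hzb, rfl⟩
  have h2 := hs2 ⟨z, hzb⟩ h1
  exact absurd h2 (not_le.2 hsz)

end HD243
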